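import Pool.Agent.H41N.JT.Ev

/-!
# The number of the points of a member over the finite fields, by the closed points
-/

set_option autoImplicit false
set_option linter.unusedSectionVars false

namespace H41N.JT

open Finset Function MvPolynomial
open Pool.Agent.Y722.HS (Mon mev)
open scoped LinearAlgebra.Projectivization

variable {n : ℕ} {J : Type} [Fintype J] {dg : J → ℕ} (g : J → MvPolynomial (Fin (n + 1)) ℤ) (W : Set (MvPolynomial (Fin (n + 1)) ℤ))

/-- the number of the points over the field with `p ^ k` elements -/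
noncomputable def npts (p k : ℕ) (S : Set (MvPolynomial (Fin (n + 1)) ℤ)) : ℕ :=
  if h : p.Prime then
    haveI : Fact p.Prime := ⟨h⟩
    Nat.card {P : ℙ (GaloisField p k) (Fin (n + 1) → GaloisField p k) // ∀ G ∈ S, aeval P.rep G = 0}
  else 0

/-- the form `∑ g_j h_j`, `h_j` the form of degree `d_j` with the coefficients `c (j, ·)` -/
noncomputable def fam (c : Idx n dg → ℤ) : MvPolynomial (Fin (n + 1)) ℤ :=
  ∑ j, g j * ∑ ν : Mon n (dg j), C (c ⟨j, ν⟩) * ∏ i, X i ^ (ν.1 i : ℕ)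

/-- the number of the points of a member -/
noncomputable def cnt (p k : ℕ) (c : Idx n dg → ZMod p) : ℕ :=
  if h : p.Prime then
    haveI : Fact p.Prime := ⟨h⟩
    Nat.card {P : ℙ (GaloisField p k) (Fin (n + 1) → GaloisField p k) // (∀ G ∈ W, aeval P.rep G = 0) ∧ evL g p P.rep c = 0}
  else 0

lemma aeval_fam (p : ℕ) {K : Type*} [Field K] [Algebra (ZMod p) K] (t : Idx n dg → ℤ) (v : Fin (n + 1) → K) :
    aeval v (fam g t) = evL g p v (fun x => (t x : ZMod p)) := by
  unfold fam evL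
  rw [map_sum]
  refine sum_congr rfl fun j _ => ?_
  rw [map_mul, map_sum]
  congr 1
  refine sum_congr rfl fun ν _ => ?_
  rw [map_mul, map_prod]
  congr 1
  · simp
  · unfold mev
    exact prod_congr rfl fun i _ => by rw [map_pow, aeval_X]

lemma npts_fam (p k : ℕ) (t : Idx n dg → ℤ) : npts p k (W ∪ {fam g t}) = cnt g W p k (fun x => (t x : ZMod p)) := by
  unfold npts cnt
  split_ifs with h
  · have : Fact p.Prime := ⟨h⟩
    refine Nat.card_congr (Equiv.subtypeEquivRight fun P => ?_)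
    rw [← aeval_fam]
    constructor
    · intro h
      exact ⟨fun G hG => h G (Or.inl hG), h _ (Or.inr rfl)⟩
    · rintro ⟨h1, h2⟩ G (hG | rfl)
      · exact h1 G hG
      · exact h2
  · rfl

section

variable (p : ℕ) [hp : Fact p.Prime] {M : ℕ}

/-- the points of `W` outside the base locus over the field with `p ^ k` elements -/
noncomputable def WP (M k : ℕ) : Finset (Fin (n + 1) → GaloisField p M) :=
  open Classical in
  haveI : Fintype (Fin (n + 1) → GaloisField p M) := Fintype.ofFinite _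
  univ.filter fun v => Pt g W p v ∧ (Fr p)^[k] v = v

lemma mem_WP {k : ℕ} {v : Fin (n + 1) → GaloisField p M} : v ∈ WP g W p M k ↔ Pt g W p v ∧ (Fr p)^[k] v = v := by
  classical
  unfold WP
  rw [mem_filter]
  exact ⟨fun h => h.2, fun h => ⟨@mem_univ _ (_) _, h⟩⟩

lemma sum_WP {k : ℕ} (hk : k ≠ 0) (f : (Fin (n + 1) → GaloisField p M) → ℝ) :
    ∑ v ∈ WP g W p M k, f v = ∑ d ∈ k.divisors, ∑ v ∈ EEs g W p M d, f v := by
  classical
  have h1 : ∀ v ∈ WP g W p M k, minimalPeriod (Fr p) v ∈ k.divisors := fun v hv =>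
    Nat.mem_divisors.2 ⟨IsPeriodicPt.minimalPeriod_dvd ((mem_WP g W p).1 hv).2, hk⟩
  rw [← sum_fiberwise_of_maps_to h1]
  refine sum_congr rfl fun d hd => sum_congr ?_ fun _ _ => rfl
  ext v
  rw [mem_filter, mem_WP, mem_EEs]
  constructor
  · rintro ⟨⟨h2, _⟩, h3⟩
    exact ⟨h2, h3⟩
  · rintro ⟨h2, h3⟩
    refine ⟨⟨h2, ?_⟩, h3⟩
    have h4 : minimalPeriod (Fr p) v ∣ k := by
      rw [h3]
      exact Nat.dvd_of_mem_divisors hd
    exact isPeriodicPt_iff_minimalPeriod_dvd.2 h4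

lemma fix_iff' (k : ℕ) (v : Fin (n + 1) → GaloisField p M) : (∀ i, v i ^ p ^ k = v i) ↔ (Fr p)^[k] v = v := by
  rw [Fr_iter]
  exact ⟨fun h => funext h, fun h i => congrFun h i⟩

variable {g W}

lemma npts_eq {k : ℕ} (hk : k ≠ 0) (hM : M ≠ 0) (hkM : k ∣ M) {S : Set (MvPolynomial (Fin (n + 1)) ℤ)} (hS : Hom S) :
    npts p k S = Nat.card {v : Fin (n + 1) → GaloisField p M // Nrm v ∧ (∀ i, v i ^ p ^ k = v i) ∧ Zr S v} := by
  unfold npts
  rw [dif_pos hp.out]
  exact card_points p hk hM hkM (fun v => Zr S v) (fun v => Zr S v) (fun a v ha => Zr.smul hS a v ha) fun ι v => Zr.comp ι v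

variable (g W)

lemma npts_WP {k : ℕ} (hk : k ≠ 0) (hM : M ≠ 0) (hkM : k ∣ M) (hW : Hom W) (hg : Hom (Set.range g)) :
    (npts p k W : ℝ) = npts p k (W ∪ Set.range g) + (WP g W p M k).card := by
  classical
  have : Fintype (Fin (n + 1) → GaloisField p M) := Fintype.ofFinite _
  have hWg : Hom (W ∪ Set.range g) := by
    rintro G (hG | hG)
    · exact hW G hG
    · exact hg G hG
  rw [npts_eq p hk hM hkM hW, npts_eq p hk hM hkM hWg, Nat.card_eq_fintype_card, Nat.card_eq_fintype_card, Fintype.card_subtype, Fintype.card_subtype]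
  rw [← Nat.cast_add, ← card_union_of_disjoint]
  · congr 2
    ext v
    simp only [mem_filter, mem_univ, true_and, mem_union, mem_WP, fix_iff']
    constructor
    · rintro ⟨h1, h2, h3⟩
      by_cases h4 : ∃ j, aeval v (g j) ≠ 0
      · exact Or.inr ⟨⟨h1, h3, h4⟩, h2⟩
      · push Not at h4
        refine Or.inl ⟨h1, h2, ?_⟩
        rintro G (hG | ⟨j, rfl⟩)
        · exact h3 G hG
        · exact h4 j
    · rintro (⟨h1, h2, h3⟩ | ⟨⟨h1, h2, h3⟩, h4⟩)
      · exact ⟨h1, h2, fun G hG => h3 G (Or.inl hG)⟩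
      · exact ⟨h1, h4, h2⟩
  · rw [disjoint_left]
    intro v hv hv'
    obtain ⟨⟨_, _, j, hj⟩, _⟩ := (mem_WP g W p).1 hv'
    exact hj ((mem_filter.1 hv).2.2.2 (g j) (Or.inr ⟨j, rfl⟩))

open Classical in
/-- **The points of a member.** -/
theorem cnt_eq {k : ℕ} (hk : k ≠ 0) (hM : M ≠ 0) (hkM : k ∣ M) (hW : Hom W) {e : J → ℕ} (hg : ∀ j, (g j).IsHomogeneous (e j)) {δ : ℕ}
    (hδ : ∀ j, e j + dg j = δ) (c : Idx n dg → ZMod p) :
    (cnt g W p k c : ℝ) = npts p k (W ∪ Set.range g) + ∑ d ∈ k.divisors, ∑ v ∈ EEs g W p M d, (if evL g p v c = 0 then (1 : ℝ) else 0) := by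
  have : Fintype (Fin (n + 1) → GaloisField p M) := Fintype.ofFinite _
  have hWg : Hom (W ∪ Set.range g) := by
    rintro G (hG | ⟨j, rfl⟩)
    · exact hW G hG
    · exact ⟨e j, hg j⟩
  rw [← sum_WP g W p hk]
  unfold cnt
  rw [dif_pos hp.out]
  have h1 := card_points p hk hM hkM (fun v => (∀ G ∈ W, aeval v G = 0) ∧ evL g p v c = 0)
    (fun v => (∀ G ∈ W, aeval v G = 0) ∧ evL g p v c = 0) (fun a v ha => by
      refine and_congr (Zr.smul hW a v ha) ?_
      rw [evL_smul g p hg hδ, mul_eq_zero]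
      exact ⟨fun h => h.resolve_left (pow_ne_zero _ ha), Or.inr⟩) (fun ι v => by
      refine and_congr (Zr.comp ι v) ?_
      rw [evL_map]
      exact map_eq_zero ι)
  rw [h1, npts_eq p hk hM hkM hWg, Nat.card_eq_fintype_card, Nat.card_eq_fintype_card, Fintype.card_subtype, Fintype.card_subtype]
  rw [sum_boole, ← Nat.cast_add, ← card_union_of_disjoint]
  · congr 2
    ext v
    simp only [mem_filter, mem_univ, true_and, mem_union, mem_WP, fix_iff']
    constructor
    · rintro ⟨h1, h2, h3, h5⟩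
      by_cases h4 : ∃ j, aeval v (g j) ≠ 0
      · exact Or.inr ⟨⟨⟨h1, h3, h4⟩, h2⟩, h5⟩
      · push Not at h4
        refine Or.inl ⟨h1, h2, ?_⟩
        rintro G (hG | ⟨j, rfl⟩)
        · exact h3 G hG
        · exact h4 j
    · rintro (⟨h1, h2, h3⟩ | ⟨⟨⟨h1, h2, h3⟩, h4⟩, h5⟩)
      · exact ⟨h1, h2, fun G hG => h3 G (Or.inl hG), evL_base g p v c fun j => h3 (g j) (Or.inr ⟨j, rfl⟩)⟩
      · exact ⟨h1, h4, h2, h5⟩
  · rw [disjoint_left]
    intro v hv hv'
    obtain ⟨⟨_, _, j, hj⟩, _⟩ := (mem_WP g W p).1 (mem_filter.1 hv').1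
    exact hj ((mem_filter.1 hv).2.2.2 (g j) (Or.inr ⟨j, rfl⟩))

end

end H41N.JT
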