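import Pool.Agent.Q285.HS.Mom

/-!
# The moments of the number of the closed points of given degree
-/

set_option autoImplicit false
set_option linter.unusedSectionVars false

namespace H41N.JT

open Finset
open Q282.CL
open Q282MM (gm)
open Q285HS (Sep sm Loc1 mom_near gm_zero gm_odd)

lemma pow_sub_one_le (v : ℝ) (h0 : 0 ≤ v) (h2 : v ≤ 2) (l : ℕ) : |v ^ l - 1| ≤ l * 2 ^ l * |v - 1| := by
  induction l with
  | zero => simp
  | succ l ih =>
    have h1 : v ^ (l + 1) - 1 = v ^ l * (v - 1) + (v ^ l - 1) := by ring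
    rw [h1]
    refine (abs_add_le _ _).trans ?_
    rw [abs_mul, abs_of_nonneg (pow_nonneg h0 l)]
    have h3 : v ^ l ≤ 2 ^ l := pow_le_pow_left₀ h0 h2 l
    have h4 := mul_le_mul_of_nonneg_right h3 (abs_nonneg (v - 1))
    have h5 : 0 ≤ (2 : ℝ) ^ l * |v - 1| := by positivity
    have h6 : (((l + 1 : ℕ) : ℝ)) * 2 ^ (l + 1) * |v - 1| = (2 * l + 2) * (2 ^ l * |v - 1|) := by
      push_cast
      ring
    rw [h6]
    have h7 : (l : ℝ) * 2 ^ l * |v - 1| = l * (2 ^ l * |v - 1|) := by ring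
    have h8 : (0 : ℝ) ≤ l := Nat.cast_nonneg l
    nlinarith

/-- **The moments are close to those of the normal law of variance `1 / δ`.** -/
theorem deg_near (k : ℕ) (C₁ : ℝ) (hC₁ : 1 ≤ C₁) : ∃ C : ℝ, 1 ≤ C ∧
    ∀ (ι K B : Type) [AddCommGroup K] [Fintype K] [AddCommGroup B] [Fintype B] [DecidableEq B]
    (e : ι → K →+ B) (ψ : ι → B → ℝ) (m : ℕ) (A : Finset ι) (q s t δ : ℝ), 4 * C₁ ≤ t → t ≤ s → t ≤ q → 1 ≤ δ → 2 * δ ≤ t ^ 2 →
    |δ * A.card / (s ^ 2 * q) - 1| ≤ C₁ / t → (∀ u ∈ A, Loc1 (ψ u) q (1 / q * (1 - 1 / q))) → Sep e A m → ∀ j ≤ k, j ≤ m →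
      |av (fun c : K => (sm e A ψ c / s) ^ j) - (gm j : ℝ) / Real.sqrt δ ^ j| ≤ C / t := by
  obtain ⟨C, hC, hmom⟩ := mom_near k
  obtain ⟨G, hG⟩ : ∃ G : ℝ, G = ∑ j ∈ range (k + 1), (gm j : ℝ) := ⟨_, rfl⟩
  have hGj : ∀ j ≤ k, (gm j : ℝ) ≤ G := fun j hj => by
    rw [hG]
    exact single_le_sum (f := fun j => (gm j : ℝ)) (fun i _ => Nat.cast_nonneg _) (mem_range.2 (by omega))
  have hG0 : 0 ≤ G := (Nat.cast_nonneg _).trans (hGj 0 (by omega))
  refine ⟨C * 2 ^ k + G * (k * 2 ^ k * (C₁ + 2)), ?_, ?_⟩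
  · have h1 : (1 : ℝ) ≤ 2 ^ k := one_le_pow₀ (by norm_num)
    have h2 : 0 ≤ G * (k * 2 ^ k * (C₁ + 2)) := by positivity
    nlinarith
  intro ι K B _ _ _ _ _ e ψ m A q s t δ ht hts htq hδ hδt hN hloc hsep j hj hjm
  obtain ⟨N, hNd⟩ : ∃ N : ℝ, N = (A.card : ℝ) := ⟨_, rfl⟩
  rw [← hNd] at hN
  have hN0 : 0 ≤ N := by rw [hNd]; exact Nat.cast_nonneg _
  have ht4 : 4 ≤ t := by linarith
  have ht0 : 0 < t := by linarith
  have hs0 : 0 < s := by linarith
  have hq0 : 0 < q := by linarith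
  have hδ0 : 0 < δ := by linarith
  obtain ⟨w, hw⟩ : ∃ w : ℝ, w = δ * N / (s ^ 2 * q) := ⟨_, rfl⟩
  rw [← hw] at hN
  have hCt : C₁ / t ≤ 1 / 4 := by
    rw [div_le_iff₀ ht0]
    linarith
  have hw1 : 1 / 2 ≤ w ∧ w ≤ 2 := by
    rw [abs_le] at hN
    constructor <;> linarith [hN.1, hN.2]
  have hNw : N = w * (s ^ 2 * q) / δ := by
    rw [hw]
    field_simp
  obtain ⟨r, hr⟩ : ∃ r : ℝ, r = Real.sqrt (N / q) := ⟨_, rfl⟩
  have hNq : N / q = w * s ^ 2 / δ := by
    rw [hNw]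
    field_simp
  have hs2 : t ^ 2 ≤ s ^ 2 := pow_le_pow_left₀ ht0.le hts 2
  have hNq1 : 1 ≤ N / q := by
    rw [hNq, le_div_iff₀ hδ0]
    nlinarith [hw1.1]
  have hr1 : 1 ≤ r := by
    rw [hr]
    exact Real.one_le_sqrt.2 hNq1
  have hr2 : r ^ 2 = N / q := by
    rw [hr, Real.sq_sqrt (by linarith)]
  have hrs : r ≤ 2 * s := by
    refine abs_le_of_sq_le_sq' ?_ (by positivity) |>.2
    rw [mul_pow, hr2, hNq, div_le_iff₀ hδ0]
    have h1 : w * s ^ 2 ≤ 2 * s ^ 2 := mul_le_mul_of_nonneg_right hw1.2 (by positivity)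
    have h2 : 0 ≤ s ^ 2 := by positivity
    nlinarith
  obtain ⟨σ, hσ⟩ : ∃ σ : ℝ, σ = 1 / q * (1 - 1 / q) := ⟨_, rfl⟩
  have hq1 : 1 / q ≤ 1 := by
    rw [div_le_one hq0]
    linarith
  have hq10 : 0 < 1 / q := by positivity
  have hσ0 : 0 ≤ σ := by
    rw [hσ]
    exact mul_nonneg hq10.le (by linarith)
  have hσ1 : σ ≤ 1 / q := by
    rw [hσ]
    nlinarith
  have hm := hmom ι K B e ψ m q r σ (by linarith) hr1 hσ0 hσ1 A hsep (fun u hu => by rw [hσ]; exact hloc u hu) (by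
      rw [← hNd, hr2]
      have : N / q = N * (1 / q) := by ring
      rw [this]
      exact mul_le_mul_of_nonneg_left hσ1 hN0) (by
      rw [← hNd, hr2]
      field_simp
      exact le_refl _) j hj hjm
  rw [← hNd] at hm
  have hsj : 0 < s ^ j := pow_pos hs0 j
  have e0 : av (fun c : K => (sm e A ψ c / s) ^ j) = av (fun c => sm e A ψ c ^ j) / s ^ j := by
    have h1 : (fun c : K => (sm e A ψ c / s) ^ j) = fun c => (1 / s ^ j) * sm e A ψ c ^ j := by
      funext c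
      rw [div_pow]
      ring
    rw [h1, av_mul]
    ring
  rw [e0]
  obtain ⟨v, hv⟩ : ∃ v : ℝ, v = w * (1 - 1 / q) := ⟨_, rfl⟩
  have hv0 : 0 ≤ v := by
    rw [hv]
    exact mul_nonneg (by linarith [hw1.1]) (by linarith)
  have hv2 : v ≤ 2 := by
    rw [hv]
    nlinarith [hw1.1, hw1.2]
  have hv1 : |v - 1| ≤ (C₁ + 2) / t := by
    have h1 : v - 1 = (w - 1) - w * (1 / q) := by
      rw [hv]
      ring
    rw [h1]
    refine (abs_sub _ _).trans ?_
    have h2 : |w * (1 / q)| ≤ 2 / t := by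
      rw [abs_of_nonneg (mul_nonneg (by linarith [hw1.1]) hq10.le)]
      have h4 : 1 / q ≤ 1 / t := one_div_le_one_div_of_le ht0 htq
      calc w * (1 / q) ≤ 2 * (1 / t) := mul_le_mul hw1.2 h4 hq10.le (by norm_num)
        _ = _ := by ring
    rw [add_div]
    linarith
  have hmain : |(gm j : ℝ) * (N * σ) ^ (j / 2) / s ^ j - (gm j : ℝ) / Real.sqrt δ ^ j| ≤ G * (k * 2 ^ k * (C₁ + 2)) / t := by
    by_cases he : Even j
    · obtain ⟨l, hl⟩ := he
      have hjl : j = 2 * l := by omega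
      have h1 : j / 2 = l := by omega
      have h2 : (N * σ) ^ (j / 2) / s ^ j = v ^ l / δ ^ l := by
        rw [h1, hjl, pow_mul, ← div_pow, ← div_pow]
        congr 1
        rw [hv, hσ, hNw]
        field_simp
      have h2' : Real.sqrt δ ^ j = δ ^ l := by
        rw [hjl, pow_mul, Real.sq_sqrt hδ0.le]
      have hδl : 0 < δ ^ l := pow_pos hδ0 l
      have h3 : (gm j : ℝ) * (N * σ) ^ (j / 2) / s ^ j - (gm j : ℝ) / Real.sqrt δ ^ j = (gm j : ℝ) * ((v ^ l - 1) / δ ^ l) := by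
        rw [mul_div_assoc, h2, h2']
        ring
      rw [h3, abs_mul, Nat.abs_cast, abs_div, abs_of_pos hδl]
      have h4 := pow_sub_one_le v hv0 hv2 l
      have h5 : (l : ℝ) * 2 ^ l * |v - 1| ≤ k * 2 ^ k * ((C₁ + 2) / t) := by
        have h6 : (l : ℝ) ≤ k := by exact_mod_cast (by omega : l ≤ k)
        have h7 : (2 : ℝ) ^ l ≤ 2 ^ k := pow_le_pow_right₀ (by norm_num) (by omega)
        have h8 := abs_nonneg (v - 1)
        gcongr
      have h6 : |v ^ l - 1| / δ ^ l ≤ |v ^ l - 1| := div_le_self (abs_nonneg _) (one_le_pow₀ hδ)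
      calc (gm j : ℝ) * (|v ^ l - 1| / δ ^ l) ≤ G * (k * 2 ^ k * ((C₁ + 2) / t)) :=
            mul_le_mul (hGj j hj) (h6.trans (h4.trans h5)) (by positivity) hG0
        _ = _ := by ring
    · rw [gm_odd he]
      simp only [Nat.cast_zero, zero_mul, zero_div, sub_zero, abs_zero]
      positivity
  have herr : |av (fun c => sm e A ψ c ^ j) / s ^ j - (gm j : ℝ) * (N * σ) ^ (j / 2) / s ^ j| ≤ C * 2 ^ k / t := by
    rcases Nat.eq_zero_or_pos j with hj0 | hj0
    · subst hj0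
      simp only [pow_zero, div_one, Nat.zero_div, mul_one]
      rw [av_const, gm_zero, Nat.cast_one, sub_self, abs_zero]
      positivity
    · rw [← sub_div, abs_div, abs_of_pos hsj, div_le_iff₀ hsj]
      refine hm.trans ?_
      have h1 : r ^ (j - 1) ≤ 2 ^ k * s ^ (j - 1) := by
        refine (pow_le_pow_left₀ (by linarith) hrs (j - 1)).trans ?_
        rw [mul_pow]
        refine mul_le_mul_of_nonneg_right ?_ (by positivity)
        exact pow_le_pow_right₀ (by norm_num) (by omega)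
      have h2 : s ^ j = s * s ^ (j - 1) := by
        rw [← pow_succ']
        congr 1
        omega
      rw [h2]
      have h3 : C * 2 ^ k / t * (s * s ^ (j - 1)) = C * (2 ^ k * s ^ (j - 1)) * (s / t) := by ring
      rw [h3]
      have h4 : 1 ≤ s / t := by
        rw [le_div_iff₀ ht0]
        linarith
      have h5 : C * r ^ (j - 1) ≤ C * (2 ^ k * s ^ (j - 1)) := mul_le_mul_of_nonneg_left h1 (by linarith)
      have h6 : 0 ≤ C * (2 ^ k * s ^ (j - 1)) := by positivity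
      nlinarith
  have hfin := abs_sub_le (av (fun c => sm e A ψ c ^ j) / s ^ j) ((gm j : ℝ) * (N * σ) ^ (j / 2) / s ^ j) ((gm j : ℝ) / Real.sqrt δ ^ j)
  have h9 : (C * 2 ^ k + G * (k * 2 ^ k * (C₁ + 2))) / t = C * 2 ^ k / t + G * (k * 2 ^ k * (C₁ + 2)) / t := by ring
  rw [h9]
  linarith

/-! ### the centred indicator function of zero -/

section

variable {B : Type} [AddCommGroup B] [Fintype B] [DecidableEq B]

/-- the centred indicator function of zero -/
noncomputable def ph (q : ℝ) (w : B) : ℝ := (if w = 0 then 1 else 0) - 1 / q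

lemma ph_abs (q : ℝ) (hq : 1 ≤ q) (w : B) : |ph q w| ≤ 1 := by
  have h1 : 1 / q ≤ 1 := by
    rw [div_le_one (by linarith)]
    exact hq
  have h2 : 0 ≤ 1 / q := by positivity
  unfold ph
  split_ifs <;> rw [abs_le] <;> constructor <;> linarith

lemma loc_ph (q : ℝ) (hq : (Fintype.card B : ℝ) = q) : Loc1 (ph (B := B) q) q (1 / q * (1 - 1 / q)) := by
  have hc : 0 < Fintype.card B := Fintype.card_pos
  have hq1 : 1 ≤ q := by
    rw [← hq]
    exact_mod_cast hc
  have hq0 : q ≠ 0 := by linarith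
  have one : av (ph (B := B) q) = 0 := by
    unfold av ph
    rw [sum_sub_distrib, sum_ite_eq' univ 0 (fun _ => (1 : ℝ)), sum_const, card_univ, hq]
    simp only [mem_univ, if_true, nsmul_eq_mul]
    rw [hq]
    field_simp
    simp
  have two : av (fun w => ph (B := B) q w ^ 2) = 1 / q * (1 - 1 / q) := by
    have h1 : ∀ w : B, ph q w ^ 2 = (if w = 0 then (1 - 2 / q) else 0) + 1 / q ^ 2 := by
      intro w
      unfold ph
      split_ifs
      · field_simp
        ring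
      · field_simp
        ring
    unfold av
    rw [sum_congr rfl fun w _ => h1 w, sum_add_distrib, sum_ite_eq' univ 0 (fun _ => (1 - 2 / q)), sum_const, card_univ, hq]
    simp only [mem_univ, if_true, nsmul_eq_mul]
    rw [hq]
    field_simp
    ring
  refine ⟨one, two, fun j hj => ?_⟩
  have h1 : |av (fun w => ph (B := B) q w ^ j)| ≤ av (fun w => ph (B := B) q w ^ 2) := by
    unfold av
    rw [abs_div, Nat.abs_cast]
    refine div_le_div_of_nonneg_right ((abs_sum_le_sum_abs _ _).trans (sum_le_sum fun w _ => ?_)) (Nat.cast_nonneg _)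
    rw [abs_pow, ← sq_abs]
    exact pow_le_pow_of_le_one (abs_nonneg _) (ph_abs q hq1 w) hj
  refine h1.trans ?_
  rw [two]
  have h2 : 0 ≤ 1 / q := by positivity
  nlinarith

end

end H41N.JT
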