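import Pool.Agent.H41N.JT.PB

/-!
# The exterior powers
-/

set_option autoImplicit false
set_option linter.unusedSectionVars false

namespace H41N.JT

open Finset MeasureTheory ProbabilityTheory MvPolynomial
open Pool.Agent.W788.MFP

/-- the elementary symmetric functions, by Newton's formula from the power sums `z 1, z 2, …` -/
noncomputable def elem (z : ℕ → ℝ) : ℕ → ℝ
  | 0 => 1
  | j + 1 => (∑ i ∈ range (j + 1), (-1) ^ i * elem z (j - i) * z (i + 1)) / (j + 1)
  decreasing_by omega

lemma elem_zero (z : ℕ → ℝ) : elem z 0 = 1 := by rw [elem]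

lemma elem_succ (z : ℕ → ℝ) (j : ℕ) : elem z (j + 1) = (∑ i ∈ range (j + 1), (-1) ^ i * elem z (j - i) * z (i + 1)) / (j + 1) := by
  rw [elem]

variable {w : ℕ}

lemma PB.elem (j : ℕ) : j ≤ w → ∃ B, PB w j B fun z => elem z j := by
  induction j using Nat.strong_induction_on with
  | _ j ih =>
    intro hj
    rcases j with _ | j
    · refine ⟨|1|, ?_⟩
      simp only [elem_zero]
      exact PB.const 1
    · have h1 : ∀ i : ℕ, ∃ B, i ∈ range (j + 1) → PB w (j + 1) B fun z => (-1) ^ i * H41N.JT.elem z (j - i) * z (i + 1) := by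
        intro i
        by_cases hi : i ∈ range (j + 1)
        · have hi' := mem_range.1 hi
          obtain ⟨B, hB⟩ := ih (j - i) (by omega) (by omega)
          refine ⟨|(-1) ^ i| * B * 1, fun _ => ?_⟩
          exact ((hB.smul ((-1) ^ i)).mul (PB.var (w := w) (k := i + 1) (mem_Icc.2 (by omega)))).mono' (by omega) le_rfl
        · exact ⟨0, fun h => absurd h hi⟩
      choose B hB using h1
      refine ⟨|((j : ℝ) + 1)⁻¹| * ∑ i ∈ range (j + 1), B i, ?_⟩
      refine ((PB.sum (range (j + 1)) B _ hB).smul ((j : ℝ) + 1)⁻¹).congr fun z => ?_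
      rw [elem_succ, div_eq_inv_mul]

/-- the limit variable as a polynomial -/
noncomputable def Zp (w k : ℕ) : MvPolynomial (Fin w) ℝ := C (eta k) + C (Real.sqrt k) * (if h : k - 1 < w then X ⟨k - 1, h⟩ else 0)

lemma eval_Zp (y : Fin w → ℝ) (k : ℕ) : eval y (Zp w k) = lv y k := by
  unfold Zp lv
  split_ifs <;> simp

/-- the elementary symmetric functions as polynomials -/
noncomputable def EP (w : ℕ) : ℕ → MvPolynomial (Fin w) ℝ
  | 0 => 1
  | j + 1 => C (((j : ℝ) + 1)⁻¹) * ∑ i ∈ range (j + 1), (-1) ^ i * EP w (j - i) * Zp w (i + 1)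
  decreasing_by omega

lemma EP_zero : EP w 0 = 1 := by rw [EP]

lemma EP_succ (j : ℕ) : C ((j : ℝ) + 1) * EP w (j + 1) = ∑ i ∈ range (j + 1), (-1) ^ i * EP w (j - i) * Zp w (i + 1) := by
  rw [EP, ← mul_assoc, ← C_mul, mul_inv_cancel₀ (by positivity), C_1, one_mul]

lemma eval_EP (y : Fin w → ℝ) (j : ℕ) : eval y (EP w j) = elem (lv y) j := by
  induction j using Nat.strong_induction_on with
  | _ j ih =>
    rcases j with _ | j
    · rw [EP_zero, elem_zero, map_one]
    · rw [elem_succ, eq_div_iff (by positivity)]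
      have h := congrArg (eval y) (EP_succ (w := w) j)
      rw [map_mul, eval_C, map_sum] at h
      rw [mul_comm, h]
      refine sum_congr rfl fun i hi => ?_
      rw [map_mul, map_mul, eval_Zp, ih (j - i) (by omega), map_pow, map_neg, map_one]

lemma pderiv_Zp (x : Fin w) (k : ℕ) (hk : 1 ≤ k) : pderiv x (Zp w k) = if k = x + 1 then C (Real.sqrt k) else 0 := by
  unfold Zp
  rw [map_add, pderiv_C, zero_add, pderiv_C_mul]
  split_ifs with h1 h2 h2
  · have : (⟨k - 1, h1⟩ : Fin w) = x := Fin.ext (by simp only; omega)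
    rw [this, pderiv_X_self, mul_one]
  · rw [pderiv_X_of_ne, mul_zero]
    intro h
    have := congrArg Fin.val h
    simp only at this
    omega
  · exact absurd h1 (by have := x.2; omega)
  · rw [map_zero, mul_zero]

/-- the constant -/
noncomputable def cx (x : ℕ) : ℝ := (-1) ^ x * Real.sqrt ((x + 1 : ℕ) : ℝ) / ((x : ℝ) + 1)

lemma cx_mul (x : ℕ) : cx x * ((x : ℝ) + 1) = (-1) ^ x * Real.sqrt ((x + 1 : ℕ) : ℝ) := by
  unfold cx
  rw [div_mul_cancel₀]
  positivity

lemma cx_sqrt (x : ℕ) : (-1) ^ x * Real.sqrt ((x + 1 : ℕ) : ℝ) * cx x = 1 := by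
  unfold cx
  have h1 : Real.sqrt ((x + 1 : ℕ) : ℝ) * Real.sqrt ((x + 1 : ℕ) : ℝ) = (x : ℝ) + 1 := by
    rw [Real.mul_self_sqrt (Nat.cast_nonneg _)]
    push_cast
    rfl
  have h2 : ((-1 : ℝ) ^ x) * (-1) ^ x = 1 := by
    rw [← mul_pow]
    norm_num
  have h3 : (x : ℝ) + 1 ≠ 0 := by positivity
  calc (-1) ^ x * Real.sqrt ((x + 1 : ℕ) : ℝ) * ((-1) ^ x * Real.sqrt ((x + 1 : ℕ) : ℝ) / ((x : ℝ) + 1)) =
      ((-1 : ℝ) ^ x * (-1) ^ x) * (Real.sqrt ((x + 1 : ℕ) : ℝ) * Real.sqrt ((x + 1 : ℕ) : ℝ)) / ((x : ℝ) + 1) := by ring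
    _ = 1 := by rw [h1, h2, one_mul, div_self h3]

lemma pderiv_EP (x : Fin w) (j : ℕ) : pderiv x (EP w j) = if (x : ℕ) + 1 ≤ j then C (cx x) * EP w (j - (x + 1)) else 0 := by
  induction j using Nat.strong_induction_on with
  | _ j ih =>
    rcases j with _ | j
    · rw [EP_zero, if_neg (by omega)]
      exact Derivation.map_one_eq_zero _
    · have hj0 : ((j : ℝ) + 1) ≠ 0 := by positivity
      have hCne : (C ((j : ℝ) + 1) : MvPolynomial (Fin w) ℝ) ≠ 0 := by
        rw [Ne, C_eq_zero]
        exact hj0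
      refine mul_left_cancel₀ hCne ?_
      have h := congrArg (pderiv x) (EP_succ (w := w) j)
      rw [pderiv_C_mul, map_sum] at h
      rw [h]
      have h1 : ∀ i ∈ range (j + 1), pderiv x ((-1) ^ i * EP w (j - i) * Zp w (i + 1)) =
          (if (x : ℕ) + 1 ≤ j - i then C (cx x) * ((-1) ^ i * EP w (j - i - (x + 1)) * Zp w (i + 1)) else 0) +
          (if i = x then (-1) ^ i * EP w (j - i) * C (Real.sqrt ((i + 1 : ℕ) : ℝ)) else 0) := by
        intro i hi
        rw [pderiv_mul, pderiv_Zp x (i + 1) (by omega)]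
        have h2 : pderiv x ((-1) ^ i * EP w (j - i)) = (-1) ^ i * pderiv x (EP w (j - i)) := by
          have h3 : ((-1 : MvPolynomial (Fin w) ℝ) ^ i) = C ((-1) ^ i) := by
            rw [map_pow, map_neg, map_one]
          rw [h3, pderiv_C_mul]
        rw [h2, ih (j - i) (by omega)]
        have h4 : (i + 1 = (x : ℕ) + 1) ↔ i = x := by omega
        simp only [h4]
        split_ifs <;> ring
      rw [sum_congr rfl h1, sum_add_distrib]
      by_cases hx : (x : ℕ) + 1 ≤ j + 1
      · rw [if_pos hx]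
        have h2 : ∑ i ∈ range (j + 1), (if i = x then (-1) ^ i * EP w (j - i) * C (Real.sqrt ((i + 1 : ℕ) : ℝ)) else 0) =
            C (cx x * ((x : ℝ) + 1)) * EP w (j + 1 - (x + 1)) := by
          rw [sum_ite_eq' (range (j + 1)) (x : ℕ), if_pos (mem_range.2 (by omega)), cx_mul, C_mul, C_pow, map_neg, C_1]
          have : j + 1 - ((x : ℕ) + 1) = j - x := by omega
          rw [this]
          ring
        have h3 : ∑ i ∈ range (j + 1), (if (x : ℕ) + 1 ≤ j - i then C (cx x) * ((-1) ^ i * EP w (j - i - (x + 1)) * Zp w (i + 1)) else 0) =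
            C (cx x) * (C ((j : ℝ) - x) * EP w (j + 1 - (x + 1))) := by
          rw [← sum_filter, ← mul_sum]
          congr 1
          rcases Nat.lt_or_ge (x : ℕ) j with hxj | hxj
          · obtain ⟨q, hq⟩ : ∃ q, j = x + 1 + q := ⟨j - (x + 1), by omega⟩
            have e1 : (range (j + 1)).filter (fun i => (x : ℕ) + 1 ≤ j - i) = range (q + 1) := by
              ext i
              rw [mem_filter, mem_range, mem_range]
              omega
            rw [e1]
            have e2 : j + 1 - ((x : ℕ) + 1) = q + 1 := by omega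
            have e3 : (j : ℝ) - x = q + 1 := by
              rw [hq]
              push_cast
              ring
            rw [e2, e3, EP_succ]
            refine sum_congr rfl fun i hi => ?_
            rw [show j - i - ((x : ℕ) + 1) = q - i by omega]
          · have hxj' : (x : ℕ) = j := by omega
            have e1 : (range (j + 1)).filter (fun i => (x : ℕ) + 1 ≤ j - i) = ∅ := by
              rw [filter_eq_empty_iff]
              intro i _
              omega
            rw [e1, sum_empty, hxj', sub_self, C_0, zero_mul]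
        rw [h2, h3, ← mul_assoc, ← mul_assoc, ← C_mul, ← C_mul, ← add_mul, ← C_add]
        congr 2
        ring
      · rw [if_neg hx, mul_zero]
        have e1 : ∀ i ∈ range (j + 1), (if (x : ℕ) + 1 ≤ j - i then C (cx x) * ((-1) ^ i * EP w (j - i - (x + 1)) * Zp w (i + 1)) else 0) = 0 :=
          fun i _ => if_neg (by omega)
        have e2 : ∀ i ∈ range (j + 1), (if i = x then (-1) ^ i * EP w (j - i) * C (Real.sqrt ((i + 1 : ℕ) : ℝ)) else 0) = (0 : MvPolynomial (Fin w) ℝ) :=
          fun i hi => if_neg (by have := mem_range.1 hi; omega)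
        rw [sum_eq_zero e1, sum_eq_zero e2, add_zero]

/-- the mean -/
noncomputable def Em (w : ℕ) : MvPolynomial (Fin w) ℝ →ₗ[ℝ] ℝ where
  toFun P := ∫ y, eval y P ∂(GG w)
  map_add' P Q := by
    simp only [map_add]
    exact integral_add (Gm.int_poly P) (Gm.int_poly Q)
  map_smul' c P := by
    simp only [smul_eval, RingHom.id_apply, smul_eq_mul]
    exact integral_const_mul _ _

lemma Em_C (c : ℝ) (P : MvPolynomial (Fin w) ℝ) : Em w (C c * P) = c * Em w P := by
  rw [← smul_eq_C_mul, map_smul, smul_eq_mul]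

lemma Em_one : Em w 1 = 1 := by
  show ∫ y, eval y (1 : MvPolynomial (Fin w) ℝ) ∂(GG w) = 1
  simp

lemma Em_X (x : Fin w) (P : MvPolynomial (Fin w) ℝ) : Em w (X x * P) = Em w (pderiv x P) := by
  have h := Gm.ibp P x
  show ∫ y, eval y (X x * P) ∂(GG w) = ∫ y, eval y (pderiv x P) ∂(GG w)
  rw [← h]
  refine integral_congr_ae (Filter.Eventually.of_forall fun y => ?_)
  simp

lemma Em_Zp (x : Fin w) (P : MvPolynomial (Fin w) ℝ) :
    Em w (Zp w (x + 1) * P) = eta (x + 1) * Em w P + Real.sqrt ((x + 1 : ℕ) : ℝ) * Em w (pderiv x P) := by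
  unfold Zp
  rw [dif_pos (by simp), add_mul, map_add, Em_C, mul_assoc, Em_C]
  have : (⟨(x : ℕ) + 1 - 1, by simp⟩ : Fin w) = x := Fin.ext (by simp)
  rw [this, Em_X]

/-- the recursion for the means -/
lemma Em_rec (j : ℕ) (hj : j < w) (F : MvPolynomial (Fin w) ℝ) :
    ((j : ℝ) + 1) * Em w (EP w (j + 1) * F) =
      ∑ i ∈ range (j + 1), (-1) ^ i * Real.sqrt ((i + 1 : ℕ) : ℝ) * Em w (EP w (j - i) * (if h : i < w then pderiv ⟨i, h⟩ F else 0)) := by
  have h1 : ((j : ℝ) + 1) * Em w (EP w (j + 1) * F) = ∑ i ∈ range (j + 1), (-1) ^ i * Em w (Zp w (i + 1) * (EP w (j - i) * F)) := by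
    rw [← Em_C, ← mul_assoc, EP_succ, sum_mul, map_sum]
    refine sum_congr rfl fun i _ => ?_
    have h3 : ((-1 : MvPolynomial (Fin w) ℝ) ^ i) = C ((-1) ^ i) := by
      rw [map_pow, map_neg, map_one]
    rw [h3, mul_assoc, mul_assoc, Em_C]
    congr 2
    ring
  have h2 : ∀ i ∈ range (j + 1), (-1) ^ i * Em w (Zp w (i + 1) * (EP w (j - i) * F)) =
      ((-1) ^ i * eta (i + 1) * Em w (EP w (j - i) * F) + (if i + 1 ≤ j - i then Em w (EP w (j - i - (i + 1)) * F) else 0)) +
      (-1) ^ i * Real.sqrt ((i + 1 : ℕ) : ℝ) * Em w (EP w (j - i) * (if h : i < w then pderiv ⟨i, h⟩ F else 0)) := by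
    intro i hi
    have hi' := mem_range.1 hi
    have hiw : i < w := by omega
    rw [dif_pos hiw]
    have h3 := Em_Zp (⟨i, hiw⟩ : Fin w) (EP w (j - i) * F)
    simp only at h3
    rw [h3, pderiv_mul, map_add, pderiv_EP]
    simp only
    split_ifs with h4
    · rw [mul_assoc (C (cx i)), Em_C]
      have h5 := cx_sqrt i
      calc _ = (-1) ^ i * eta (i + 1) * Em w (EP w (j - i) * F) + ((-1) ^ i * Real.sqrt ((i + 1 : ℕ) : ℝ) * cx i) * Em w (EP w (j - i - (i + 1)) * F) +
          (-1) ^ i * Real.sqrt ((i + 1 : ℕ) : ℝ) * Em w (EP w (j - i) * pderiv ⟨i, hiw⟩ F) := by ring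
        _ = _ := by rw [h5, one_mul]
    · rw [zero_mul, map_zero]
      ring
  rw [h1, sum_congr rfl h2, sum_add_distrib, add_eq_right]
  -- the cancellation
  rw [sum_add_distrib]
  have h3 : ∑ i ∈ range (j + 1), (-1 : ℝ) ^ i * eta (i + 1) * Em w (EP w (j - i) * F) =
      -∑ i ∈ range (j + 1), (if i + 1 ≤ j - i then Em w (EP w (j - i - (i + 1)) * F) else 0) := by
    rw [← sum_filter, ← sum_neg_distrib]
    have h4 : ∀ i ∈ range (j + 1), (-1 : ℝ) ^ i * eta (i + 1) * Em w (EP w (j - i) * F) = if ¬ Even i then -Em w (EP w (j - i) * F) else 0 := by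
      intro i _
      unfold eta
      by_cases hi : Even i
      · rw [if_neg (by rw [Nat.even_add_one]; exact fun h => h hi), if_neg (by simpa using hi)]
        ring
      · rw [if_pos (by rw [Nat.even_add_one]; exact hi), if_pos hi]
        have : (-1 : ℝ) ^ i = -1 := (Nat.not_even_iff_odd.1 hi).neg_one_pow
        rw [this]
        ring
    rw [sum_congr rfl h4, ← sum_filter]
    symm
    refine sum_nbij' (fun i => 2 * i + 1) (fun i => (i - 1) / 2) ?_ ?_ ?_ ?_ ?_
    · intro i hi
      rw [mem_filter, mem_range] at hi ⊢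
      refine ⟨by omega, ?_⟩
      rw [Nat.not_even_iff_odd]
      exact ⟨i, rfl⟩
    · intro i hi
      rw [mem_filter, mem_range, Nat.not_even_iff_odd] at hi
      obtain ⟨h5, m, hm⟩ := hi
      rw [mem_filter, mem_range]
      omega
    · intro i _
      omega
    · intro i hi
      rw [mem_filter, mem_range, Nat.not_even_iff_odd] at hi
      obtain ⟨h5, m, hm⟩ := hi
      omega
    · intro i hi
      rw [show j - i - (i + 1) = j - (2 * i + 1) by omega]
  rw [h3]
  ring

/-- **The exterior powers are orthonormal.** -/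
theorem Em_orth (j : ℕ) : j ≤ w → ∀ l ≤ w, Em w (EP w j * EP w l) = if j = l then 1 else 0 := by
  induction j using Nat.strong_induction_on with
  | _ j ih =>
    intro hj l hl
    rcases j with _ | j
    · rw [EP_zero, one_mul]
      rcases l with _ | l
      · rw [EP_zero, Em_one, if_pos rfl]
      · rw [if_neg (by omega)]
        have h := Em_rec (w := w) l (by omega) 1
        rw [mul_one] at h
        have h1 : ∀ i ∈ range (l + 1), (-1 : ℝ) ^ i * Real.sqrt ((i + 1 : ℕ) : ℝ) *
            Em w (EP w (l - i) * (if h : i < w then pderiv ⟨i, h⟩ (1 : MvPolynomial (Fin w) ℝ) else 0)) = 0 := by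
          intro i _
          have h2 : (if h : i < w then pderiv ⟨i, h⟩ (1 : MvPolynomial (Fin w) ℝ) else 0) = 0 := by
            split_ifs
            · exact Derivation.map_one_eq_zero _
            · rfl
          rw [h2, mul_zero, map_zero, mul_zero]
        rw [sum_eq_zero h1] at h
        have h2 : ((l : ℝ) + 1) ≠ 0 := by positivity
        exact (mul_eq_zero.1 h).resolve_left h2
    · have h := Em_rec (w := w) j (by omega) (EP w l)
      have h1 : ∀ i ∈ range (j + 1), (-1 : ℝ) ^ i * Real.sqrt ((i + 1 : ℕ) : ℝ) *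
          Em w (EP w (j - i) * (if h : i < w then pderiv ⟨i, h⟩ (EP w l) else 0)) = if j + 1 = l then 1 else 0 := by
        intro i hi
        have hi' := mem_range.1 hi
        rw [dif_pos (by omega : i < w), pderiv_EP]
        simp only
        by_cases h2 : i + 1 ≤ l
        · rw [if_pos h2]
          have h3 : EP w (j - i) * (C (cx i) * EP w (l - (i + 1))) = C (cx i) * (EP w (j - i) * EP w (l - (i + 1))) := by ring
          rw [h3, Em_C, ih (j - i) (by omega) (by omega) (l - (i + 1)) (by omega), ← mul_assoc, cx_sqrt, one_mul]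
          by_cases h4 : j + 1 = l
          · rw [if_pos h4, if_pos (by omega)]
          · rw [if_neg h4, if_neg (by omega)]
        · rw [if_neg h2, mul_zero, map_zero, mul_zero, if_neg (by omega)]
      rw [sum_congr rfl h1, sum_const, card_range, nsmul_eq_mul] at h
      push_cast at h
      have h2 : ((j : ℝ) + 1) ≠ 0 := by positivity
      exact mul_left_cancel₀ h2 h

lemma int_orth (i j : ℕ) (hi : i ≤ w) (hj : j ≤ w) : ∫ y : Fin w → ℝ, elem (lv y) i * elem (lv y) j ∂(GG w) = if i = j then 1 else 0 := by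
  rw [← Em_orth (w := w) i hi j hj]
  show _ = ∫ y, eval y (EP w i * EP w j) ∂(GG w)
  refine integral_congr_ae (Filter.Eventually.of_forall fun y => ?_)
  simp only
  rw [map_mul, eval_EP, eval_EP]

end H41N.JT
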