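import Pool.Agent.H41N.JT.Lim

/-!
# The sizes
-/

set_option autoImplicit false
set_option linter.unusedSectionVars false

namespace H41N.JT

open Finset

lemma two_mul_le {d k : ℕ} (h : d ∈ k.properDivisors) : 2 * d ≤ k := by
  obtain ⟨⟨q, hq⟩, hlt⟩ := Nat.mem_properDivisors.1 h
  rcases q with _ | _ | q
  · omega
  · omega
  · have : d * (q + 1 + 1) = 2 * d + d * q := by ring
    rw [hq, this]
    exact Nat.le_add_right _ _

/-- the sizes of the sets of the points over the finite fields, and of the sets of the points of exact degree -/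
structure Sizes (r D : ℕ) (C t : ℝ) (w x : ℕ → ℝ) : Prop where
  one : 1 ≤ C
  ht : 1 ≤ t
  hD : 2 ≤ D
  nn : ∀ d, 0 ≤ x d
  sum : ∀ k ∈ Icc 1 r, w k = ∑ d ∈ k.divisors, x d
  size : ∀ k ∈ Icc 1 r, |w k - t ^ (2 * k * D)| ≤ C * (t ^ (2 * k * D) / t)

variable {r D : ℕ} {C t : ℝ} {w x : ℕ → ℝ}

lemma Sizes.w_le (h : Sizes r D C t w x) {k : ℕ} (hk : k ∈ Icc 1 r) : w k ≤ (1 + C) * t ^ (2 * k * D) := by
  have h1 := (abs_le.1 (h.size k hk)).2
  have ht := h.ht
  have ht0 : 0 < t := by linarith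
  have h2 : t ^ (2 * k * D) / t ≤ t ^ (2 * k * D) := div_le_self (by positivity) ht
  have := mul_le_mul_of_nonneg_left h2 (by linarith [h.one] : 0 ≤ C)
  linarith

lemma Sizes.x_le (h : Sizes r D C t w x) {d : ℕ} (hd : d ∈ Icc 1 r) : x d ≤ (1 + C) * t ^ (2 * d * D) := by
  refine le_trans ?_ (h.w_le hd)
  rw [h.sum d hd]
  exact single_le_sum (f := x) (fun i _ => h.nn i) (Nat.mem_divisors_self d (by have := (mem_Icc.1 hd).1; omega))

lemma card_proper (k : ℕ) (hk : k ∈ Icc 1 r) : (k.properDivisors.card : ℝ) ≤ r := by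
  have h4 : k.properDivisors.card ≤ k := by
    refine (card_le_card (t := range k) fun d hd => mem_range.2 (Nat.mem_properDivisors.1 hd).2).trans ?_
    rw [card_range]
  exact_mod_cast h4.trans (mem_Icc.1 hk).2

lemma proper_mem {k d : ℕ} (hk : k ∈ Icc 1 r) (hd : d ∈ k.properDivisors) : d ∈ Icc 1 r := by
  have h1 := Nat.pos_of_mem_properDivisors hd
  have h2 := (Nat.mem_properDivisors.1 hd).2
  have h3 := (mem_Icc.1 hk).2
  rw [mem_Icc]
  omega

lemma sum_dvs (k : ℕ) (hk : k ≠ 0) (f : ℕ → ℝ) : ∑ d ∈ k.divisors, f d = f k + ∑ d ∈ k.properDivisors, f d := by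
  rw [← Nat.cons_self_properDivisors hk, sum_cons]

lemma Sizes.x_near (h : Sizes r D C t w x) {d : ℕ} (hd : d ∈ Icc 1 r) : |x d / t ^ (2 * d * D) - 1| ≤ (C + r * (1 + C)) / t := by
  have ht := h.ht
  have hC := h.one
  have ht0 : 0 < t := by linarith
  have hd1 := (mem_Icc.1 hd).1
  have hp : 0 < t ^ (2 * d * D) := by positivity
  have hdiv : x d / t ^ (2 * d * D) - 1 = (x d - t ^ (2 * d * D)) / t ^ (2 * d * D) := by field_simp
  rw [hdiv, abs_div, abs_of_pos hp, div_le_iff₀ hp]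
  have h1 : w d = x d + ∑ e ∈ d.properDivisors, x e := by
    rw [h.sum d hd, sum_dvs d (by omega)]
  have h2 : ∑ e ∈ d.properDivisors, x e ≤ r * ((1 + C) * (t ^ (2 * d * D) / t)) := by
    have h3 : ∀ e ∈ d.properDivisors, x e ≤ (1 + C) * (t ^ (2 * d * D) / t) := by
      intro e he
      refine (h.x_le (proper_mem hd he)).trans (mul_le_mul_of_nonneg_left ?_ (by linarith))
      rw [le_div_iff₀ ht0, ← pow_succ]
      refine pow_le_pow_right₀ ht ?_
      have h4 := two_mul_le he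
      have h5 : 2 * e * D ≤ d * D := Nat.mul_le_mul_right _ h4
      have h6 : 1 ≤ d * D := Nat.mul_pos hd1 (by have := h.hD; omega)
      have h7 : 2 * d * D = d * D + d * D := by ring
      omega
    refine (sum_le_sum h3).trans ?_
    rw [sum_const, nsmul_eq_mul]
    exact mul_le_mul_of_nonneg_right (card_proper d hd) (by positivity)
  have h3 : 0 ≤ ∑ e ∈ d.properDivisors, x e := sum_nonneg fun e _ => h.nn e
  have h4 := abs_le.1 (h.size d hd)
  have h5 : (C + r * (1 + C)) / t * t ^ (2 * d * D) = C * (t ^ (2 * d * D) / t) + r * ((1 + C) * (t ^ (2 * d * D) / t)) := by ring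
  have h6 : 0 ≤ (r : ℝ) * ((1 + C) * (t ^ (2 * d * D) / t)) := by positivity
  rw [h5, abs_le]
  constructor <;> linarith [h4.1, h4.2]

lemma sum_eta (k : ℕ) (hk : k ≠ 0) : ∑ d ∈ k.properDivisors, (if 2 * d = k then (1 : ℝ) else 0) = eta k := by
  unfold eta
  split_ifs with h
  · obtain ⟨m, hm⟩ := h
    rw [sum_eq_single m]
    · rw [if_pos (by omega)]
    · intro d _ hd
      rw [if_neg (by omega)]
    · intro hm'
      exact absurd (Nat.mem_properDivisors.2 ⟨⟨2, by omega⟩, by omega⟩) hm'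
  · refine sum_eq_zero fun d _ => if_neg fun h' => h ⟨d, by omega⟩

/-- **The centre.** -/
lemma Sizes.centre (h : Sizes r D C t w x) {k : ℕ} (hk : k ∈ Icc 1 r) (B c : ℝ)
    (hc : |B + w k / t ^ (2 * k) - c| ≤ C * (t ^ (k * (D - 1)) / t)) :
    |(B + ∑ d ∈ k.divisors, x d / t ^ (2 * d) - c) / t ^ (k * (D - 1)) - eta k| ≤ (C + r * (2 * (C + r * (1 + C)) + 1 + C)) / t := by
  have ht := h.ht
  have hC := h.one
  have hD := h.hD
  have ht0 : 0 < t := by linarith
  have hk1 := (mem_Icc.1 hk).1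
  have hp : 0 < t ^ (k * (D - 1)) := by positivity
  obtain ⟨T, hT⟩ : ∃ T : ℕ → ℝ, T = fun d => x d * (1 / t ^ (2 * d) - 1 / t ^ (2 * k)) / t ^ (k * (D - 1)) := ⟨_, rfl⟩
  have h1 : (B + ∑ d ∈ k.divisors, x d / t ^ (2 * d) - c) / t ^ (k * (D - 1)) - eta k =
      (B + w k / t ^ (2 * k) - c) / t ^ (k * (D - 1)) + ∑ d ∈ k.properDivisors, (T d - if 2 * d = k then (1 : ℝ) else 0) := by
    have h2 : ∑ d ∈ k.properDivisors, x d * (1 / t ^ (2 * d) - 1 / t ^ (2 * k)) =
        ∑ d ∈ k.properDivisors, x d / t ^ (2 * d) - (∑ d ∈ k.properDivisors, x d) / t ^ (2 * k) := by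
      rw [Finset.sum_div, ← sum_sub_distrib]
      exact sum_congr rfl fun d _ => by ring
    rw [sum_sub_distrib, sum_eta k (by omega), h.sum k hk, sum_dvs k (by omega), sum_dvs k (by omega) x, hT]
    dsimp only
    rw [← Finset.sum_div, h2]
    ring
  rw [h1]
  have h2 : |(B + w k / t ^ (2 * k) - c) / t ^ (k * (D - 1))| ≤ C / t := by
    rw [abs_div, abs_of_pos hp, div_le_iff₀ hp]
    refine hc.trans (le_of_eq ?_)
    ring
  have h3 : ∀ d ∈ k.properDivisors, |T d - if 2 * d = k then (1 : ℝ) else 0| ≤ (2 * (C + r * (1 + C)) + 1 + C) / t := by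
    intro d hd
    have hdr := proper_mem hk hd
    have hd1 := (mem_Icc.1 hdr).1
    have h4 := two_mul_le hd
    have hlt := (Nat.mem_properDivisors.1 hd).2
    have h5 : 0 ≤ 1 / t ^ (2 * d) - 1 / t ^ (2 * k) := by
      rw [sub_nonneg]
      exact one_div_le_one_div_of_le (by positivity) (pow_le_pow_right₀ ht (by omega))
    have hr0 : (0 : ℝ) ≤ r := Nat.cast_nonneg r
    have hrC : 0 ≤ r * (1 + C) := by positivity
    split_ifs with h2d
    · -- the main term
      subst h2d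
      obtain ⟨y, hy⟩ : ∃ y : ℝ, y = x d / t ^ (2 * d * D) := ⟨_, rfl⟩
      have hyn := h.x_near hdr
      rw [← hy] at hyn
      have hy0 : 0 ≤ y := by
        rw [hy]
        exact div_nonneg (h.nn d) (by positivity)
      have e1 : T d = y - y * (1 / t ^ (2 * d)) := by
        rw [hT, hy]
        dsimp only
        have e2 : t ^ (2 * d * D) = t ^ (2 * d) * t ^ (2 * d * (D - 1)) := by
          rw [← pow_add]
          congr 1
          obtain ⟨D', rfl⟩ : ∃ D', D = D' + 1 := ⟨D - 1, by omega⟩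
          rw [Nat.add_sub_cancel]
          ring
        have e3 : t ^ (2 * (2 * d)) = t ^ (2 * d) * t ^ (2 * d) := by
          rw [← pow_add]
          congr 1
          ring
        rw [e2, e3]
        field_simp
      have h6 : y * (1 / t ^ (2 * d)) ≤ (1 + C) / t := by
        have h7 : y ≤ 1 + C := by
          rw [hy, div_le_iff₀ (by positivity)]
          exact h.x_le hdr
        have h8 : 1 / t ^ (2 * d) ≤ 1 / t := one_div_le_one_div_of_le ht0 (le_self_pow₀ ht (by omega))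
        calc y * (1 / t ^ (2 * d)) ≤ (1 + C) * (1 / t) := mul_le_mul h7 h8 (by positivity) (by linarith)
          _ = _ := by ring
      have h7 : 0 ≤ y * (1 / t ^ (2 * d)) := by positivity
      have h8 : (2 * (C + r * (1 + C)) + 1 + C) / t = (C + r * (1 + C)) / t + (C + r * (1 + C)) / t + (1 + C) / t := by ring
      have h9 : 0 ≤ (C + r * (1 + C)) / t := by positivity
      rw [e1, h8]
      rw [abs_le] at hyn ⊢
      constructor <;> linarith [hyn.1, hyn.2]
    · have h6 : 2 * d + 1 ≤ k := by omega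
      rw [sub_zero, hT]
      dsimp only
      rw [abs_of_nonneg (div_nonneg (mul_nonneg (h.nn d) h5) hp.le), div_le_iff₀ hp]
      have h7 : x d * (1 / t ^ (2 * d) - 1 / t ^ (2 * k)) ≤ (1 + C) * t ^ (2 * d * D) * (1 / t ^ (2 * d)) := by
        refine mul_le_mul (h.x_le hdr) ?_ h5 (by positivity)
        have : 0 ≤ 1 / t ^ (2 * k) := by positivity
        linarith
      have e2 : t ^ (2 * d * D) = t ^ (2 * d * (D - 1)) * t ^ (2 * d) := by
        rw [← pow_add]
        congr 1
        obtain ⟨D', rfl⟩ : ∃ D', D = D' + 1 := ⟨D - 1, by omega⟩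
        rw [Nat.add_sub_cancel]
        ring
      have h8 : (1 + C) * t ^ (2 * d * D) * (1 / t ^ (2 * d)) = (1 + C) * t ^ (2 * d * (D - 1)) := by
        rw [e2]
        field_simp
      have h9 : t ^ (2 * d * (D - 1)) ≤ t ^ (k * (D - 1)) / t := by
        rw [le_div_iff₀ ht0, ← pow_succ]
        refine pow_le_pow_right₀ ht ?_
        have h10 : (2 * d + 1) * (D - 1) ≤ k * (D - 1) := Nat.mul_le_mul_right _ h6
        have h11 : (2 * d + 1) * (D - 1) = 2 * d * (D - 1) + (D - 1) := by ring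
        omega
      calc x d * (1 / t ^ (2 * d) - 1 / t ^ (2 * k)) ≤ (1 + C) * t ^ (2 * d * (D - 1)) := by rw [← h8]; exact h7
        _ ≤ (1 + C) * (t ^ (k * (D - 1)) / t) := mul_le_mul_of_nonneg_left h9 (by linarith)
        _ = (1 + C) / t * t ^ (k * (D - 1)) := by ring
        _ ≤ (2 * (C + r * (1 + C)) + 1 + C) / t * t ^ (k * (D - 1)) := by
          refine mul_le_mul_of_nonneg_right (div_le_div_of_nonneg_right ?_ ht0.le) hp.le
          linarith
  refine (abs_add_le _ _).trans ?_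
  have h4 : |∑ d ∈ k.properDivisors, (T d - if 2 * d = k then (1 : ℝ) else 0)| ≤ r * ((2 * (C + r * (1 + C)) + 1 + C) / t) := by
    refine (abs_sum_le_sum_abs _ _).trans ((sum_le_sum h3).trans ?_)
    rw [sum_const, nsmul_eq_mul]
    exact mul_le_mul_of_nonneg_right (card_proper k hk) (by positivity)
  have h5 : (C + r * (2 * (C + r * (1 + C)) + 1 + C)) / t = C / t + r * ((2 * (C + r * (1 + C)) + 1 + C) / t) := by ring
  rw [h5]
  linarith

/-- the coefficients -/
noncomputable def lam (D : ℕ) (t : ℝ) (k d : ℕ) : ℝ := d * t ^ (d * (D - 1)) / t ^ (k * (D - 1))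

lemma lam_self (D : ℕ) (t : ℝ) (ht : 0 < t) (k : ℕ) : lam D t k k = k := by
  unfold lam
  rw [mul_div_assoc, div_self (by positivity), mul_one]

lemma lam_le (D : ℕ) (hD : 2 ≤ D) (t : ℝ) (ht : 1 ≤ t) {k d : ℕ} (hk : k ∈ Icc 1 r) (hd : d ∈ k.properDivisors) : |lam D t k d| ≤ r / t := by
  have ht0 : 0 < t := by linarith
  have h2 := (Nat.mem_properDivisors.1 hd).2
  unfold lam
  rw [abs_of_nonneg (by positivity), div_le_iff₀ (by positivity)]
  have h1 : t ^ (d * (D - 1)) ≤ t ^ (k * (D - 1)) / t := by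
    rw [le_div_iff₀ ht0, ← pow_succ]
    refine pow_le_pow_right₀ ht ?_
    have h3 : (d + 1) * (D - 1) ≤ k * (D - 1) := Nat.mul_le_mul_right _ h2
    have h4 : (d + 1) * (D - 1) = d * (D - 1) + (D - 1) := by ring
    omega
  have h3 : (d : ℝ) ≤ r := by exact_mod_cast (mem_Icc.1 (proper_mem hk hd)).2
  calc (d : ℝ) * t ^ (d * (D - 1)) ≤ r * (t ^ (k * (D - 1)) / t) := mul_le_mul h3 h1 (by positivity) (Nat.cast_nonneg _)
    _ = _ := by ring

end H41N.JT
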