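import Pool.Agent.Q282.CL.Abs

/-!
# Joint moments of sums of functions of values which are independent in small numbers
-/

set_option autoImplicit false
set_option linter.unusedSectionVars false

namespace H41N.JT

open Finset
open Q282.CL

/-- averages and surjective homomorphisms -/
lemma av_hom' {A B : Type} [AddGroup A] [AddGroup B] [Fintype A] [Fintype B] [DecidableEq B] (φ : A →+ B) (hφ : Function.Surjective φ)
    (G : B → ℝ) : av (fun a => G (φ a)) = av G := by
  classical
  obtain ⟨m, hm⟩ : ∃ m : ℕ, ∀ b : B, (univ.filter fun a => φ a = b).card = m :=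
    ⟨(univ.filter fun a => φ a = 0).card, fun b => AddMonoidHom.card_fiber_eq_of_mem_range φ (hφ b) (hφ 0)⟩
  have hA : (Fintype.card A : ℝ) = m * Fintype.card B := by
    have h1 : Fintype.card A = ∑ b : B, (univ.filter fun a => φ a = b).card := by
      rw [← card_univ]
      exact card_eq_sum_card_fiberwise fun a _ => mem_univ (φ a)
    rw [h1, sum_congr rfl fun b _ => hm b, sum_const, card_univ, smul_eq_mul]
    push_cast
    ring
  have hm0 : (m : ℝ) ≠ 0 := by
    intro h0
    rw [h0, zero_mul] at hA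
    have : Fintype.card A ≠ 0 := Fintype.card_ne_zero
    exact this (by exact_mod_cast hA)
  have hB0 : (Fintype.card B : ℝ) ≠ 0 := by exact_mod_cast Fintype.card_ne_zero
  have h2 : ∑ a, G (φ a) = m * ∑ b, G b := by
    rw [← sum_fiberwise_of_maps_to (s := univ) (t := univ) (g := φ) fun a _ => mem_univ _, mul_sum]
    refine sum_congr rfl fun b _ => ?_
    rw [sum_congr rfl fun a ha => by rw [(mem_filter.1 ha).2], sum_const, nsmul_eq_mul, hm]
  unfold av
  rw [h2, hA]
  field_simp

variable {V K ι : Type} [AddCommGroup K] [Fintype K] [Fintype ι] [DecidableEq ι] {B : ι → Type} [∀ i, AddCommGroup (B i)] [∀ i, Fintype (B i)]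
  [∀ i, DecidableEq (B i)]

/-- any values at points of total weight at most `m` are possible -/
def JSep (e : ∀ i, V → K →+ B i) (A : ι → Finset V) (wt : ι → ℕ) (m : ℕ) : Prop :=
  ∀ S : ι → Finset V, (∀ i, S i ⊆ A i) → ∑ i, wt i * (S i).card ≤ m → ∀ z : ∀ i, V → B i, ∃ c : K, ∀ i, ∀ t ∈ S i, e i t c = z i t

/-- the sum over the points -/
noncomputable def smi (e : ∀ i, V → K →+ B i) (A : ι → Finset V) (ψ : ∀ i, V → B i → ℝ) (i : ι) (c : K) : ℝ := ∑ t ∈ A i, ψ i t (e i t c)

/-- **The joint moments factor.** -/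
theorem av_joint {e : ∀ i, V → K →+ B i} {A : ι → Finset V} {wt : ι → ℕ} {m : ℕ} (h : JSep e A wt m) (a : ι → ℕ) (ha : ∑ i, wt i * a i ≤ m)
    (ψ : ∀ i, V → B i → ℝ) : av (fun c : K => ∏ i, smi e A ψ i c ^ a i) = ∏ i, av (fun c : K => smi e A ψ i c ^ a i) := by
  classical
  have hexp : ∀ i (c : K), smi e A ψ i c ^ a i = ∑ b ∈ Fintype.piFinset fun _ : Fin (a i) => A i, ∏ j, ψ i (b j) (e i (b j) c) := by
    intro i c
    have h2 := prod_univ_sum (fun _ : Fin (a i) => A i) (fun _ t => ψ i t (e i t c))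
    rw [prod_const, card_univ, Fintype.card_fin] at h2
    unfold smi
    rw [h2]
  have h1 : (fun c : K => ∏ i, smi e A ψ i c ^ a i) = fun c => ∑ b ∈ Fintype.piFinset fun i => Fintype.piFinset fun _ : Fin (a i) => A i,
      ∏ i, ∏ j, ψ i (b i j) (e i (b i j) c) := by
    funext c
    rw [prod_congr rfl fun i _ => hexp i c]
    exact prod_univ_sum (fun i => Fintype.piFinset fun _ : Fin (a i) => A i) (fun i b => ∏ j, ψ i (b j) (e i (b j) c))
  have h2 : ∀ i, av (fun c : K => smi e A ψ i c ^ a i) =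
      ∑ b ∈ Fintype.piFinset fun _ : Fin (a i) => A i, av (fun c : K => ∏ j, ψ i (b j) (e i (b j) c)) := by
    intro i
    rw [← av_sum]
    exact congrArg av (funext fun c => hexp i c)
  rw [h1, av_sum, prod_congr rfl fun i _ => h2 i, prod_univ_sum]
  refine sum_congr rfl fun b hb => ?_
  rw [Fintype.mem_piFinset] at hb
  have hb' : ∀ i j, b i j ∈ A i := fun i j => (Fintype.mem_piFinset.1 (hb i)) j
  -- the values
  obtain ⟨S, hS⟩ : ∃ S : ι → Finset V, S = fun i => univ.image (b i) := ⟨_, rfl⟩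
  have hSA : ∀ i, S i ⊆ A i := by
    intro i t ht
    rw [hS, mem_image] at ht
    obtain ⟨j, _, rfl⟩ := ht
    exact hb' i j
  have hSc : ∑ i, wt i * (S i).card ≤ m := by
    refine le_trans (sum_le_sum fun i _ => Nat.mul_le_mul_left _ ?_) ha
    rw [hS]
    exact card_image_le.trans (by rw [card_univ, Fintype.card_fin])
  have hbS : ∀ i j, b i j ∈ S i := fun i j => by
    rw [hS]
    exact mem_image_of_mem _ (mem_univ j)
  obtain ⟨φ, hφ⟩ : ∃ φ : K →+ (∀ i, S i → B i), ∀ c i t, φ c i t = e i t c :=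
    ⟨{ toFun := fun c i t => e i t c, map_zero' := by funext i t; simp, map_add' := fun a b => by funext i t; simp }, fun _ _ _ => rfl⟩
  have hsurj : Function.Surjective φ := by
    intro z
    obtain ⟨c, hc⟩ := h S hSA hSc fun i t => if h : t ∈ S i then z i ⟨t, h⟩ else 0
    refine ⟨c, ?_⟩
    funext i t
    rw [hφ, hc i t t.2, dif_pos t.2]
  obtain ⟨Y, hY⟩ : ∃ Y : ∀ i, (S i → B i) → ℝ, Y = fun i ω => ∏ j, ψ i (b i j) (ω ⟨b i j, hbS i j⟩) := ⟨_, rfl⟩
  have h3 : (fun c : K => ∏ i, ∏ j, ψ i (b i j) (e i (b i j) c)) = fun c => (fun ω : ∀ i, S i → B i => ∏ i, Y i (ω i)) (φ c) := by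
    funext c
    refine prod_congr rfl fun i _ => ?_
    rw [hY]
    exact prod_congr rfl fun j _ => by rw [hφ]
  rw [h3, av_hom' φ hsurj (fun ω : ∀ i, S i → B i => ∏ i, Y i (ω i)), av_pi Y]
  refine prod_congr rfl fun i _ => ?_
  obtain ⟨φi, hφi⟩ : ∃ φi : K →+ (S i → B i), ∀ c, φi c = φ c i :=
    ⟨{ toFun := fun c => φ c i, map_zero' := by rw [map_zero]; rfl, map_add' := fun a b => by rw [map_add]; rfl }, fun _ => rfl⟩
  have hsi : Function.Surjective φi := by
    intro z
    obtain ⟨c, hc⟩ := hsurj (Function.update 0 i z)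
    exact ⟨c, by rw [hφi, hc, Function.update_self]⟩
  rw [← av_hom' φi hsi (Y i)]
  refine congrArg av (funext fun c => ?_)
  rw [hY, hφi]
  exact prod_congr rfl fun j _ => by rw [hφ]

end H41N.JT
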