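import Mathlib

/-!
# Representatives of the orbits of a map all of whose points have the same period
-/

set_option autoImplicit false

namespace H41N.JT

open Finset Function

/-- Representatives of the orbits. -/
lemma exists_reps {V : Type*} [DecidableEq V] (Φ : V → V) (d : ℕ) (hd : 0 < d) (E : Finset V)
    (hE : ∀ v ∈ E, Φ v ∈ E) (hp : ∀ v ∈ E, minimalPeriod Φ v = d) :
    ∃ A ⊆ E, (∀ f : V → ℝ, (∀ v ∈ E, f (Φ v) = f v) → ∑ v ∈ E, f v = d * ∑ u ∈ A, f u) ∧
      ∀ u ∈ A, ∀ u' ∈ A, ∀ i, Φ^[i] u = u' → u = u' := by
  induction hn : E.card using Nat.strong_induction_on generalizing E with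
  | _ N ih =>
    rcases E.eq_empty_or_nonempty with rfl | ⟨u, hu⟩
    · exact ⟨∅, subset_rfl, fun f _ => by simp, fun u hu => absurd hu (notMem_empty u)⟩
    · have hitE : ∀ i, ∀ v ∈ E, Φ^[i] v ∈ E := by
        intro i
        induction i with
        | zero => exact fun v hv => hv
        | succ i ih => exact fun v hv => by rw [iterate_succ_apply]; exact ih _ (hE v hv)
      have hper : ∀ v ∈ E, Φ^[d] v = v := fun v hv => by
        have := iterate_minimalPeriod (f := Φ) (x := v)
        rwa [hp v hv] at this
      obtain ⟨O, hO⟩ : ∃ O : Finset V, O = (range d).image fun i => Φ^[i] u := ⟨_, rfl⟩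
      have hinj : Set.InjOn (fun i => Φ^[i] u) (range d : Set ℕ) := by
        intro i hi j hj hij
        rw [mem_coe, mem_range] at hi hj
        have h1 := iterate_injOn_Iio_minimalPeriod (f := Φ) (x := u)
        rw [hp u hu] at h1
        exact h1 hi hj hij
      have hOE : O ⊆ E := by
        intro v hv
        rw [hO, mem_image] at hv
        obtain ⟨i, _, rfl⟩ := hv
        exact hitE i u hu
      have hOcl : ∀ i, Φ^[i] u ∈ O := by
        intro i
        rw [hO, mem_image]
        refine ⟨i % d, mem_range.2 (Nat.mod_lt _ hd), ?_⟩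
        have h1 := iterate_mod_minimalPeriod_eq (f := Φ) (x := u) (n := i)
        rwa [hp u hu] at h1
      have huO : u ∈ O := hOcl 0
      obtain ⟨E', hE'⟩ : ∃ E' : Finset V, E' = E \ O := ⟨_, rfl⟩
      have hE'E : E' ⊆ E := by rw [hE']; exact sdiff_subset
      have hE'cl : ∀ v ∈ E', Φ v ∈ E' := by
        intro v hv
        rw [hE', mem_sdiff] at hv ⊢
        refine ⟨hE v hv.1, fun h => hv.2 ?_⟩
        have h1 : v = Φ^[d - 1] (Φ v) := by
          rw [← iterate_succ_apply, show (d - 1).succ = d by omega, hper v hv.1]
        rw [hO, mem_image] at h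
        obtain ⟨i, _, hi⟩ := h
        rw [h1, ← hi, ← iterate_add_apply]
        exact hOcl _
      have hcard : E'.card < N := by
        rw [← hn]
        refine card_lt_card ⟨hE'E, fun h => ?_⟩
        have h1 := h hu
        rw [hE', mem_sdiff] at h1
        exact h1.2 huO
      obtain ⟨A', hA'E, hA'1, hA'2⟩ := ih _ hcard E' hE'cl (fun v hv => hp v (hE'E hv)) rfl
      have huA' : u ∉ A' := fun h => by
        have h1 := hA'E h
        rw [hE', mem_sdiff] at h1
        exact h1.2 huO
      have hit' : ∀ i, ∀ v ∈ E', Φ^[i] v ∈ E' := by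
        intro i
        induction i with
        | zero => exact fun v hv => hv
        | succ i ih => exact fun v hv => by rw [iterate_succ_apply]; exact ih _ (hE'cl v hv)
      refine ⟨insert u A', insert_subset hu (hA'E.trans hE'E), fun f hf => ?_, ?_⟩
      · have h1 : ∑ v ∈ E, f v = ∑ v ∈ E', f v + ∑ v ∈ O, f v := by
          rw [hE', sum_sdiff hOE]
        have hfi : ∀ i, f (Φ^[i] u) = f u := by
          intro i
          induction i with
          | zero => rfl
          | succ i ih => rw [iterate_succ_apply', hf _ (hitE i u hu), ih]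
        have h2 : ∑ v ∈ O, f v = d * f u := by
          rw [hO, sum_image hinj, sum_congr rfl fun i _ => hfi i, sum_const, card_range, nsmul_eq_mul]
        rw [h1, hA'1 f (fun v hv => hf v (hE'E hv)), h2, sum_insert huA']
        ring
      · intro v hv v' hv' i hi
        rw [mem_insert] at hv hv'
        rcases hv with rfl | hv <;> rcases hv' with rfl | hv'
        · rfl
        · have h1 := hA'E hv'
          rw [hE', mem_sdiff] at h1
          exact absurd (hi ▸ hOcl i) h1.2
        · have h1 := hit' i v (hA'E hv)
          rw [hi, hE', mem_sdiff] at h1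
          exact absurd huO h1.2
        · exact hA'2 v hv v' hv' i hi

end H41N.JT
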