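import Pool.Agent.H41N.JT.Sur
import Pool.Agent.H41N.JT.Orb
import Pool.Agent.H41N.JT.Joint

/-!
# The values of the members of a linear system at the closed points
-/

set_option autoImplicit false
set_option linter.unusedSectionVars false

namespace H41N.JT

open Finset Function MvPolynomial
open Pool.Agent.Y722.HS (Mon mev)
open scoped LinearAlgebra.Projectivization

/-- the indices of the coefficients -/
abbrev Idx {J : Type} (n : ℕ) (dg : J → ℕ) : Type := Σ j : J, Mon n (dg j)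

variable {n : ℕ} {J : Type} [Fintype J] {dg : J → ℕ} (g : J → MvPolynomial (Fin (n + 1)) ℤ) (W : Set (MvPolynomial (Fin (n + 1)) ℤ))

section

variable (p : ℕ)

/-- the value of `∑_j g_j h_j` at `v` -/
noncomputable def evL {K : Type*} [Field K] [Algebra (ZMod p) K] (v : Fin (n + 1) → K) (c : Idx n dg → ZMod p) : K :=
  ∑ j, aeval v (g j) * ∑ ν : Mon n (dg j), algebraMap (ZMod p) K (c ⟨j, ν⟩) * mev v ν

lemma evL_add {K : Type*} [Field K] [Algebra (ZMod p) K] (v : Fin (n + 1) → K) (a b : Idx n dg → ZMod p) :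
    evL g p v (a + b) = evL g p v a + evL g p v b := by
  unfold evL
  simp only [Pi.add_apply, map_add, add_mul, sum_add_distrib, mul_add]

lemma evL_zero {K : Type*} [Field K] [Algebra (ZMod p) K] (v : Fin (n + 1) → K) : evL g p v (0 : Idx n dg → ZMod p) = 0 := by
  unfold evL
  simp

lemma evL_map {K L : Type*} [Field K] [Algebra (ZMod p) K] [Field L] [Algebra (ZMod p) L] (f : K →+* L) (v : Fin (n + 1) → K)
    (c : Idx n dg → ZMod p) : evL g p (fun i => f (v i)) c = f (evL g p v c) := by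
  unfold evL
  rw [map_sum]
  refine sum_congr rfl fun j _ => ?_
  rw [map_mul, map_sum, aeval_comp f v (g j)]
  congr 1
  refine sum_congr rfl fun ν _ => ?_
  rw [map_mul]
  congr 1
  · exact (RingHom.congr_fun (Subsingleton.elim (f.comp (algebraMap (ZMod p) K)) (algebraMap (ZMod p) L)) _).symm
  · unfold mev
    rw [map_prod]
    exact prod_congr rfl fun i _ => by rw [map_pow]

lemma evL_smul {K : Type*} [Field K] [Algebra (ZMod p) K] {e : J → ℕ} (hg : ∀ j, (g j).IsHomogeneous (e j)) {δ : ℕ} (hδ : ∀ j, e j + dg j = δ)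
    (a : K) (v : Fin (n + 1) → K) (c : Idx n dg → ZMod p) : evL g p (a • v) c = a ^ δ * evL g p v c := by
  unfold evL
  rw [mul_sum]
  refine sum_congr rfl fun j _ => ?_
  have h1 : ∀ ν : Mon n (dg j), mev (a • v) ν = a ^ dg j * mev v ν := by
    intro ν
    unfold mev
    have h2 : a ^ dg j = ∏ i, a ^ (ν.1 i : ℕ) := by
      rw [prod_pow_eq_pow_sum, ν.2]
    rw [h2, ← prod_mul_distrib]
    exact prod_congr rfl fun i _ => by rw [Pi.smul_apply, smul_eq_mul, mul_pow]
  rw [aeval_smul' (g j) (e j) (hg j) a v, ← hδ j, pow_add]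
  have h3 : ∑ ν : Mon n (dg j), algebraMap (ZMod p) K (c ⟨j, ν⟩) * mev (a • v) ν = a ^ dg j * ∑ ν : Mon n (dg j), algebraMap (ZMod p) K (c ⟨j, ν⟩) * mev v ν := by
    rw [mul_sum]
    exact sum_congr rfl fun ν _ => by rw [h1]; ring
  rw [h3]
  ring

/-- vanishing on the base locus -/
lemma evL_base {K : Type*} [Field K] [Algebra (ZMod p) K] (v : Fin (n + 1) → K) (c : Idx n dg → ZMod p) (h : ∀ j, aeval v (g j) = 0) :
    evL g p v c = 0 := by
  unfold evL
  exact sum_eq_zero fun j _ => by rw [h j, zero_mul]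

end

section

variable (p : ℕ) [hp : Fact p.Prime] {M : ℕ}

lemma Fr_comp (k : ℕ) (v : Fin (n + 1) → GaloisField p M) : (Fr p)^[k] v = fun i => iterateFrobenius (GaloisField p M) p k (v i) := by
  rw [Fr_iter]
  funext i
  rw [iterateFrobenius_def]

lemma evL_Fr (k : ℕ) (v : Fin (n + 1) → GaloisField p M) (c : Idx n dg → ZMod p) : evL g p ((Fr p)^[k] v) c = evL g p v c ^ p ^ k := by
  rw [Fr_comp, evL_map, iterateFrobenius_def]

lemma aeval_Fr (k : ℕ) (v : Fin (n + 1) → GaloisField p M) (G : MvPolynomial (Fin (n + 1)) ℤ) : aeval ((Fr p)^[k] v) G = aeval v G ^ p ^ k := by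
  rw [Fr_comp, aeval_comp, iterateFrobenius_def]

/-- the subfield with `p ^ k` elements, as an additive group -/
def BB (p : ℕ) [Fact p.Prime] (M k : ℕ) : AddSubgroup (GaloisField p M) where
  carrier := {x | x ^ p ^ k = x}
  add_mem' := by
    intro a b ha hb
    show (a + b) ^ p ^ k = a + b
    have h := map_add (iterateFrobenius (GaloisField p M) p k) a b
    rw [iterateFrobenius_def, iterateFrobenius_def, iterateFrobenius_def] at h
    rw [h, ha, hb]
  zero_mem' := by
    show (0 : GaloisField p M) ^ p ^ k = 0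
    exact zero_pow (pow_ne_zero _ (Fact.out : p.Prime).ne_zero)
  neg_mem' := by
    intro a ha
    show (-a) ^ p ^ k = -a
    have h := map_neg (iterateFrobenius (GaloisField p M) p k) a
    rw [iterateFrobenius_def, iterateFrobenius_def] at h
    rw [h, ha]

lemma mem_BB (k : ℕ) (x : GaloisField p M) : x ∈ BB p M k ↔ x ^ p ^ k = x := Iff.rfl

noncomputable instance (k : ℕ) : Fintype (BB p M k) := Fintype.ofFinite _

noncomputable instance (k : ℕ) : DecidableEq (BB p M k) := Classical.decEq _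

lemma card_BB {k : ℕ} (hk : k ≠ 0) (hM : M ≠ 0) (hkM : k ∣ M) : Fintype.card (BB p M k) = p ^ k := by
  rw [← card_fix p hk hM hkM, ← Nat.card_eq_fintype_card]
  rfl

open Classical in
/-- the value at a point of degree `k`, as a homomorphism -/
noncomputable def eH (M k : ℕ) (v : Fin (n + 1) → GaloisField p M) : (Idx n dg → ZMod p) →+ BB p M k :=
  if h : (Fr p)^[k] v = v then
    { toFun := fun c => ⟨evL g p v c, by rw [mem_BB, ← evL_Fr, h]⟩
      map_zero' := Subtype.ext (evL_zero g p v)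
      map_add' := fun a b => Subtype.ext (evL_add g p v a b) }
  else 0

lemma eH_coe (k : ℕ) (v : Fin (n + 1) → GaloisField p M) (h : (Fr p)^[k] v = v) (c : Idx n dg → ZMod p) :
    ((eH (dg := dg) g p M k v c : BB p M k) : GaloisField p M) = evL g p v c := by
  unfold eH
  rw [dif_pos h]
  rfl

/-- a normalised point of `W` outside the base locus -/
def Pt (v : Fin (n + 1) → GaloisField p M) : Prop := Nrm v ∧ Zr W v ∧ ∃ j, aeval v (g j) ≠ 0

open Classical in
/-- the points of exact degree `k` -/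
noncomputable def EEs (M k : ℕ) : Finset (Fin (n + 1) → GaloisField p M) :=
  haveI : Fintype (Fin (n + 1) → GaloisField p M) := Fintype.ofFinite _
  univ.filter fun v => Pt g W p v ∧ minimalPeriod (Fr p) v = k

lemma mem_EEs {k : ℕ} {v : Fin (n + 1) → GaloisField p M} : v ∈ EEs g W p M k ↔ Pt g W p v ∧ minimalPeriod (Fr p) v = k := by
  classical
  unfold EEs
  rw [mem_filter]
  exact ⟨fun h => h.2, fun h => ⟨@mem_univ _ (_) _, h⟩⟩

lemma Pt_Fr {v : Fin (n + 1) → GaloisField p M} (h : Pt g W p v) : Pt g W p (Fr p v) := by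
  obtain ⟨⟨i, hi, hi'⟩, h2, j, hj⟩ := h
  have ha : ∀ G : MvPolynomial (Fin (n + 1)) ℤ, aeval (Fr p v) G = aeval v G ^ p := by
    intro G
    have := aeval_Fr p 1 v G
    rwa [iterate_one, pow_one] at this
  refine ⟨⟨i, ?_, fun l hl => ?_⟩, fun G hG => ?_, j, ?_⟩
  · show v i ^ p = 1
    rw [hi, one_pow]
  · show v l ^ p = 0
    rw [hi' l hl, zero_pow hp.out.ne_zero]
  · rw [ha, h2 G hG, zero_pow hp.out.ne_zero]
  · rw [ha]
    exact pow_ne_zero _ hj

lemma per_pts (hM : M ≠ 0) (v : Fin (n + 1) → GaloisField p M) : v ∈ periodicPts (Fr p) :=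
  ⟨M, Nat.pos_of_ne_zero hM, by
    have := Fr_mul_M p hM 1 v
    rwa [mul_one] at this⟩

/-- representatives of the closed points of degree `k` -/
lemma exists_AA (hM : M ≠ 0) (k : ℕ) (hk : 0 < k) : ∃ A ⊆ EEs g W p M k,
    (∀ f : (Fin (n + 1) → GaloisField p M) → ℝ, (∀ v ∈ EEs g W p M k, f (Fr p v) = f v) → ∑ v ∈ EEs g W p M k, f v = k * ∑ u ∈ A, f u) ∧
      ∀ u ∈ A, ∀ u' ∈ A, ∀ i, (Fr p)^[i] u = u' → u = u' := by
  classical
  refine exists_reps (Fr p) k hk (EEs g W p M k) (fun v hv => ?_) fun v hv => ((mem_EEs g W p).1 hv).2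
  rw [mem_EEs] at hv ⊢
  refine ⟨Pt_Fr g W p hv.1, ?_⟩
  rw [← hv.2]
  exact minimalPeriod_apply (per_pts p hM v)

/-- **The values at the closed points are independent.** -/
theorem jsep {r R : ℕ} (hM : M ≠ 0) (hpM : ¬ p ∣ M) (hR : ∀ j, R ≤ dg j + 1) (A : ℕ → Finset (Fin (n + 1) → GaloisField p M))
    (hA : ∀ k ∈ Icc 1 r, A k ⊆ EEs g W p M k) (hA2 : ∀ k ∈ Icc 1 r, ∀ u ∈ A k, ∀ u' ∈ A k, ∀ i, (Fr p)^[i] u = u' → u = u') :
    JSep (V := Fin (n + 1) → GaloisField p M) (K := Idx n dg → ZMod p) (ι := ↥(Icc 1 r)) (B := fun k => BB p M k)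
      (fun k => eH (dg := dg) g p M k) (fun k => A k) (fun k => (k : ℕ)) R := by
  classical
  intro S hSA hSR z
  have hdeg : ∀ k : ↥(Icc 1 r), ∀ u ∈ S k, minimalPeriod (Fr p) u = k := fun k u hu => ((mem_EEs g W p).1 (hA k k.2 (hSA k hu))).2
  obtain ⟨T, hT⟩ : ∃ T : Finset (Fin (n + 1) → GaloisField p M), T = univ.biUnion S := ⟨_, rfl⟩
  have hmemT : ∀ u, u ∈ T ↔ ∃ k, u ∈ S k := fun u => by
    rw [hT, mem_biUnion]
    exact ⟨fun ⟨k, _, h⟩ => ⟨k, h⟩, fun ⟨k, h⟩ => ⟨k, mem_univ _, h⟩⟩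
  have hPt : ∀ u ∈ T, Pt g W p u := fun u hu => by
    obtain ⟨k, hk⟩ := (hmemT u).1 hu
    exact ((mem_EEs g W p).1 (hA k k.2 (hSA k hk))).1
  have hdis : ∀ u ∈ T, ∀ u' ∈ T, ∀ i, (Fr p)^[i] u = u' → u = u' := by
    intro u hu u' hu' i hi
    obtain ⟨k, hk⟩ := (hmemT u).1 hu
    obtain ⟨k', hk'⟩ := (hmemT u').1 hu'
    have h1 : minimalPeriod (Fr p) ((Fr p)^[i] u) = minimalPeriod (Fr p) u := minimalPeriod_apply_iterate (per_pts p hM u) i
    rw [hi, hdeg k u hk, hdeg k' u' hk'] at h1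
    have h2 : k' = k := Subtype.ext h1
    subst h2
    exact hA2 k' k'.2 u (hSA _ hk) u' (hSA _ hk') i hi
  have hcard : ∑ u ∈ T, minimalPeriod (Fr p) u ≤ R := by
    refine le_trans ?_ hSR
    rw [hT]
    rw [sum_biUnion fun k _ k' _ hkk' => disjoint_left.2 fun u hu hu' => hkk' (Subtype.ext ((hdeg k u hu).symm.trans (hdeg k' u hu')))]
    refine sum_le_sum fun k _ => ?_
    rw [sum_congr rfl fun u hu => hdeg k u hu, sum_const, smul_eq_mul, mul_comm]
  -- the values
  have hval : ∀ u : Fin (n + 1) → GaloisField p M, ∃ w : GaloisField p M, ∀ k, u ∈ S k → w = z k u := by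
    intro u
    by_cases hu : u ∈ T
    · obtain ⟨k, hk⟩ := (hmemT u).1 hu
      refine ⟨z k u, fun k' hk' => ?_⟩
      have h2 : k = k' := Subtype.ext ((hdeg k u hk).symm.trans (hdeg k' u hk'))
      subst h2
      rfl
    · exact ⟨0, fun k hk => absurd ((hmemT u).2 ⟨k, hk⟩) hu⟩
  choose w hw using hval
  have hwp : ∀ u ∈ T, w u ^ p ^ minimalPeriod (Fr p) u = w u := by
    intro u hu
    obtain ⟨k, hk⟩ := (hmemT u).1 hu
    rw [hdeg k u hk, hw u k hk]
    exact (z k u).2
  have hper : ∀ u : Fin (n + 1) → GaloisField p M, (Fr p)^[minimalPeriod (Fr p) u] u = u := fun u => iterate_minimalPeriod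
  have hj : ∀ u : Fin (n + 1) → GaloisField p M, ∃ j : Option J, u ∈ T → ∃ j', j = some j' ∧ aeval u (g j') ≠ 0 := by
    intro u
    by_cases hu : u ∈ T
    · obtain ⟨_, _, j, hj⟩ := hPt u hu
      exact ⟨some j, fun _ => ⟨j, rfl, hj⟩⟩
    · exact ⟨none, fun h => absurd h hu⟩
  choose jj hjj using hj
  have hc : ∀ j : J, ∃ c : Mon n (dg j) → ZMod p, ∀ u ∈ T, ∑ ν, algebraMap (ZMod p) (GaloisField p M) (c ν) * mev u ν =
      if jj u = some j then w u / aeval u (g j) else 0 := by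
    intro j
    refine exists_form_closed p hM hpM T (fun u hu => (hPt u hu).1) hdis (hcard.trans (hR j)) (fun u => if jj u = some j then w u / aeval u (g j) else 0) ?_
    intro u hu
    split_ifs
    · rw [div_pow, hwp u hu, ← aeval_Fr, hper]
    · exact zero_pow (pow_ne_zero _ hp.out.ne_zero)
  choose c hc using hc
  refine ⟨fun x => c x.1 x.2, fun k u hu => ?_⟩
  have huT : u ∈ T := (hmemT u).2 ⟨k, hu⟩
  obtain ⟨j', hj', hj''⟩ := hjj u huT
  apply Subtype.ext
  rw [eH_coe g p _ u (by rw [← hdeg k u hu]; exact hper u), ← hw u k hu]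
  unfold evL
  rw [sum_eq_single j']
  · rw [hc j' u huT, if_pos hj']
    exact mul_div_cancel₀ _ hj''
  · intro j _ hjne
    rw [hc j u huT, if_neg (by rw [hj']; exact fun h => hjne (Option.some.inj h).symm), mul_zero]
  · exact fun h => absurd (mem_univ _) h

end

end H41N.JT
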