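import Pool.Agent.H41N.JT.Deg
import Pool.Agent.H41N.JT.Est
import Pool.Agent.H41N.JT.Cnt

/-!
# The joint moments of the traces of the powers of Frobenius over a large prime field
-/

set_option autoImplicit false
set_option linter.unusedSectionVars false

namespace H41N.JT

open Finset Function MvPolynomial
open Q282.CL
open Q282MM (gm)
open Q285HS (Sep sm Loc1 gm_zero gm_odd)
open Pool.Agent.Y722.HS (Mon mev)

lemma sep_of_jsep {V K ι : Type} [AddCommGroup K] [Fintype K] [Fintype ι] [DecidableEq ι] {B : ι → Type} [∀ i, AddCommGroup (B i)] [∀ i, Fintype (B i)]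
    [∀ i, DecidableEq (B i)] {e : ∀ i, V → K →+ B i} {A : ι → Finset V} {wt : ι → ℕ} {m : ℕ} (h : JSep e A wt m) (i : ι) (m' : ℕ) (hm : wt i * m' ≤ m) :
    Sep (e i) (A i) m' := by
  intro S hS hc z
  obtain ⟨c, hc⟩ := h (Function.update (fun _ => ∅) i S) (fun j => by
      by_cases hj : j = i
      · subst hj
        rw [Function.update_self]
        exact hS
      · rw [Function.update_of_ne hj]
        exact empty_subset _) (by
      rw [sum_eq_single i]
      · rw [Function.update_self]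
        exact (Nat.mul_le_mul_left _ hc).trans hm
      · intro j _ hj
        rw [Function.update_of_ne hj, card_empty, mul_zero]
      · exact fun h => absurd (mem_univ _) h) (Function.update (fun _ _ => 0) i z)
  refine ⟨c, fun t ht => ?_⟩
  have h1 := hc i t (by rw [Function.update_self]; exact ht)
  rw [Function.update_self] at h1
  exact h1

lemma prod_near {ι : Type} (s : Finset ι) (f g : ι → ℝ) (G C t : ℝ) (hG : 1 ≤ G) (hC : 0 ≤ C) (ht : 1 ≤ t) (h1 : ∀ d ∈ s, |f d - g d| ≤ C / t)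
    (h2 : ∀ d ∈ s, |g d| ≤ G) :
    |∏ d ∈ s, f d - ∏ d ∈ s, g d| ≤ s.card * (G + C) ^ s.card * (C / t) ∧ |∏ d ∈ s, g d| ≤ (G + C) ^ s.card := by
  classical
  have ht0 : 0 < t := by linarith
  induction s using Finset.induction_on with
  | empty => simp
  | insert a s ha ih =>
    obtain ⟨h3, h4⟩ := ih (fun d hd => h1 d (mem_insert_of_mem hd)) fun d hd => h2 d (mem_insert_of_mem hd)
    rw [prod_insert ha, prod_insert ha, card_insert_of_notMem ha]
    have h5 := h1 a (mem_insert_self a s)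
    have h6 := h2 a (mem_insert_self a s)
    have h7 : C / t ≤ C := div_le_self hC ht
    have h8 : |f a| ≤ G + C := by
      have := abs_sub_abs_le_abs_sub (f a) (g a)
      linarith
    have h9 : 0 ≤ C / t := by positivity
    have h10 : 1 ≤ (G + C) ^ s.card := one_le_pow₀ (by linarith)
    constructor
    · have e1 : f a * ∏ d ∈ s, f d - g a * ∏ d ∈ s, g d = f a * (∏ d ∈ s, f d - ∏ d ∈ s, g d) + (f a - g a) * ∏ d ∈ s, g d := by ring
      rw [e1]
      refine (abs_add_le _ _).trans ?_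
      rw [abs_mul, abs_mul]
      have e2 : |f a| * |∏ d ∈ s, f d - ∏ d ∈ s, g d| ≤ (G + C) * (s.card * (G + C) ^ s.card * (C / t)) :=
        mul_le_mul h8 h3 (abs_nonneg _) (by linarith)
      have e3 : |f a - g a| * |∏ d ∈ s, g d| ≤ (C / t) * (G + C) ^ s.card := mul_le_mul h5 h4 (abs_nonneg _) h9
      have e4 : (C / t) * (G + C) ^ s.card ≤ (C / t) * ((G + C) ^ s.card * (G + C)) :=
        mul_le_mul_of_nonneg_left (le_mul_of_one_le_right (by linarith) (by linarith)) h9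
      have e5 : ((s.card + 1 : ℕ) : ℝ) * (G + C) ^ (s.card + 1) * (C / t) =
          (G + C) * (s.card * (G + C) ^ s.card * (C / t)) + (C / t) * ((G + C) ^ s.card * (G + C)) := by
        push_cast
        ring
      rw [e5]
      linarith
    · rw [abs_mul, pow_succ']
      exact mul_le_mul (by linarith) h4 (abs_nonneg _) (by linarith)

variable {n : ℕ} {J : Type} [Fintype J] [DecidableEq J] {dg : J → ℕ} (g : J → MvPolynomial (Fin (n + 1)) ℤ) (W : Set (MvPolynomial (Fin (n + 1)) ℤ))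

/-- `W` has about `p ^ (k D)` points over the field with `p ^ k` elements, few of them are in the base locus, and the centres are close to the means -/
structure Szs (r D p₀ : ℕ) (C₀ : ℝ) (c : ℕ → ℕ → ℝ) : Prop where
  amb : ∀ p : ℕ, p.Prime → p₀ ≤ p → ∀ k ∈ Icc 1 r, |(npts p k W : ℝ) - (p : ℝ) ^ (k * D)| ≤ C₀ * ((p : ℝ) ^ (k * D) / Real.sqrt p)
  bas : ∀ p : ℕ, p.Prime → p₀ ≤ p → ∀ k ∈ Icc 1 r, (npts p k (W ∪ Set.range g) : ℝ) ≤ C₀ * ((p : ℝ) ^ (k * D) / Real.sqrt p)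
  cen : ∀ p : ℕ, p.Prime → p₀ ≤ p → ∀ k ∈ Icc 1 r,
    |(npts p k (W ∪ Set.range g) : ℝ) + ((npts p k W : ℝ) - npts p k (W ∪ Set.range g)) / (p : ℝ) ^ k - c k p| ≤
      C₀ * (Real.sqrt p ^ (k * (D - 1)) / Real.sqrt p)

/-- the trace of the `k`-th power of Frobenius -/
noncomputable def zz (D : ℕ) (c : ℕ → ℕ → ℝ) (p k : ℕ) (u : Idx n dg → ZMod p) : ℝ :=
  ((cnt g W p k u : ℝ) - c k p) / Real.sqrt p ^ (k * (D - 1))

variable {g W}

/-- **The joint moments of the traces of the powers of Frobenius.** -/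
theorem loc_mom {r D R p₀ : ℕ} {C₀ : ℝ} {c : ℕ → ℕ → ℝ} (hD : 2 ≤ D) (hsz : Szs g W r D p₀ C₀ c) (hW : Hom W) {e : J → ℕ}
    (hg : ∀ j, (g j).IsHomogeneous (e j)) {δ : ℕ} (hδ : ∀ j, e j + dg j = δ) (hR : ∀ j, R ≤ dg j + 1)
    (l : List ℕ) (hl : ∀ k ∈ l, k ∈ Icc 1 r) (hlR : l.sum ≤ R) :
    ∃ (K : ℝ) (p₁ : ℕ), 1 ≤ K ∧ ∀ p : ℕ, ∀ _ : Fact p.Prime, p₁ ≤ p →
      |av (fun u : Idx n dg → ZMod p => (l.map fun k => zz g W D c p k u).prod) - EE r l 0| ≤ K / Real.sqrt p := by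
  classical
  obtain ⟨C₁, hC₁⟩ : ∃ C₁ : ℝ, C₁ = 2 * |C₀| + 1 := ⟨_, rfl⟩
  have hC₁1 : 1 ≤ C₁ := by
    rw [hC₁]
    linarith [abs_nonneg C₀]
  have hCC : C₀ ≤ |C₀| := le_abs_self C₀
  obtain ⟨C₂, hC₂⟩ : ∃ C₂ : ℝ, C₂ = C₁ + r * (1 + C₁) := ⟨_, rfl⟩
  have hr0 : (0 : ℝ) ≤ r := Nat.cast_nonneg r
  have hC₂1 : 1 ≤ C₂ := by
    rw [hC₂]
    have : 0 ≤ r * (1 + C₁) := by positivity
    linarith
  obtain ⟨C₃, hC₃, hdeg⟩ := deg_near R C₂ hC₂1
  obtain ⟨G, hG, hGm⟩ : ∃ G : ℝ, 1 ≤ G ∧ ∀ j ≤ R, ∀ d : ℕ, 1 ≤ d → |(gm j : ℝ) / Real.sqrt d ^ j| ≤ G := by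
    refine ⟨1 + ∑ j ∈ range (R + 1), (gm j : ℝ), ?_, fun j hj d hd => ?_⟩
    · have : 0 ≤ ∑ j ∈ range (R + 1), (gm j : ℝ) := sum_nonneg fun _ _ => Nat.cast_nonneg _
      linarith
    · have hs : 1 ≤ Real.sqrt d ^ j := one_le_pow₀ (Real.one_le_sqrt.2 (by exact_mod_cast hd))
      rw [abs_div, Nat.abs_cast, abs_of_pos (by linarith : 0 < Real.sqrt d ^ j)]
      refine (div_le_self (Nat.cast_nonneg _) hs).trans ?_
      have h5 := single_le_sum (f := fun j => (gm j : ℝ)) (fun i _ => Nat.cast_nonneg _) (mem_range.2 (by omega : j < R + 1))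
      linarith
  -- the constant for the moments of the closed points
  obtain ⟨C₄, hC₄⟩ : ∃ C₄ : ℝ, C₄ = r * (G + C₃) ^ r * C₃ := ⟨_, rfl⟩
  have hC₄0 : 0 ≤ C₄ := by
    rw [hC₄]
    positivity
  obtain ⟨C₅, hC₅⟩ : ∃ C₅ : ℝ, C₅ = 1 + r + (C₁ + r * (2 * (C₁ + r * (1 + C₁)) + 1 + C₁)) + C₄ := ⟨_, rfl⟩
  have hC₅a : 0 ≤ C₁ + r * (2 * (C₁ + r * (1 + C₁)) + 1 + C₁) := by positivity
  have hC₅1 : 1 ≤ C₅ := by
    rw [hC₅]
    linarith
  obtain ⟨C₆, hC₆, hlim⟩ := lim_step r R C₅ hC₅1 l hl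
  obtain ⟨k₀, hk₀⟩ := exists_nat_ge ((4 * C₂) ^ 2)
  refine ⟨C₆, max p₀ (k₀ + (r + R + 2 * r + 2)), hC₆, fun p hp hpp => ?_⟩
  have hpp₀ : p₀ ≤ p := (le_max_left _ _).trans hpp
  have hpk : k₀ + (r + R + 2 * r + 2) ≤ p := (le_max_right _ _).trans hpp
  have hp1 : (1 : ℝ) ≤ p := by exact_mod_cast hp.out.one_lt.le
  have hp0 : (0 : ℝ) < p := by linarith
  obtain ⟨t, ht⟩ : ∃ t : ℝ, t = Real.sqrt p := ⟨_, rfl⟩
  have ht1 : 1 ≤ t := by
    rw [ht]
    exact Real.one_le_sqrt.2 hp1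
  have ht0 : 0 < t := by linarith
  have htp : t ^ 2 = p := by
    rw [ht]
    exact Real.sq_sqrt hp0.le
  have ht4 : 4 * C₂ ≤ t := by
    rw [ht]
    refine Real.le_sqrt_of_sq_le (hk₀.trans ?_)
    exact_mod_cast (by omega : k₀ ≤ p)
  -- the big field
  obtain ⟨M, hM⟩ : ∃ M : ℕ, M = (r + R).factorial := ⟨_, rfl⟩
  have hM0 : M ≠ 0 := by
    rw [hM]
    exact Nat.factorial_ne_zero _
  have hpM : ¬ p ∣ M := by
    rw [hM, hp.out.dvd_factorial]
    omega
  have hdM : ∀ k ∈ Icc 1 r, k ∣ M := fun k hk => by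
    rw [hM]
    exact Nat.dvd_factorial (mem_Icc.1 hk).1 (by have := (mem_Icc.1 hk).2; omega)
  have hgH : Hom (Set.range g) := by
    rintro G ⟨j, rfl⟩
    exact ⟨e j, hg j⟩
  have hAex : ∀ k : ℕ, ∃ A : Finset (Fin (n + 1) → GaloisField p M), k ∈ Icc 1 r → A ⊆ EEs g W p M k ∧
    (∀ f : (Fin (n + 1) → GaloisField p M) → ℝ, (∀ v ∈ EEs g W p M k, f (Fr p v) = f v) → ∑ v ∈ EEs g W p M k, f v = k * ∑ u ∈ A, f u) ∧
      ∀ u ∈ A, ∀ u' ∈ A, ∀ i, (Fr p)^[i] u = u' → u = u' := by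
    intro k
    by_cases hk : k ∈ Icc 1 r
    · obtain ⟨A, hA⟩ := exists_AA g W p hM0 k (mem_Icc.1 hk).1
      exact ⟨A, fun _ => hA⟩
    · exact ⟨∅, fun h => absurd h hk⟩
  choose A hA using hAex
  have hj := jsep (r := r) (R := R) (dg := dg) g W p hM0 hpM hR A (fun k hk => (hA k hk).1) fun k hk => (hA k hk).2.2
  -- the sizes
  obtain ⟨x, hx⟩ : ∃ x : ℕ → ℝ, x = fun d => ((EEs g W p M d).card : ℝ) := ⟨_, rfl⟩
  obtain ⟨w, hw⟩ : ∃ w : ℕ → ℝ, w = fun d => ((WP g W p M d).card : ℝ) := ⟨_, rfl⟩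
  have hww : ∀ k ∈ Icc 1 r, (npts p k W : ℝ) = npts p k (W ∪ Set.range g) + w k := fun k hk => by
    rw [hw]
    exact npts_WP g W p (by have := (mem_Icc.1 hk).1; omega) hM0 (hdM k hk) hW hgH
  have hpow : ∀ k : ℕ, (p : ℝ) ^ (k * D) = t ^ (2 * k * D) := fun k => by
    rw [← htp, ← pow_mul, mul_assoc]
  have hS : Sizes r D C₁ t w x := by
    refine ⟨hC₁1, ht1, hD, fun d => ?_, fun k hk => ?_, fun k hk => ?_⟩
    · rw [hx]
      exact Nat.cast_nonneg _
    · have h1 := sum_WP g W p (M := M) (k := k) (by have := (mem_Icc.1 hk).1; omega) fun _ => (1 : ℝ)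
      simp only [sum_const, nsmul_eq_mul, mul_one] at h1
      rw [hw, hx]
      exact h1
    · have h1 := hsz.amb p hp.out hpp₀ k hk
      have h2 := hsz.bas p hp.out hpp₀ k hk
      have h3 := hww k hk
      rw [hpow k, ← ht] at h1 h2
      have h4 : (0 : ℝ) ≤ npts p k (W ∪ Set.range g) := Nat.cast_nonneg _
      have h5 : 0 ≤ t ^ (2 * k * D) / t := by positivity
      have h6 : C₀ * (t ^ (2 * k * D) / t) ≤ |C₀| * (t ^ (2 * k * D) / t) := mul_le_mul_of_nonneg_right hCC h5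
      rw [hC₁, abs_le]
      rw [abs_le] at h1
      constructor <;> linarith [h1.1, h1.2]
  have hcardA : ∀ k ∈ Icc 1 r, (k : ℝ) * (A k).card = x k := fun k hk => by
    have h1 := (hA k hk).2.1 (fun _ => 1) fun _ _ => rfl
    simp only [sum_const, nsmul_eq_mul, mul_one] at h1
    rw [hx]
    exact h1.symm
  have hfix : ∀ k ∈ Icc 1 r, ∀ v ∈ A k, (Fr p)^[k] v = v := by
    intro k hk v hv
    have h1 := ((mem_EEs g W p).1 ((hA k hk).1 hv)).2
    rw [← h1]
    exact iterate_minimalPeriod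
  -- the functions `H`
  obtain ⟨H, hH⟩ : ∃ H : ℕ → (Idx n dg → ZMod p) → ℝ, H = fun d u =>
      (∑ v ∈ A d, ((if evL g p v u = 0 then 1 else 0) - 1 / (p : ℝ) ^ d)) / t ^ (d * (D - 1)) := ⟨_, rfl⟩
  have hHs : ∀ k (hk : k ∈ Icc 1 r) (u : Idx n dg → ZMod p), H k u =
      sm (eH (dg := dg) g p M k) (A k) (fun _ => ph ((p : ℝ) ^ k)) u / t ^ (k * (D - 1)) := by
    intro k hk u
    rw [hH]
    dsimp only
    congr 1
    unfold sm ph
    refine sum_congr rfl fun v hv => ?_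
    have h1 := eH_coe (dg := dg) g p k v (hfix k hk v hv) u
    have h2 : eH (dg := dg) g p M k v u = 0 ↔ evL g p v u = 0 := by
      rw [← h1]
      exact ⟨fun h => by rw [h]; rfl, fun h => Subtype.ext h⟩
    simp only [h2]
  have hHm : ∀ k ∈ Icc 1 r, ∀ j, k * j ≤ R → |av (fun u => H k u ^ j) - (gm j : ℝ) / Real.sqrt k ^ j| ≤ C₃ / t := by
    intro k hk j hkj
    have hk1 := (mem_Icc.1 hk).1
    have hjR : j ≤ R := le_trans (Nat.le_mul_of_pos_left j hk1) hkj
    have h1 := hdeg (Fin (n + 1) → GaloisField p M) (Idx n dg → ZMod p) (BB p M k) (eH (dg := dg) g p M k) (fun _ => ph ((p : ℝ) ^ k)) j (A k)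
      ((p : ℝ) ^ k) (t ^ (k * (D - 1))) t k ht4 (le_self_pow₀ ht1 (Nat.mul_ne_zero (by omega) (by omega))) (by
        rw [← htp, ← pow_mul]
        exact le_self_pow₀ ht1 (by omega)) (by exact_mod_cast hk1) (by
        rw [htp]
        have : 2 * k ≤ p := by have := (mem_Icc.1 hk).2; omega
        exact_mod_cast this) (by
        rw [hcardA k hk]
        have h2 : (t ^ (k * (D - 1))) ^ 2 * (p : ℝ) ^ k = t ^ (2 * k * D) := by
          rw [← htp, ← pow_mul, ← pow_mul, ← pow_add]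
          congr 1
          obtain ⟨D', rfl⟩ : ∃ D', D = D' + 1 := ⟨D - 1, by omega⟩
          rw [Nat.add_sub_cancel]
          ring
        rw [h2, hC₂]
        exact hS.x_near hk) (fun _ _ => loc_ph _ (by
          rw [card_BB p (by omega) hM0 (hdM k hk)]
          push_cast
          rfl)) (sep_of_jsep hj ⟨k, hk⟩ j hkj) j hjR le_rfl
    have h2 : (fun u => H k u ^ j) = fun u => (sm (eH (dg := dg) g p M k) (A k) (fun _ => ph ((p : ℝ) ^ k)) u / t ^ (k * (D - 1))) ^ j := by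
      funext u
      rw [hHs k hk u]
    rw [h2]
    exact h1
  -- the joint moments of `H`
  have hHj : ∀ m : ℕ → ℕ, wt r m ≤ R → |av (fun u => ∏ d ∈ Icc 1 r, H d u ^ m d) - ∏ d ∈ Icc 1 r, (gm (m d) : ℝ) / Real.sqrt d ^ m d| ≤ C₅ / t := by
    intro m hm
    have hdm : ∀ d ∈ Icc 1 r, d * m d ≤ R := fun d hd =>
      (single_le_sum (f := fun d => d * m d) (fun _ _ => Nat.zero_le _) hd).trans hm
    have h1 := av_joint hj (fun k => m k) (by
      rw [sum_coe_sort (Icc 1 r) fun k => k * m k]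
      exact hm) (fun k _ => ph ((p : ℝ) ^ (k : ℕ)))
    have h2 : av (fun u => ∏ d ∈ Icc 1 r, H d u ^ m d) = ∏ d ∈ Icc 1 r, av (fun u => H d u ^ m d) := by
      have h3 : ∀ u : Idx n dg → ZMod p, ∏ d ∈ Icc 1 r, H d u ^ m d = (∏ d ∈ Icc 1 r, 1 / (t ^ (d * (D - 1))) ^ m d) *
          ∏ k : ↥(Icc 1 r), smi (fun k : ↥(Icc 1 r) => eH (dg := dg) g p M k) (fun k => A k) (fun k _ => ph ((p : ℝ) ^ (k : ℕ))) k u ^ m k := by
        intro u
        rw [← prod_coe_sort (Icc 1 r) fun d => H d u ^ m d, ← prod_coe_sort (Icc 1 r) fun d => 1 / (t ^ (d * (D - 1))) ^ m d, ← prod_mul_distrib]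
        refine prod_congr rfl fun k _ => ?_
        rw [hHs k k.2 u, div_pow]
        unfold sm smi
        ring
      rw [show (fun u => ∏ d ∈ Icc 1 r, H d u ^ m d) = _ from funext h3, av_mul, h1]
      rw [← prod_coe_sort (Icc 1 r) fun d => av fun u => H d u ^ m d, ← prod_coe_sort (Icc 1 r) fun d => 1 / (t ^ (d * (D - 1))) ^ m d, ← prod_mul_distrib]
      refine prod_congr rfl fun k _ => ?_
      rw [← av_mul]
      refine congrArg av (funext fun u => ?_)
      rw [hHs k k.2 u, div_pow]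
      unfold sm smi
      ring
    rw [h2]
    have h3 := (prod_near (Icc 1 r) (fun d => av fun u => H d u ^ m d) (fun d => (gm (m d) : ℝ) / Real.sqrt d ^ m d) G C₃ t hG (by linarith) ht1
      (fun d hd => hHm d hd (m d) (hdm d hd)) fun d hd => hGm (m d) ((Nat.le_mul_of_pos_left _ (mem_Icc.1 hd).1).trans (hdm d hd)) d (mem_Icc.1 hd).1).1
    rw [Nat.card_Icc, Nat.add_sub_cancel] at h3
    refine h3.trans ?_
    rw [show (r : ℝ) * (G + C₃) ^ r * (C₃ / t) = C₄ / t by rw [hC₄]; ring]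
    refine div_le_div_of_nonneg_right ?_ ht0.le
    rw [hC₅]
    linarith
  -- the traces
  obtain ⟨b, hb⟩ : ∃ b : ℕ → ℝ, b = fun k => ((npts p k (W ∪ Set.range g) : ℝ) + ∑ d ∈ k.divisors, x d / t ^ (2 * d) - c k p) / t ^ (k * (D - 1)) := ⟨_, rfl⟩
  have hz : ∀ k ∈ Icc 1 r, ∀ u, zz g W D c p k u = ∑ d ∈ k.divisors, lam D t k d * H d u + b k := by
    intro k hk u
    have hk1 := (mem_Icc.1 hk).1
    have h1 := cnt_eq g W p (by omega : k ≠ 0) hM0 (hdM k hk) hW hg hδ u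
    have hdr : ∀ d ∈ k.divisors, d ∈ Icc 1 r := fun d hd => by
      have h2 := Nat.divisor_le hd
      have h3 := Nat.pos_of_mem_divisors hd
      have h4 := (mem_Icc.1 hk).2
      rw [mem_Icc]
      omega
    have h2 : ∀ d ∈ k.divisors, ∑ v ∈ EEs g W p M d, (if evL g p v u = 0 then (1 : ℝ) else 0) =
        d * t ^ (d * (D - 1)) * H d u + x d / t ^ (2 * d) := by
      intro d hd
      have hdr' := hdr d hd
      rw [(hA d hdr').2.1 (fun v => if evL g p v u = 0 then (1 : ℝ) else 0) fun v _ => by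
        have h3 := evL_Fr g p 1 v u
        rw [iterate_one, pow_one] at h3
        rw [h3]
        have : evL g p v u ^ p = 0 ↔ evL g p v u = 0 := pow_eq_zero_iff hp.out.ne_zero
        simp only [this]]
      rw [hH]
      dsimp only
      rw [sum_sub_distrib, sum_const, nsmul_eq_mul, ← hcardA d hdr']
      have h4 : (p : ℝ) ^ d = t ^ (2 * d) := by rw [← htp, ← pow_mul]
      rw [h4]
      have h5 : t ^ (d * (D - 1)) ≠ 0 := by positivity
      have h6 : t ^ (2 * d) ≠ 0 := by positivity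
      field_simp
      ring
    unfold zz
    rw [h1, sum_congr rfl h2, sum_add_distrib, hb, ← ht]
    dsimp only
    have h3 : ∑ d ∈ k.divisors, lam D t k d * H d u = (∑ d ∈ k.divisors, d * t ^ (d * (D - 1)) * H d u) / t ^ (k * (D - 1)) := by
      rw [Finset.sum_div]
      refine sum_congr rfl fun d _ => ?_
      unfold lam
      ring
    rw [h3]
    ring
  have hres := hlim (Idx n dg → ZMod p) t H (zz g W D c p) (lam D t) b ht1 hz (fun k _ => lam_self D t ht0 k)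
    (fun k hk d hd => (lam_le D hD t ht1 hk hd).trans (div_le_div_of_nonneg_right (by rw [hC₅]; linarith) ht0.le))
    (fun k hk => by
      have h1 := hsz.cen p hp.out hpp₀ k hk
      rw [hb]
      refine (hS.centre hk _ _ ?_).trans (div_le_div_of_nonneg_right (by rw [hC₅]; linarith) ht0.le)
      rw [hww k hk, add_sub_cancel_left, ← ht] at h1
      have h2 : (p : ℝ) ^ k = t ^ (2 * k) := by rw [← htp, ← pow_mul]
      rw [h2] at h1
      refine h1.trans (mul_le_mul_of_nonneg_right ?_ (by positivity))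
      rw [hC₁]
      linarith [abs_nonneg C₀]) hHj 0 (by
      have : wt r 0 = 0 := by
        unfold wt
        simp
      rw [this]
      omega)
  have h1 := hres.1
  simp only [Pi.zero_apply, pow_zero, prod_const_one, mul_one] at h1
  rw [← ht]
  exact h1

end H41N.JT
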