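import Pool.Agent.Q285.HS.Fam
import Pool.Agent.H41N.JT.Fix
import Pool.Agent.H41N.JT.Elem

/-!
# Members of linear systems and hypersurfaces
-/

set_option autoImplicit false
set_option linter.unusedSectionVars false

namespace H41N.JT

open Finset MvPolynomial
open Q282.CL
open Q282MM (gm)
open Pool.Agent.Y722.HS (Mon mev)
open scoped LinearAlgebra.Projectivization

/-- reindexing -/
lemma JM.equiv {κ κ' : Type} [Fintype κ] [DecidableEq κ] [Fintype κ'] [DecidableEq κ'] (e : κ ≃ κ') {Z : (p : ℕ) → ℕ → (κ → ZMod p) → ℝ}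
    {w β : ℕ} {K : ℝ} (h : JM Z w β K) : JM (fun p k (u : κ' → ZMod p) => Z p k fun i => u (e i)) w β K := by
  refine ⟨h.one, fun p hp k hk u => h.bd p hp k hk _, fun l hl hlw => ?_⟩
  obtain ⟨K', p₁, hK', hm⟩ := h.mom l hl hlw
  refine ⟨K', p₁, hK', fun p hp hpp => ?_⟩
  have h1 := hm p hp hpp
  have h2 : av (fun u : κ' → ZMod p => (l.map fun k => Z p k fun i => u (e i)).prod) = av (fun u => (l.map fun k => Z p k u).prod) := by
    rw [av_equiv (Equiv.arrowCongr e (Equiv.refl (ZMod p))) (fun u : κ' → ZMod p => (l.map fun k => Z p k fun i => u (e i)).prod)]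
    congr 1
    funext c
    congr 2
    funext k
    congr 1
    funext i
    simp [Equiv.arrowCongr]
  rw [h2]
  exact h1

section

variable {n : ℕ} {J : Type} [Fintype J] [DecidableEq J] {dg : J → ℕ} (g : J → MvPolynomial (Fin (n + 1)) ℤ) (W : Set (MvPolynomial (Fin (n + 1)) ℤ))

lemma card_sub_le (p k : ℕ) [hp : Fact p.Prime] (hk : k ≠ 0) (Q : ℙ (GaloisField p k) (Fin (n + 1) → GaloisField p k) → Prop) :
    (Nat.card {P : ℙ (GaloisField p k) (Fin (n + 1) → GaloisField p k) // Q P} : ℝ) ≤ (p : ℝ) ^ (k * (n + 1)) := by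
  have h1 : Function.Injective (fun P : {P : ℙ (GaloisField p k) (Fin (n + 1) → GaloisField p k) // Q P} => P.1.rep) := by
    intro P R h
    apply Subtype.ext
    have h2 : Projectivization.mk (GaloisField p k) P.1.rep P.1.rep_nonzero = Projectivization.mk (GaloisField p k) R.1.rep R.1.rep_nonzero := by
      congr 1
    rwa [P.1.mk_rep, R.1.mk_rep] at h2
  have h2 := Nat.card_le_card_of_injective _ h1
  rw [Nat.card_fun, GaloisField.card p k hk, Nat.card_eq_fintype_card (α := Fin (n + 1)), Fintype.card_fin, ← pow_mul] at h2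
  exact_mod_cast h2

lemma npts_le (p k : ℕ) (hp : p.Prime) (hk : k ≠ 0) (S : Set (MvPolynomial (Fin (n + 1)) ℤ)) : (npts p k S : ℝ) ≤ (p : ℝ) ^ (k * (n + 1)) := by
  have : Fact p.Prime := ⟨hp⟩
  unfold npts
  rw [dif_pos hp]
  exact card_sub_le p k hk _

lemma cnt_le (p k : ℕ) (hp : p.Prime) (hk : k ≠ 0) (u : Idx n dg → ZMod p) : (cnt g W p k u : ℝ) ≤ (p : ℝ) ^ (k * (n + 1)) := by
  have : Fact p.Prime := ⟨hp⟩
  unfold cnt
  rw [dif_pos hp]
  exact card_sub_le p k hk _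

variable {g W}

/-- **The joint moments of the traces of the powers of Frobenius.** -/
theorem jm {w D p₀ : ℕ} {C₀ : ℝ} {c : ℕ → ℕ → ℝ} (hD : 2 ≤ D) (hsz : Szs g W w D p₀ C₀ c) (hW : Hom W) {e : J → ℕ}
    (hg : ∀ j, (g j).IsHomogeneous (e j)) {δ : ℕ} (hδ : ∀ j, e j + dg j = δ) (hR : ∀ j, 2 * w ≤ dg j + 1) :
    ∃ (K : ℝ) (β : ℕ), JM (fun p k (u : Idx n dg → ZMod p) => zz g W D c p k u) w β K := by
  classical
  obtain ⟨B, hB⟩ : ∃ B : ℝ, B = ∑ p ∈ range p₀, ∑ k ∈ range (w + 1), |c k p| := ⟨_, rfl⟩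
  have hB0 : 0 ≤ B := by
    rw [hB]
    positivity
  have hcB : ∀ p < p₀, ∀ k ∈ Icc 1 w, |c k p| ≤ B := by
    intro p hp k hk
    rw [hB]
    refine le_trans ?_ (single_le_sum (f := fun p => ∑ k ∈ range (w + 1), |c k p|) (fun i _ => by positivity) (mem_range.2 hp))
    exact single_le_sum (f := fun k => |c k p|) (fun i _ => abs_nonneg _) (mem_range.2 (by have := (mem_Icc.1 hk).2; omega))
  refine ⟨1 + B + 3 + |C₀|, w * (n + 1 + D), ?_, ?_, ?_⟩
  · linarith [abs_nonneg C₀]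
  · intro p hp k hk u
    have hk1 := (mem_Icc.1 hk).1
    have hk2 := (mem_Icc.1 hk).2
    have hp1 : (1 : ℝ) ≤ p := by exact_mod_cast hp.one_lt.le
    have hp0 : (0 : ℝ) < p := by linarith
    have hs1 : 1 ≤ Real.sqrt p := Real.one_le_sqrt.2 hp1
    have hS1 : 1 ≤ Real.sqrt p ^ (k * (D - 1)) := one_le_pow₀ hs1
    obtain ⟨X, hX⟩ : ∃ X : ℝ, X = (p : ℝ) ^ (w * (n + 1 + D)) := ⟨_, rfl⟩
    have hX1 : 1 ≤ X := by
      rw [hX]
      exact one_le_pow₀ hp1
    have hPX : (p : ℝ) ^ (k * (n + 1)) ≤ X := by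
      rw [hX]
      refine pow_le_pow_right₀ hp1 ?_
      exact Nat.mul_le_mul hk2 (by omega)
    have hSX : Real.sqrt p ^ (k * (D - 1)) ≤ X := by
      have h1 : Real.sqrt p ≤ p := by
        have := Real.mul_self_sqrt hp0.le
        nlinarith
      refine (pow_le_pow_left₀ (by linarith) h1 _).trans ?_
      rw [hX]
      refine pow_le_pow_right₀ hp1 ?_
      exact Nat.mul_le_mul hk2 (by omega)
    have h1 := (cnt_le g W p k hp (by omega) u).trans hPX
    have h2 := (npts_le p k hp (by omega) W).trans hPX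
    have h3 := (npts_le p k hp (by omega) (W ∪ Set.range g)).trans hPX
    have h4 : (0 : ℝ) ≤ npts p k W := Nat.cast_nonneg _
    have h5 : (0 : ℝ) ≤ npts p k (W ∪ Set.range g) := Nat.cast_nonneg _
    have h6 : (0 : ℝ) ≤ cnt g W p k u := Nat.cast_nonneg _
    have hc : |c k p| ≤ (B + 3 + |C₀|) * X := by
      by_cases hpp : p₀ ≤ p
      · have h7 := hsz.cen p hp hpp k hk
        have h8 : |((npts p k W : ℝ) - npts p k (W ∪ Set.range g)) / (p : ℝ) ^ k| ≤ X := by
          have h9 : 1 ≤ (p : ℝ) ^ k := one_le_pow₀ hp1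
          rw [abs_div, abs_of_pos (by linarith : 0 < (p : ℝ) ^ k), div_le_iff₀ (by linarith)]
          have h10 : |(npts p k W : ℝ) - npts p k (W ∪ Set.range g)| ≤ X := by
            rw [abs_le]
            constructor <;> linarith
          nlinarith
        have h9 : C₀ * (Real.sqrt p ^ (k * (D - 1)) / Real.sqrt p) ≤ |C₀| * X := by
          have h10 : Real.sqrt p ^ (k * (D - 1)) / Real.sqrt p ≤ X := (div_le_self (by linarith) hs1).trans hSX
          have h11 : 0 ≤ Real.sqrt p ^ (k * (D - 1)) / Real.sqrt p := by positivity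
          calc C₀ * (Real.sqrt p ^ (k * (D - 1)) / Real.sqrt p) ≤ |C₀| * (Real.sqrt p ^ (k * (D - 1)) / Real.sqrt p) :=
                mul_le_mul_of_nonneg_right (le_abs_self _) h11
            _ ≤ |C₀| * X := mul_le_mul_of_nonneg_left h10 (abs_nonneg _)
        have h10 := h7.trans h9
        have h11 : 0 ≤ B * X := by positivity
        rw [abs_le] at h8 h10 ⊢
        constructor <;> linarith [h8.1, h8.2, h10.1, h10.2]
      · have h7 := hcB p (by omega) k hk
        have h8 : B ≤ (B + 3 + |C₀|) * X := by nlinarith [abs_nonneg C₀]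
        linarith
    unfold zz
    rw [abs_div, abs_of_pos (by linarith : 0 < Real.sqrt p ^ (k * (D - 1))), div_le_iff₀ (by linarith), ← hX]
    have h7 : |(cnt g W p k u : ℝ) - c k p| ≤ (1 + B + 3 + |C₀|) * X := by
      refine (abs_sub _ _).trans ?_
      rw [abs_of_nonneg h6]
      linarith
    have h8 : 0 ≤ (1 + B + 3 + |C₀|) * X := (abs_nonneg _).trans h7
    nlinarith
  · intro l hl hlw
    exact loc_mom hD hsz hW hg hδ hR l hl hlw

end

/-! ### projective space -/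

lemma npts_empty {n : ℕ} (p k : ℕ) (hpr : p.Prime) (hk : k ≠ 0) : npts (n := n) p k ∅ = ∑ i ∈ range (n + 1), (p ^ k) ^ i := by
  have : Fact p.Prime := ⟨hpr⟩
  unfold npts
  rw [dif_pos hpr]
  have h1 : Nat.card {P : ℙ (GaloisField p k) (Fin (n + 1) → GaloisField p k) // ∀ G ∈ (∅ : Set (MvPolynomial (Fin (n + 1)) ℤ)), aeval P.rep G = 0} =
      Nat.card (ℙ (GaloisField p k) (Fin (n + 1) → GaloisField p k)) := by
    refine Nat.card_congr (Equiv.subtypeUnivEquiv fun P => ?_)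
    simp
  rw [h1, Projectivization.card_of_finrank (n := n + 1) (GaloisField p k) _ (by simp), GaloisField.card p k hk]

lemma npts_one {n : ℕ} (p k : ℕ) : npts (n := n) p k (∅ ∪ Set.range fun _ : Unit => (1 : MvPolynomial (Fin (n + 1)) ℤ)) = 0 := by
  unfold npts
  split_ifs with hpr
  · have : Fact p.Prime := ⟨hpr⟩
    rw [Nat.card_eq_zero]
    left
    refine ⟨fun P => ?_⟩
    have h1 := P.2 1 (Or.inr ⟨(), rfl⟩)
    rw [map_one] at h1
    exact one_ne_zero h1
  · rfl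

/-- the centres -/
noncomputable def cen (n k p : ℕ) : ℝ := ∑ i ∈ range n, (p : ℝ) ^ (k * i)

lemma szs_proj {n : ℕ} (r : ℕ) (hn : 2 ≤ n) : Szs (fun _ : Unit => (1 : MvPolynomial (Fin (n + 1)) ℤ)) ∅ r n 2 2 (cen n) := by
  have key : ∀ p : ℕ, p.Prime → ∀ k ∈ Icc 1 r, (p : ℝ) ≤ (p : ℝ) ^ k ∧ 1 ≤ Real.sqrt p ∧ Real.sqrt p ≤ p := by
    intro p hp k hk
    have hp1 : (1 : ℝ) ≤ p := by exact_mod_cast hp.one_lt.le
    have hp0 : (0 : ℝ) < p := by linarith
    have hs1 : 1 ≤ Real.sqrt p := Real.one_le_sqrt.2 hp1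
    refine ⟨le_self_pow₀ hp1 (by have := (mem_Icc.1 hk).1; omega), hs1, ?_⟩
    have := Real.mul_self_sqrt hp0.le
    nlinarith
  refine ⟨fun p hp _ k hk => ?_, fun p hp _ k hk => ?_, fun p hp _ k hk => ?_⟩
  · obtain ⟨h1, h2, h3⟩ := key p hp k hk
    have hk1 := (mem_Icc.1 hk).1
    have hq2 : 2 ≤ p ^ k := hp.two_le.trans (Nat.le_self_pow (by omega) p)
    have hs0 : 0 < Real.sqrt p := by linarith
    rw [npts_empty p k hp (by omega), pow_mul]
    push_cast
    obtain ⟨q, hq⟩ : ∃ q : ℝ, q = (p : ℝ) ^ k := ⟨_, rfl⟩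
    rw [← hq] at h1 ⊢
    have hq0 : 0 < q := by linarith
    rw [sum_range_succ, add_sub_cancel_right, abs_of_nonneg (by positivity), ← mul_div_assoc, le_div_iff₀ hs0]
    obtain ⟨m, rfl⟩ : ∃ m, n = m + 1 := ⟨n - 1, by omega⟩
    have h4 : ∑ i ∈ range m, q ^ i ≤ q ^ m := by
      have := Q285HS.geo_le (p ^ k) hq2 m
      push_cast at this
      rw [hq]
      exact this
    have h5 : ∑ i ∈ range (m + 1), q ^ i ≤ 2 * q ^ m := by
      rw [sum_range_succ]
      linarith
    calc (∑ i ∈ range (m + 1), q ^ i) * Real.sqrt p ≤ (2 * q ^ m) * q := mul_le_mul h5 (h3.trans h1) hs0.le (by positivity)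
      _ = 2 * q ^ (m + 1) := by ring
  · rw [npts_one, Nat.cast_zero]
    positivity
  · obtain ⟨h1, h2, h3⟩ := key p hp k hk
    have hk1 := (mem_Icc.1 hk).1
    have hs0 : 0 < Real.sqrt p := by linarith
    rw [npts_one, npts_empty p k hp (by omega)]
    unfold cen
    simp only [pow_mul]
    push_cast
    obtain ⟨q, hq⟩ : ∃ q : ℝ, q = (p : ℝ) ^ k := ⟨_, rfl⟩
    rw [← hq] at h1 ⊢
    have hq0 : 0 < q := by linarith
    rw [sum_range_succ']
    have h4 : (0 : ℝ) + ((∑ i ∈ range n, q ^ (i + 1) + q ^ 0) - 0) / q - ∑ i ∈ range n, q ^ i = 1 / q := by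
      have h5 : ∑ i ∈ range n, q ^ (i + 1) = (∑ i ∈ range n, q ^ i) * q := by
        rw [sum_mul]
        exact sum_congr rfl fun i _ => pow_succ _ _
      rw [h5]
      field_simp
      ring
    rw [h4, abs_of_pos (by positivity), ← mul_div_assoc, div_le_div_iff₀ hq0 hs0]
    have h5 : 1 ≤ (Real.sqrt p ^ k) ^ (n - 1) := one_le_pow₀ (one_le_pow₀ h2)
    nlinarith

end H41N.JT
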