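import Mathlib

/-!
# Points over finite fields as normalised vectors with coordinates in a large finite field
-/

set_option autoImplicit false

namespace H41N.JT

open Finset MvPolynomial
open scoped LinearAlgebra.Projectivization

/-- The first non-zero coordinate is `1`. -/
def Nrm {F : Type*} [Field F] {n : ℕ} (v : Fin (n + 1) → F) : Prop := ∃ i, v i = 1 ∧ ∀ j < i, v j = 0

section

variable {F : Type*} [Field F] {n : ℕ}

lemma Nrm.ne_zero {v : Fin (n + 1) → F} (h : Nrm v) : v ≠ 0 := by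
  obtain ⟨i, hi, _⟩ := h
  intro h0
  rw [h0] at hi
  exact zero_ne_one hi

lemma Nrm.eq_of_smul {v w : Fin (n + 1) → F} (hv : Nrm v) (hw : Nrm w) (a : F) (h : a • w = v) : v = w := by
  obtain ⟨i, hi, hi'⟩ := hv
  obtain ⟨j, hj, hj'⟩ := hw
  have h1 : ∀ l, a * w l = v l := fun l => congrFun h l
  rcases lt_trichotomy i j with hij | rfl | hij
  · have h2 := h1 i
    rw [hj' i hij, mul_zero, hi] at h2
    exact absurd h2 zero_ne_one
  · have h2 := h1 i
    rw [hj, hi, mul_one] at h2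
    rw [← h, h2, one_smul]
  · have h2 := h1 j
    rw [hi' j hij, hj, mul_one] at h2
    have h3 := h1 i
    rw [h2, zero_mul, hi] at h3
    exact absurd h3 zero_ne_one

lemma exists_nrm {v : Fin (n + 1) → F} (hv : v ≠ 0) : ∃ a : F, a ≠ 0 ∧ Nrm (a • v) := by
  classical
  have hne : (univ.filter fun i => v i ≠ 0).Nonempty := by
    obtain ⟨i, hi⟩ := Function.ne_iff.1 hv
    exact ⟨i, by simpa using hi⟩
  obtain ⟨i, hi⟩ : ∃ i, i = (univ.filter fun i => v i ≠ 0).min' hne := ⟨_, rfl⟩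
  have hi1 : v i ≠ 0 := by
    have := Finset.min'_mem _ hne
    rw [← hi] at this
    exact (mem_filter.1 this).2
  refine ⟨(v i)⁻¹, inv_ne_zero hi1, i, ?_, fun j hj => ?_⟩
  · simp [hi1]
  · have : v j = 0 := by
      by_contra h
      have h2 := Finset.min'_le (univ.filter fun i => v i ≠ 0) j (by simpa using h)
      rw [← hi] at h2
      exact absurd hj (not_lt.2 h2)
    simp [this]

/-- The points of the projective space are the normalised vectors. -/
lemma card_proj_eq (Z : (Fin (n + 1) → F) → Prop) (hZ : ∀ (a : F) (v : Fin (n + 1) → F), a ≠ 0 → (Z (a • v) ↔ Z v)) :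
    Nat.card {P : ℙ F (Fin (n + 1) → F) // Z P.rep} = Nat.card {v : Fin (n + 1) → F // Nrm v ∧ Z v} := by
  symm
  have hrep : ∀ v : Fin (n + 1) → F, ∀ h : v ≠ 0, Z (Projectivization.mk F v h).rep ↔ Z v := by
    intro v h
    obtain ⟨a, ha⟩ := Projectivization.exists_smul_eq_mk_rep F v h
    rw [← ha]
    exact hZ a v a.ne_zero
  refine Nat.card_congr (Equiv.ofBijective (fun v => ⟨Projectivization.mk F v.1 v.2.1.ne_zero, (hrep _ _).2 v.2.2⟩) ⟨?_, ?_⟩)
  · rintro ⟨v, hv, hv'⟩ ⟨w, hw, hw'⟩ h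
    have h1 := congrArg Subtype.val h
    dsimp only at h1
    rw [Projectivization.mk_eq_mk_iff'] at h1
    obtain ⟨a, ha⟩ := h1
    exact Subtype.ext (hv.eq_of_smul hw a ha)
  · rintro ⟨P, hP⟩
    obtain ⟨a, ha, hn⟩ := exists_nrm P.rep_nonzero
    refine ⟨⟨a • P.rep, hn, (hZ a _ ha).2 hP⟩, Subtype.ext ?_⟩
    show Projectivization.mk F (a • P.rep) _ = P
    conv_rhs => rw [← P.mk_rep]
    rw [Projectivization.mk_eq_mk_iff']
    exact ⟨a, rfl⟩

lemma aeval_comp {K L : Type*} [Field K] [Field L] (f : K →+* L) {σ : Type*} (v : σ → K) (G : MvPolynomial σ ℤ) :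
    aeval (fun i => f (v i)) G = f (aeval v G) :=
  (comp_aeval_apply (R := ℤ) v f.toIntAlgHom G).symm

lemma aeval_smul' {K : Type*} [Field K] {σ : Type*} [Fintype σ] (G : MvPolynomial σ ℤ) (e : ℕ) (hG : G.IsHomogeneous e) (a : K) (v : σ → K) :
    aeval (a • v) G = a ^ e * aeval v G := by
  rw [aeval_def, aeval_def, eval₂_eq', eval₂_eq', mul_sum]
  refine sum_congr rfl fun m hm => ?_
  have h1 : ∑ i, m i = e := by
    have h3 := hG (mem_support_iff.mp hm)
    rw [Finsupp.weight_apply, Finsupp.sum_fintype _ _ (fun i => by simp)] at h3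
    simpa using h3
  have h2 : ∏ i, (a • v) i ^ m i = a ^ e * ∏ i, v i ^ m i := by
    rw [← h1, ← prod_pow_eq_pow_sum, ← prod_mul_distrib]
    exact prod_congr rfl fun i _ => by rw [Pi.smul_apply, smul_eq_mul, mul_pow]
  rw [h2]
  ring

end

/-- All polynomials in `S` are homogeneous. -/
def Hom {n : ℕ} (S : Set (MvPolynomial (Fin (n + 1)) ℤ)) : Prop := ∀ G ∈ S, ∃ e : ℕ, G.IsHomogeneous e

/-- the common zeros in a field -/
def Zr {n : ℕ} (S : Set (MvPolynomial (Fin (n + 1)) ℤ)) {K : Type*} [Field K] (v : Fin (n + 1) → K) : Prop :=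
  ∀ G ∈ S, aeval v G = 0

lemma Zr.smul {n : ℕ} {S : Set (MvPolynomial (Fin (n + 1)) ℤ)} (hS : Hom S) {K : Type*} [Field K] (a : K) (v : Fin (n + 1) → K) (ha : a ≠ 0) :
    Zr S (a • v) ↔ Zr S v := by
  refine forall₂_congr fun G hG => ?_
  obtain ⟨e, he⟩ := hS G hG
  rw [aeval_smul' G e he, mul_eq_zero]
  exact ⟨fun h => h.resolve_left (pow_ne_zero e ha), Or.inr⟩

lemma Zr.comp {n : ℕ} {S : Set (MvPolynomial (Fin (n + 1)) ℤ)} {K L : Type*} [Field K] [Field L] (f : K →+* L) (v : Fin (n + 1) → K) :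
    Zr S (fun i => f (v i)) ↔ Zr S v := by
  refine forall₂_congr fun G hG => ?_
  rw [aeval_comp f v G]
  exact map_eq_zero f

section big

variable (p : ℕ) [hp : Fact p.Prime]

/-- The image of a finite field is the set of the solutions of `x ^ q = x`. -/
lemma fix_iff {K L : Type*} [Field K] [Fintype K] [Field L] (f : K →+* L) (x : L) : x ^ Fintype.card K = x ↔ ∃ y, f y = x := by
  classical
  obtain ⟨Q, hQ⟩ : ∃ Q : Polynomial L, Q = Polynomial.X ^ Fintype.card K - Polynomial.X := ⟨_, rfl⟩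
  have hlt : 1 < Fintype.card K := Fintype.one_lt_card
  have hQ0 : Q ≠ 0 := by
    rw [hQ]
    exact FiniteField.X_pow_card_sub_X_ne_zero _ hlt
  have hQd : Q.natDegree = Fintype.card K := by
    rw [hQ]
    exact FiniteField.X_pow_card_sub_X_natDegree_eq _ hlt
  have hpow : ∀ y : K, f y ^ Fintype.card K = f y := by
    intro y
    rw [← map_pow, FiniteField.pow_card]
  constructor
  · intro hx
    have h1 : (univ.image f) ⊆ Q.roots.toFinset := by
      intro z hz
      rw [mem_image] at hz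
      obtain ⟨y, _, rfl⟩ := hz
      rw [Multiset.mem_toFinset, Polynomial.mem_roots hQ0, Polynomial.IsRoot, hQ]
      simp [hpow]
    have h2 : Q.roots.toFinset.card ≤ (univ.image f).card := by
      rw [card_image_of_injective _ f.injective, card_univ, ← hQd]
      exact (Multiset.toFinset_card_le _).trans (Polynomial.card_roots' Q)
    have h3 := eq_of_subset_of_card_le h1 h2
    have h4 : x ∈ Q.roots.toFinset := by
      rw [Multiset.mem_toFinset, Polynomial.mem_roots hQ0, Polynomial.IsRoot, hQ]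
      simp [hx]
    rw [← h3, mem_image] at h4
    obtain ⟨y, _, hy⟩ := h4
    exact ⟨y, hy⟩
  · rintro ⟨y, rfl⟩
    exact hpow y

/-- The subfield with `p ^ k` elements. -/
lemma exists_emb {k M : ℕ} (hk : k ≠ 0) (hM : M ≠ 0) (hkM : k ∣ M) :
    ∃ ι : GaloisField p k →+* GaloisField p M, ∀ x : GaloisField p M, x ^ p ^ k = x ↔ ∃ y, ι y = x := by
  classical
  obtain ⟨f⟩ := FiniteField.nonempty_algHom_of_finrank_dvd (F := ZMod p) (K := GaloisField p k) (L := GaloisField p M) (by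
    rw [GaloisField.finrank p hk, GaloisField.finrank p hM]
    exact hkM)
  have : Fintype (GaloisField p k) := Fintype.ofFinite _
  have hc : Fintype.card (GaloisField p k) = p ^ k := by
    rw [← Nat.card_eq_fintype_card]
    exact GaloisField.card p k hk
  refine ⟨f, fun x => ?_⟩
  have h1 := fix_iff (f : GaloisField p k →+* GaloisField p M) x
  rw [hc] at h1
  exact h1

lemma card_fix {k M : ℕ} (hk : k ≠ 0) (hM : M ≠ 0) (hkM : k ∣ M) :
    Nat.card {x : GaloisField p M // x ^ p ^ k = x} = p ^ k := by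
  obtain ⟨ι, hι⟩ := exists_emb p hk hM hkM
  refine Eq.trans ?_ (GaloisField.card p k hk)
  symm
  refine Nat.card_congr (Equiv.ofBijective (fun y => ⟨ι y, (hι _).2 ⟨y, rfl⟩⟩) ⟨fun a b h => ι.injective (congrArg Subtype.val h), ?_⟩)
  rintro ⟨x, hx⟩
  obtain ⟨y, hy⟩ := (hι x).1 hx
  exact ⟨y, Subtype.ext hy⟩

/-- **The points over the field with `p ^ k` elements.** -/
lemma card_points {n : ℕ} {k M : ℕ} (hk : k ≠ 0) (hM : M ≠ 0) (hkM : k ∣ M) (ZK : (Fin (n + 1) → GaloisField p k) → Prop)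
    (ZL : (Fin (n + 1) → GaloisField p M) → Prop) (h1 : ∀ (a : GaloisField p k) (v : Fin (n + 1) → GaloisField p k), a ≠ 0 → (ZK (a • v) ↔ ZK v))
    (h2 : ∀ (ι : GaloisField p k →+* GaloisField p M) (v : Fin (n + 1) → GaloisField p k), ZL (fun i => ι (v i)) ↔ ZK v) :
    Nat.card {P : ℙ (GaloisField p k) (Fin (n + 1) → GaloisField p k) // ZK P.rep} =
      Nat.card {v : Fin (n + 1) → GaloisField p M // Nrm v ∧ (∀ i, v i ^ p ^ k = v i) ∧ ZL v} := by
  rw [card_proj_eq ZK h1]
  obtain ⟨ι, hι⟩ := exists_emb p hk hM hkM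
  refine Nat.card_congr (Equiv.ofBijective (fun v => ⟨fun i => ι (v.1 i), ?_, fun i => (hι _).2 ⟨v.1 i, rfl⟩, (h2 ι v.1).2 v.2.2⟩) ⟨?_, ?_⟩)
  · obtain ⟨i, hi, hi'⟩ := v.2.1
    exact ⟨i, (congrArg ι hi).trans (map_one ι), fun j hj => (congrArg ι (hi' j hj)).trans (map_zero ι)⟩
  · rintro ⟨v, hv⟩ ⟨w, hw⟩ h
    refine Subtype.ext (funext fun i => ι.injective (congrFun (congrArg Subtype.val h) i))
  · rintro ⟨x, hx1, hx2, hx3⟩
    choose y hy using fun i => (hι (x i)).1 (hx2 i)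
    have hxy : x = fun i => ι (y i) := funext fun i => (hy i).symm
    refine ⟨⟨y, ?_, ?_⟩, Subtype.ext hxy.symm⟩
    · obtain ⟨i, hi, hi'⟩ := hx1
      exact ⟨i, ι.injective (by rw [hy, hi, map_one]), fun j hj => ι.injective (by rw [hy, hi' j hj, map_zero])⟩
    · rw [hxy] at hx3
      exact (h2 ι y).1 hx3

end big

end H41N.JT
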