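import Pool.Agent.H41N.JT.Lim
import Pool.Agent.W788.MFP.Gm

/-!
# The limit values are integrals over independent normal variables
-/

set_option autoImplicit false
set_option linter.unusedSectionVars false

namespace H41N.JT

open Finset MeasureTheory ProbabilityTheory
open Q282MM (gm)
open Pool.Agent.W788.MFP

lemma gm_succ (n : ℕ) : gm (n + 1) = n * gm (n - 1) := by
  unfold gm
  rcases n with _ | n
  · simp
  · simp only [Nat.add_sub_cancel]
    by_cases h : Even n
    · rw [if_pos (by rw [show n + 1 + 1 = n + 2 by rfl]; exact h.add even_two), if_pos h]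
      rcases n with _ | n
      · simp [Nat.doubleFactorial]
      · rw [Nat.add_sub_cancel]
        exact Nat.doubleFactorial_add_two n
    · rw [if_neg (by rw [show n + 1 + 1 = n + 2 by rfl]; exact fun h' => h ((Nat.even_add.1 h').2 even_two)), if_neg h, mul_zero]

lemma moment (k : ℕ) : ∫ x, x ^ k ∂(gaussianReal 0 1) = (gm k : ℝ) := by
  induction k using Nat.strong_induction_on with
  | _ k ih =>
    rcases k with _ | k
    · simp [gm]
    · rw [Gm.rec k, gm_succ]
      push_cast
      rcases k with _ | k
      · simp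
      · rw [ih (k + 1 - 1) (by omega)]

lemma int_p (P : Polynomial ℝ) : Integrable (fun y => P.eval y) (gaussianReal 0 1) := by
  induction P using Polynomial.induction_on' with
  | add p q hp hq =>
    simp only [Polynomial.eval_add]
    exact hp.add hq
  | monomial n a =>
    simp only [Polynomial.eval_monomial]
    exact (Gm.int_pow n).const_mul a

/-- the one dimensional integrals -/
noncomputable def fI (d a m : ℕ) : ℝ := ∫ y, (eta d + Real.sqrt d * y) ^ a * (y / Real.sqrt d) ^ m ∂(gaussianReal 0 1)

lemma int_fI (d a m : ℕ) : Integrable (fun y : ℝ => (eta d + Real.sqrt d * y) ^ a * (y / Real.sqrt d) ^ m) (gaussianReal 0 1) := by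
  have h := int_p ((Polynomial.C (eta d) + Polynomial.C (Real.sqrt d) * Polynomial.X) ^ a * (Polynomial.C (Real.sqrt d)⁻¹ * Polynomial.X) ^ m)
  refine h.congr (Filter.Eventually.of_forall fun y => ?_)
  simp only [Polynomial.eval_mul, Polynomial.eval_pow, Polynomial.eval_add, Polynomial.eval_C, Polynomial.eval_X]
  rw [div_eq_inv_mul]

lemma fI_succ (d a m : ℕ) (hd : 1 ≤ d) : fI d (a + 1) m = d * fI d a (m + 1) + eta d * fI d a m := by
  have hs : Real.sqrt d ≠ 0 := (Real.sqrt_pos.2 (by exact_mod_cast hd)).ne'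
  have hss : Real.sqrt d * Real.sqrt d = d := Real.mul_self_sqrt (Nat.cast_nonneg d)
  unfold fI
  rw [← integral_const_mul, ← integral_const_mul, ← integral_add ((int_fI d a (m + 1)).const_mul _) ((int_fI d a m).const_mul _)]
  refine integral_congr_ae (Filter.Eventually.of_forall fun y => ?_)
  dsimp only
  rw [pow_succ, pow_succ (y / Real.sqrt d)]
  have h1 : (d : ℝ) * (y / Real.sqrt d) = Real.sqrt d * y := by
    calc (d : ℝ) * (y / Real.sqrt d) = (Real.sqrt d * Real.sqrt d) * (y / Real.sqrt d) := by rw [hss]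
      _ = Real.sqrt d * y := by field_simp
  calc (eta d + Real.sqrt d * y) ^ a * (eta d + Real.sqrt d * y) * (y / Real.sqrt d) ^ m =
      (eta d + Real.sqrt d * y) ^ a * (y / Real.sqrt d) ^ m * (Real.sqrt d * y) + eta d * ((eta d + Real.sqrt d * y) ^ a * (y / Real.sqrt d) ^ m) := by ring
    _ = (eta d + Real.sqrt d * y) ^ a * (y / Real.sqrt d) ^ m * ((d : ℝ) * (y / Real.sqrt d)) + eta d * ((eta d + Real.sqrt d * y) ^ a * (y / Real.sqrt d) ^ m) := by
      rw [h1]
    _ = _ := by ring

lemma fI_zero (d m : ℕ) : fI d 0 m = (gm m : ℝ) / Real.sqrt d ^ m := by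
  unfold fI
  simp only [pow_zero, one_mul, div_pow]
  rw [integral_div, moment]

/-- **The limit values.** -/
theorem EE_eq (r : ℕ) (l : List ℕ) : (∀ k ∈ l, k ∈ Icc 1 r) → ∀ m : ℕ → ℕ, EE r l m = ∏ d ∈ Icc 1 r, fI d (l.count d) (m d) := by
  induction l with
  | nil =>
    intro _ m
    unfold EE
    exact prod_congr rfl fun d _ => by rw [List.count_nil, fI_zero]
  | cons k l ih =>
    intro hl m
    have hk := hl k List.mem_cons_self
    have ih' := ih fun j hj => hl j (List.mem_cons_of_mem _ hj)
    show (k : ℝ) * EE r l (Function.update m k (m k + 1)) + eta k * EE r l m = _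
    rw [ih', ih', ← mul_prod_erase _ _ hk, ← mul_prod_erase _ _ hk, ← mul_prod_erase _ _ hk, Function.update_self]
    have h1 : ∀ d ∈ (Icc 1 r).erase k, fI d (l.count d) (Function.update m k (m k + 1) d) = fI d (l.count d) (m d) := fun d hd => by
      rw [Function.update_of_ne (ne_of_mem_erase hd)]
    have h2 : ∀ d ∈ (Icc 1 r).erase k, fI d ((k :: l).count d) (m d) = fI d (l.count d) (m d) := fun d hd => by
      rw [List.count_cons_of_ne (ne_of_mem_erase hd).symm]
    rw [prod_congr rfl h1, prod_congr rfl h2, List.count_cons_self, fI_succ k _ _ (mem_Icc.1 hk).1]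
    ring

/-- a list with given multiplicities -/
lemma exists_list (r : ℕ) (a : ℕ → ℕ) : ∃ l : List ℕ, (∀ k ∈ l, k ∈ Icc 1 r) ∧ ∀ k ∈ Icc 1 r, l.count k = a k := by
  induction r with
  | zero => exact ⟨[], by simp, by simp⟩
  | succ r ih =>
    obtain ⟨l, hl1, hl2⟩ := ih
    refine ⟨List.replicate (a (r + 1)) (r + 1) ++ l, fun k hk => ?_, fun k hk => ?_⟩
    · rw [List.mem_append, List.mem_replicate] at hk
      rcases hk with hk | hk
      · rw [hk.2, mem_Icc]
        omega
      · have := mem_Icc.1 (hl1 k hk)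
        rw [mem_Icc]
        omega
    · rw [List.count_append, List.count_replicate]
      rw [mem_Icc] at hk
      by_cases h : k = r + 1
      · subst h
        have h0 : l.count (r + 1) = 0 := by
          rw [List.count_eq_zero]
          intro h'
          have := mem_Icc.1 (hl1 _ h')
          omega
        rw [h0]
        simp
      · have h' : ((r + 1) == k) = false := by
          rw [beq_eq_false_iff_ne]
          exact fun h' => h h'.symm
        rw [h']
        simp only [Bool.false_eq_true, if_false, zero_add]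
        exact hl2 k (mem_Icc.2 (by omega))

lemma list_prod (r : ℕ) (l : List ℕ) (hl : ∀ k ∈ l, k ∈ Icc 1 r) (f : ℕ → ℝ) : (l.map f).prod = ∏ k ∈ Icc 1 r, f k ^ l.count k := by
  rw [Finset.prod_list_map_count]
  refine prod_subset (fun k hk => hl k (List.mem_toFinset.1 hk)) fun k _ hk => ?_
  rw [List.mem_toFinset] at hk
  rw [List.count_eq_zero.2 hk, pow_zero]

lemma list_sum (r : ℕ) (l : List ℕ) (hl : ∀ k ∈ l, k ∈ Icc 1 r) : l.sum = ∑ k ∈ Icc 1 r, k * l.count k := by
  rw [Finset.sum_list_count]
  refine (sum_congr rfl fun k _ => ?_).trans (sum_subset (fun k hk => hl k (List.mem_toFinset.1 hk)) fun k _ hk => ?_)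
  · rw [smul_eq_mul, mul_comm]
  · rw [List.mem_toFinset] at hk
    rw [List.count_eq_zero.2 hk, mul_zero]

end H41N.JT
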