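import Pool.Agent.Q285.HS.Law
import Pool.Agent.H41N.JT.Gau

/-!
# The law over the primes, for almost all members
-/

set_option autoImplicit false
set_option linter.unusedSectionVars false

namespace H41N.JT

open Finset Filter
open Q282.CL
open Q282.GK (kbox)
open Q282MM (gm)
open Q285HS (FewBad VV IV lln)

/-- the monomial -/
noncomputable def mono {w : ℕ} (a : Fin w → ℕ) (z : ℕ → ℝ) : ℝ := ∏ i : Fin w, z (i + 1) ^ a i

/-- the weight -/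
def wF {w : ℕ} (a : Fin w → ℕ) : ℕ := ∑ i : Fin w, ((i : ℕ) + 1) * a i

/-- the mean of the monomial -/
noncomputable def EG {w : ℕ} (a : Fin w → ℕ) : ℝ := ∏ i : Fin w, fI (i + 1) (a i) 0

lemma prod_Icc_fin (w : ℕ) (f : ℕ → ℝ) : ∏ k ∈ Icc 1 w, f k = ∏ i : Fin w, f (i + 1) := by
  rw [Fin.prod_univ_eq_prod_range (fun i => f (i + 1)) w]
  have h : Icc 1 w = (range w).image (· + 1) := by
    ext k
    rw [mem_Icc, mem_image]
    constructor
    · intro hk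
      exact ⟨k - 1, mem_range.2 (by omega), by omega⟩
    · rintro ⟨i, hi, rfl⟩
      have := mem_range.1 hi
      omega
  rw [h, prod_image fun a _ b _ hab => by omega]

lemma sum_Icc_fin (w : ℕ) (f : ℕ → ℕ) : ∑ k ∈ Icc 1 w, f k = ∑ i : Fin w, f (i + 1) := by
  rw [Fin.sum_univ_eq_sum_range (fun i => f (i + 1)) w]
  have h : Icc 1 w = (range w).image (· + 1) := by
    ext k
    rw [mem_Icc, mem_image]
    constructor
    · intro hk
      exact ⟨k - 1, mem_range.2 (by omega), by omega⟩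
    · rintro ⟨i, hi, rfl⟩
      have := mem_range.1 hi
      omega
  rw [h, sum_image fun a _ b _ hab => by omega]

variable {κ : Type} [Fintype κ] [DecidableEq κ]

/-- the joint moments of weight at most `2 w` are nearly those of independent normal variables -/
structure JM (Z : (p : ℕ) → ℕ → (κ → ZMod p) → ℝ) (w β : ℕ) (K : ℝ) : Prop where
  one : 1 ≤ K
  bd : ∀ p : ℕ, p.Prime → ∀ k ∈ Icc 1 w, ∀ u, |Z p k u| ≤ K * (p : ℝ) ^ β
  mom : ∀ l : List ℕ, (∀ k ∈ l, k ∈ Icc 1 w) → l.sum ≤ 2 * w → ∃ (K : ℝ) (p₁ : ℕ), 1 ≤ K ∧ ∀ p : ℕ, ∀ _ : Fact p.Prime, p₁ ≤ p →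
    |av (fun u => (l.map fun k => Z p k u).prod) - EE w l 0| ≤ K / Real.sqrt p

variable {Z : (p : ℕ) → ℕ → (κ → ZMod p) → ℝ} {w β : ℕ} {K : ℝ}

lemma JM.mono_mom (h : JM Z w β K) (a : Fin w → ℕ) (ha : wF a ≤ 2 * w) : ∃ (K : ℝ) (p₁ : ℕ), 1 ≤ K ∧ ∀ p : ℕ, ∀ _ : Fact p.Prime, p₁ ≤ p →
    |av (fun u => mono a fun k => Z p k u) - EG a| ≤ K / Real.sqrt p := by
  obtain ⟨a', ha'⟩ : ∃ a' : ℕ → ℕ, a' = fun k => if h : k - 1 < w then a ⟨k - 1, h⟩ else 0 := ⟨_, rfl⟩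
  have haa : ∀ i : Fin w, a' (i + 1) = a i := by
    intro i
    rw [ha']
    dsimp only
    rw [dif_pos (by simp)]
    congr 1
  obtain ⟨l, hl1, hl2⟩ := exists_list w a'
  have hsum : l.sum = wF a := by
    rw [list_sum w l hl1, sum_congr rfl fun k hk => by rw [hl2 k hk], sum_Icc_fin w fun k => k * a' k]
    unfold wF
    exact sum_congr rfl fun i _ => by rw [haa]
  have hprod : ∀ z : ℕ → ℝ, (l.map z).prod = mono a z := by
    intro z
    rw [list_prod w l hl1, prod_congr rfl fun k hk => by rw [hl2 k hk], prod_Icc_fin w fun k => z k ^ a' k]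
    unfold mono
    exact prod_congr rfl fun i _ => by rw [haa]
  have hEE : EE w l 0 = EG a := by
    rw [EE_eq w l hl1, prod_congr rfl fun k hk => by rw [hl2 k hk]]
    rw [prod_Icc_fin w fun k => fI k (a' k) ((0 : ℕ → ℕ) k)]
    unfold EG
    exact prod_congr rfl fun i _ => by rw [haa]; rfl
  obtain ⟨K', p₁, hK', hm⟩ := h.mom l hl1 (by rw [hsum]; exact ha)
  refine ⟨K', p₁, hK', fun p hp hpp => ?_⟩
  have h1 := hm p hp hpp
  rw [hEE] at h1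
  simp only [hprod] at h1
  exact h1

lemma JM.mono_bd (h : JM Z w β K) (a : Fin w → ℕ) : ∃ (K' : ℝ) (β' : ℕ), 1 ≤ K' ∧ ∀ p : ℕ, p.Prime → ∀ u, |mono a fun k => Z p k u| ≤ K' * (p : ℝ) ^ β' := by
  have hK := h.one
  refine ⟨K ^ (∑ i, a i), β * ∑ i, a i, one_le_pow₀ hK, fun p hp u => ?_⟩
  unfold mono
  rw [abs_prod, pow_mul, ← mul_pow, ← prod_pow_eq_pow_sum]
  refine prod_le_prod (fun _ _ => abs_nonneg _) fun i _ => ?_
  rw [abs_pow]
  exact pow_le_pow_left₀ (abs_nonneg _) (h.bd p hp _ (mem_Icc.2 ⟨by omega, by omega⟩) u) _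

open Classical in
/-- the centred monomials at the good primes -/
noncomputable def Gm' (Z : (p : ℕ) → ℕ → (κ → ZMod p) → ℝ) {w : ℕ} (a : Fin w → ℕ) (Bad : (p : ℕ) → Set (κ → ZMod p)) (p : ℕ) (u : κ → ZMod p) : ℝ :=
  if u ∈ Bad p then 0 else (mono a fun k => Z p k u) - EG a

lemma mono_two (a : Fin w → ℕ) (z : ℕ → ℝ) : mono a z ^ 2 = mono (fun i => 2 * a i) z := by
  unfold mono
  rw [← prod_pow]
  exact prod_congr rfl fun i _ => by rw [← pow_mul, mul_comm]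

lemma wF_two (a : Fin w → ℕ) : wF (fun i => 2 * a i) = 2 * wF a := by
  unfold wF
  rw [mul_sum]
  exact sum_congr rfl fun i _ => by ring

lemma Gm_mean (hH : JM Z w β K) (Bad : (p : ℕ) → Set (κ → ZMod p)) {p₀ : ℕ} {C₀ : ℝ} (hBad : FewBad Bad p₀ C₀) (a : Fin w → ℕ) (ha : wF a ≤ w) :
    ∃ (K : ℝ) (p₁ : ℕ), 1 ≤ K ∧ ∀ p : ℕ, p.Prime → p₁ ≤ p →
      |mn (Gm' Z a Bad) p - 0| ≤ K / Real.sqrt p ∧ mn (fun p u => Gm' Z a Bad p u ^ 2) p ≤ K := by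
  classical
  obtain ⟨K₁, p₁, hK₁, hm1⟩ := hH.mono_mom a (by omega)
  obtain ⟨K₂, p₂, hK₂, hm2⟩ := hH.mono_mom (fun i => 2 * a i) (by rw [wF_two]; omega)
  obtain ⟨M, hM⟩ : ∃ M : ℝ, M = 2 * (|EG fun i => 2 * a i| + K₂) + 2 * (EG a) ^ 2 := ⟨_, rfl⟩
  have hM0 : 2 ≤ M := by
    rw [hM]
    have : (0 : ℝ) ≤ |EG fun i => 2 * a i| := abs_nonneg _
    nlinarith [sq_nonneg (EG a)]
  refine ⟨K₁ + M + |C₀|, max p₀ (max p₁ p₂), by linarith [abs_nonneg C₀], fun p hpr hp => ?_⟩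
  have hF : Fact p.Prime := ⟨hpr⟩
  have hpp₀ : p₀ ≤ p := (le_max_left _ _).trans hp
  have hpp₁ : p₁ ≤ p := ((le_max_left _ _).trans (le_max_right _ _)).trans hp
  have hpp₂ : p₂ ≤ p := ((le_max_right _ _).trans (le_max_right _ _)).trans hp
  have hp1 : (1 : ℝ) ≤ p := by exact_mod_cast hpr.one_lt.le
  have hp0 : (0 : ℝ) < p := by linarith
  have hs0 : 0 < Real.sqrt p := Real.sqrt_pos.2 hp0
  have hs1 : 1 ≤ Real.sqrt p := Real.one_le_sqrt.2 hp1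
  have hss : Real.sqrt p * Real.sqrt p = p := Real.mul_self_sqrt hp0.le
  have h1 := hm1 p hF hpp₁
  have h2 := hm2 p hF hpp₂
  have hKs : K₂ / Real.sqrt p ≤ K₂ := div_le_self (by linarith) hs1
  -- the second moment
  obtain ⟨f, hf⟩ : ∃ f : (κ → ZMod p) → ℝ, f = fun c => (mono a fun k => Z p k c) - EG a := ⟨_, rfl⟩
  have hf2 : av (fun c => f c ^ 2) ≤ M := by
    have h3 : ∀ c, f c ^ 2 ≤ 2 * (mono (fun i => 2 * a i) fun k => Z p k c) + 2 * (EG a) ^ 2 := by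
      intro c
      rw [hf]
      dsimp only
      rw [← mono_two]
      nlinarith [sq_nonneg ((mono a fun k => Z p k c) + EG a)]
    refine (av_mono h3).trans ?_
    rw [av_add, av_mul, av_const]
    rw [abs_le] at h2
    rw [hM]
    have := le_abs_self (EG fun i => 2 * a i)
    linarith [h2.2]
  have hG2 : mn (fun p u => Gm' Z a Bad p u ^ 2) p ≤ M := by
    rw [mn_eq (fun p u => Gm' Z a Bad p u ^ 2)]
    refine le_trans (av_mono fun c => ?_) hf2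
    unfold Gm'
    split_ifs
    · rw [zero_pow two_ne_zero]
      exact sq_nonneg _
    · rw [hf]
  refine ⟨?_, by linarith [abs_nonneg C₀]⟩
  -- the mean
  rw [sub_zero, mn_eq]
  have h3 : ∀ c : κ → ZMod p, |Gm' Z a Bad p c - f c| ≤ (1 / (2 * Real.sqrt p)) * f c ^ 2 + (Real.sqrt p / 2) * (if c ∈ Bad p then 1 else 0) := by
    intro c
    unfold Gm'
    split_ifs with hc
    · rw [zero_sub, abs_neg, mul_one]
      have h4 : 0 ≤ (1 / (2 * Real.sqrt p)) * (|f c| - Real.sqrt p) ^ 2 := by positivity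
      have h5 : (1 / (2 * Real.sqrt p)) * (|f c| - Real.sqrt p) ^ 2 = (1 / (2 * Real.sqrt p)) * f c ^ 2 - |f c| + Real.sqrt p / 2 := by
        rw [sub_sq, sq_abs]
        field_simp
      linarith
    · rw [hf, sub_self, abs_zero]
      positivity
  have h4 : av (fun c : κ → ZMod p => (if c ∈ Bad p then (1 : ℝ) else 0)) ≤ |C₀| / p := by
    unfold av
    rw [Fintype.card_fun, ZMod.card, sum_boole]
    push_cast
    rw [div_le_iff₀ (by positivity)]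
    have h5 := hBad p hpr hpp₀
    have h6 : (univ.filter fun c : κ → ZMod p => c ∈ Bad p).card = (Bad p).ncard := by
      rw [← Set.ncard_coe_finset]
      congr 1
      ext c
      simp
    rw [h6]
    refine h5.trans ?_
    refine mul_le_mul_of_nonneg_right (div_le_div_of_nonneg_right (le_abs_self _) hp0.le) (by positivity)
  have h5 : |av (Gm' Z a Bad p) - av f| ≤ (1 / (2 * Real.sqrt p)) * M + (Real.sqrt p / 2) * (|C₀| / p) := by
    rw [← av_sub]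
    refine (abs_av_le _).trans ?_
    refine (av_mono h3).trans ?_
    rw [av_add, av_mul, av_mul]
    have h6 : (1 / (2 * Real.sqrt p)) * av (fun c => f c ^ 2) ≤ (1 / (2 * Real.sqrt p)) * M := mul_le_mul_of_nonneg_left hf2 (by positivity)
    have h7 : (Real.sqrt p / 2) * av (fun c : κ → ZMod p => (if c ∈ Bad p then (1 : ℝ) else 0)) ≤ (Real.sqrt p / 2) * (|C₀| / p) :=
      mul_le_mul_of_nonneg_left h4 (by positivity)
    linarith
  have h6 : |av f| ≤ K₁ / Real.sqrt p := by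
    rw [hf, av_sub, av_const]
    exact h1
  have h7 : (1 / (2 * Real.sqrt p)) * M + (Real.sqrt p / 2) * (|C₀| / p) ≤ (M + |C₀|) / Real.sqrt p := by
    have e1 : (Real.sqrt p / 2) * (|C₀| / p) = (|C₀| / 2) / Real.sqrt p := by
      rw [eq_div_iff hs0.ne']
      have : Real.sqrt p / 2 * (|C₀| / p) * Real.sqrt p = (Real.sqrt p * Real.sqrt p) * (|C₀| / p) / 2 := by ring
      rw [this, hss]
      field_simp
    have e2 : (1 / (2 * Real.sqrt p)) * M = (M / 2) / Real.sqrt p := by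
      field_simp
    rw [e1, e2, ← add_div]
    refine div_le_div_of_nonneg_right ?_ hs0.le
    linarith [abs_nonneg C₀]
  have h8 : (K₁ + M + |C₀|) / Real.sqrt p = K₁ / Real.sqrt p + (M + |C₀|) / Real.sqrt p := by ring
  rw [h8]
  have h9 : |av (Gm' Z a Bad p)| ≤ |av f| + |av (Gm' Z a Bad p) - av f| := by
    have := abs_add_le (av f) (av (Gm' Z a Bad p) - av f)
    rwa [add_sub_cancel] at this
  linarith

/-- **The law for the monomials.** -/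
theorem law_mono (hH : JM Z w β K) (Bad : (p : ℕ) → Set (κ → ZMod p)) {p₀ : ℕ} {C₀ : ℝ} (hBad : FewBad Bad p₀ C₀)
    (ε : ℝ) (hε : 0 < ε) (hε1 : ε ≤ 1) :
    ∃ κ₀ : ℝ, 0 < κ₀ ∧ ∃ C : ℝ, 1 ≤ C ∧ ∀ (S : Set ℕ) (N : κ → ℤ) (L : κ → ℕ) (T : ℝ), 0 < T → (∀ i, T ≤ L i) →
      ∀ X₀ : ℕ, 1 ≤ X₀ → ∃ E : Finset (κ → ℤ), E ⊆ kbox N L ∧ (E.card : ℝ) ≤ C * (X₀ : ℝ) ^ (-(ε / 2)) * ∏ i, (L i : ℝ) ∧
      ∀ t ∈ kbox N L, t ∉ E → ∀ Y Y' : ℕ, Y ≤ Y' → X₀ ≤ Y' → (Y' : ℝ) ≤ T ^ κ₀ →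
        ∀ a : Fin w → ℕ, wF a ≤ w →
          |∑ p ∈ VV Bad S Y Y' t, ((mono a fun k => Z p k (fun y => (t y : ZMod p))) - EG a)| ≤ C * (Y' : ℝ) ^ (1 / 2 + ε / 2) := by
  classical
  have hstep : ∀ a : Fin w → ℕ, ∃ κ₀ : ℝ, 0 < κ₀ ∧ ∃ C : ℝ, 1 ≤ C ∧ (wF a ≤ w → ∀ (v : ℕ → ℝ), (∀ p, |v p| ≤ 1) → ∀ (N : κ → ℤ) (L : κ → ℕ) (T : ℝ),
      0 < T → (∀ i, T ≤ L i) → ∀ X₀ : ℕ, 1 ≤ X₀ → ∃ E : Finset (κ → ℤ), E ⊆ kbox N L ∧ (E.card : ℝ) ≤ C * (X₀ : ℝ) ^ (-(ε / 2)) * ∏ i, (L i : ℝ) ∧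
      ∀ t ∈ kbox N L, t ∉ E → ∀ Y Y' : ℕ, Y ≤ Y' → X₀ ≤ Y' → (Y' : ℝ) ≤ T ^ κ₀ →
        |∑ p ∈ IV Y Y', v p * (Gm' Z a Bad p (fun i => (t i : ZMod p)) - 0)| ≤ C * (Y' : ℝ) ^ (1 / 2 + ε / 2)) := by
    intro a
    by_cases ha : wF a ≤ w
    · obtain ⟨K₂, p₂, hK₂, h1⟩ := Gm_mean hH Bad hBad a ha
      obtain ⟨K₃, β', hK₃, h3⟩ := hH.mono_bd a
      have hKK : K₂ ≤ K₂ + K₃ + |EG a| := by linarith [abs_nonneg (EG a)]
      obtain ⟨κ₀, hκ₀, C, hC, h2⟩ := lln (Gm' Z a Bad) β' p₂ (K₂ + K₃ + |EG a|) 0 (by linarith [abs_nonneg (EG a)]) (fun p hp u => by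
          have hp1 : (1 : ℝ) ≤ (p : ℝ) ^ β' := one_le_pow₀ (by exact_mod_cast hp.one_lt.le)
          have h4 := h3 p hp u
          unfold Gm'
          split_ifs
          · rw [abs_zero]
            have := abs_nonneg (EG a)
            positivity
          · refine (abs_sub _ _).trans ?_
            have h5 : |EG a| ≤ |EG a| * (p : ℝ) ^ β' := le_mul_of_one_le_right (abs_nonneg _) hp1
            have h6 : 0 ≤ K₂ * (p : ℝ) ^ β' := by positivity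
            have h7 : (K₂ + K₃ + |EG a|) * (p : ℝ) ^ β' = K₂ * (p : ℝ) ^ β' + K₃ * (p : ℝ) ^ β' + |EG a| * (p : ℝ) ^ β' := by ring
            rw [h7]
            linarith)
        (fun p hp hpp => ((h1 p hp hpp).1).trans (div_le_div_of_nonneg_right hKK (Real.sqrt_nonneg _)))
        (fun p hp hpp => ((h1 p hp hpp).2).trans hKK) ε hε hε1
      exact ⟨κ₀, hκ₀, C, hC, fun _ => h2⟩
    · exact ⟨1, one_pos, 1, le_rfl, fun h => absurd h ha⟩
  choose κf hκf Cf hCf hstep using hstep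
  obtain ⟨𝒜, h𝒜⟩ : ∃ 𝒜 : Finset (Fin w → ℕ), 𝒜 = (Fintype.piFinset fun _ : Fin w => range (w + 1)).filter fun a => wF a ≤ w := ⟨_, rfl⟩
  have hmem : ∀ a : Fin w → ℕ, a ∈ 𝒜 ↔ wF a ≤ w := by
    intro a
    rw [h𝒜, mem_filter, Fintype.mem_piFinset]
    refine ⟨fun h => h.2, fun h => ⟨fun i => mem_range.2 ?_, h⟩⟩
    have h1 : ((i : ℕ) + 1) * a i ≤ wF a := single_le_sum (f := fun i : Fin w => ((i : ℕ) + 1) * a i) (fun _ _ => Nat.zero_le _) (mem_univ i)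
    have h2 : a i ≤ ((i : ℕ) + 1) * a i := Nat.le_mul_of_pos_left _ (Nat.succ_pos _)
    omega
  obtain ⟨κ₀, hκ₀, hκmin⟩ : ∃ c : ℝ, 0 < c ∧ ∀ a ∈ 𝒜, c ≤ κf a := by
    have : ∀ s : Finset (Fin w → ℕ), ∃ c : ℝ, 0 < c ∧ ∀ k ∈ s, c ≤ κf k := by
      intro s
      induction s using Finset.induction_on with
      | empty => exact ⟨1, one_pos, fun f hf => absurd hf (notMem_empty f)⟩
      | insert x s _ ih =>
        obtain ⟨c, hc, h'⟩ := ih
        refine ⟨min c (κf x), lt_min hc (hκf x), fun y hy => ?_⟩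
        rcases mem_insert.1 hy with rfl | hy
        · exact min_le_right _ _
        · exact (min_le_left _ _).trans (h' y hy)
    exact this _
  obtain ⟨C₂, hC₂⟩ : ∃ C₂ : ℝ, C₂ = 1 + ∑ a ∈ 𝒜, Cf a := ⟨_, rfl⟩
  have hCf0 : ∀ a, 0 ≤ Cf a := fun a => by linarith [hCf a]
  have hCk : ∀ a ∈ 𝒜, Cf a ≤ C₂ := fun a ha => by
    rw [hC₂]
    have := single_le_sum (f := Cf) (fun i _ => hCf0 i) ha
    linarith
  have hC₂1 : 1 ≤ C₂ := by
    rw [hC₂]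
    have := sum_nonneg (f := Cf) (s := 𝒜) fun i _ => hCf0 i
    linarith
  refine ⟨κ₀, hκ₀, C₂, hC₂1, fun S N L T hT hTL X₀ hX₀ => ?_⟩
  have hE : ∀ a : Fin w → ℕ, ∃ E : Finset (κ → ℤ), E ⊆ kbox N L ∧ (wF a ≤ w → (E.card : ℝ) ≤ Cf a * (X₀ : ℝ) ^ (-(ε / 2)) * ∏ i, (L i : ℝ) ∧
      ∀ t ∈ kbox N L, t ∉ E → ∀ Y Y' : ℕ, Y ≤ Y' → X₀ ≤ Y' → (Y' : ℝ) ≤ T ^ (κf a) →
        |∑ p ∈ IV Y Y', (if p ∈ S then (1 : ℝ) else 0) * (Gm' Z a Bad p (fun i => (t i : ZMod p)) - 0)| ≤ Cf a * (Y' : ℝ) ^ (1 / 2 + ε / 2)) := by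
    intro a
    by_cases ha : wF a ≤ w
    · obtain ⟨E, hE1, hE2, hE3⟩ := hstep a ha (fun p => if p ∈ S then (1 : ℝ) else 0) (fun p => by split_ifs <;> simp) N L T hT hTL X₀ hX₀
      exact ⟨E, hE1, fun _ => ⟨hE2, hE3⟩⟩
    · exact ⟨∅, empty_subset _, fun h => absurd h ha⟩
  choose Ef hEf1 hEf2 using hE
  refine ⟨𝒜.biUnion Ef, ?_, ?_, ?_⟩
  · exact biUnion_subset.2 fun a _ => hEf1 a
  · refine le_trans (Nat.cast_le.2 card_biUnion_le) ?_
    push_cast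
    have h1 : ∀ a ∈ 𝒜, ((Ef a).card : ℝ) ≤ Cf a * (X₀ : ℝ) ^ (-(ε / 2)) * ∏ i, (L i : ℝ) := fun a ha =>
      (hEf2 a ((hmem a).1 ha)).1
    refine (sum_le_sum h1).trans ?_
    rw [← sum_mul, ← sum_mul]
    have h2 : (0 : ℝ) ≤ ∏ i, (L i : ℝ) := prod_nonneg fun _ _ => Nat.cast_nonneg _
    refine mul_le_mul_of_nonneg_right (mul_le_mul_of_nonneg_right ?_ (by positivity)) h2
    rw [hC₂]
    linarith
  · intro t ht hnt Y Y' hYY hY hYT a ha
    rw [mem_biUnion] at hnt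
    push Not at hnt
    have hY1 : (1 : ℝ) ≤ Y' := by
      have : 1 ≤ Y' := hX₀.trans hY
      exact_mod_cast this
    have hT1 : 1 ≤ T := by
      by_contra hlt
      push Not at hlt
      have := Real.rpow_lt_one hT.le hlt hκ₀
      linarith
    have ha𝒜 := (hmem a).2 ha
    have h1 := (hEf2 a ha).2 t ht (hnt a ha𝒜) Y Y' hYY hY (hYT.trans (Real.rpow_le_rpow_of_exponent_le hT1 (hκmin a ha𝒜)))
    have h2 : ∑ p ∈ IV Y Y', (if p ∈ S then (1 : ℝ) else 0) * (Gm' Z a Bad p (fun i => (t i : ZMod p)) - 0) =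
        ∑ p ∈ VV Bad S Y Y' t, ((mono a fun k => Z p k (fun y => (t y : ZMod p))) - EG a) := by
      unfold VV
      rw [sum_filter]
      refine sum_congr rfl fun p _ => ?_
      unfold Gm'
      by_cases hS : p ∈ S <;> by_cases hb : (fun x => (t x : ZMod p)) ∈ Bad p <;> simp [hS, hb]
    rw [h2] at h1
    exact h1.trans (mul_le_mul_of_nonneg_right (hCk a ha𝒜) (by positivity))

end H41N.JT
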