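import Pool.Agent.Q282.CL.Abs
import Pool.Agent.Q282.MM.Stm

/-!
# From the closed points of given degree to the traces of the powers of Frobenius
-/

set_option autoImplicit false
set_option linter.unusedSectionVars false

namespace H41N.JT

open Finset
open Q282.CL
open Q282MM (gm)

/-- `1` for even `k`, `0` for odd `k` -/
def eta (k : ℕ) : ℝ := if Even k then 1 else 0

lemma eta_abs (k : ℕ) : |eta k| ≤ 1 := by
  unfold eta
  split_ifs <;> simp

/-- the limit value of `∏_{k ∈ l} z_k ∏_d H_d ^ (m d)` -/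
noncomputable def EE (r : ℕ) : List ℕ → (ℕ → ℕ) → ℝ
  | [], m => ∏ d ∈ Icc 1 r, (gm (m d) : ℝ) / Real.sqrt d ^ m d
  | k :: l, m => k * EE r l (Function.update m k (m k + 1)) + eta k * EE r l m

/-- weight -/
def wt (r : ℕ) (m : ℕ → ℕ) : ℕ := ∑ d ∈ Icc 1 r, d * m d

lemma wt_update (r : ℕ) (m : ℕ → ℕ) (k : ℕ) (hk : k ∈ Icc 1 r) : wt r (Function.update m k (m k + 1)) = wt r m + k := by
  unfold wt
  rw [← add_sum_erase _ _ hk, ← add_sum_erase _ _ hk, Function.update_self]
  have : ∀ d ∈ (Icc 1 r).erase k, d * Function.update m k (m k + 1) d = d * m d := fun d hd => by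
    rw [Function.update_of_ne (ne_of_mem_erase hd)]
  rw [sum_congr rfl this]
  ring

lemma prod_update {K : Type} (r : ℕ) (m : ℕ → ℕ) (k : ℕ) (hk : k ∈ Icc 1 r) (H : ℕ → K → ℝ) (c : K) :
    ∏ d ∈ Icc 1 r, H d c ^ Function.update m k (m k + 1) d = H k c * ∏ d ∈ Icc 1 r, H d c ^ m d := by
  rw [← mul_prod_erase _ _ hk, ← mul_prod_erase _ _ hk, Function.update_self]
  have : ∀ d ∈ (Icc 1 r).erase k, H d c ^ Function.update m k (m k + 1) d = H d c ^ m d := fun d hd => by
    rw [Function.update_of_ne (ne_of_mem_erase hd)]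
  rw [prod_congr rfl this]
  ring

lemma EE_nil_bound (r R : ℕ) : ∃ B : ℝ, 1 ≤ B ∧ ∀ m : ℕ → ℕ, wt r m ≤ R → |EE r [] m| ≤ B := by
  obtain ⟨G, hG⟩ : ∃ G : ℝ, G = 1 + ∑ j ∈ range (R + 1), (gm j : ℝ) := ⟨_, rfl⟩
  have hG1 : 1 ≤ G := by
    rw [hG]
    have : 0 ≤ ∑ j ∈ range (R + 1), (gm j : ℝ) := sum_nonneg fun _ _ => Nat.cast_nonneg _
    linarith
  refine ⟨G ^ r, one_le_pow₀ hG1, fun m hm => ?_⟩
  unfold EE
  rw [abs_prod]
  have h1 : ∀ d ∈ Icc 1 r, |(gm (m d) : ℝ) / Real.sqrt d ^ m d| ≤ G := by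
    intro d hd
    have hd1 : (1 : ℝ) ≤ d := by exact_mod_cast (mem_Icc.1 hd).1
    have hs : 1 ≤ Real.sqrt d ^ m d := one_le_pow₀ (Real.one_le_sqrt.2 hd1)
    rw [abs_div, Nat.abs_cast, abs_of_pos (by linarith)]
    refine (div_le_self (Nat.cast_nonneg _) hs).trans ?_
    have h2 : m d ≤ R := by
      have h3 : d * m d ≤ wt r m := single_le_sum (f := fun d => d * m d) (fun _ _ => Nat.zero_le _) hd
      have h4 : 1 * m d ≤ d * m d := Nat.mul_le_mul_right _ (mem_Icc.1 hd).1
      omega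
    have h5 := single_le_sum (f := fun j => (gm j : ℝ)) (fun i _ => Nat.cast_nonneg _) (mem_range.2 (by omega : m d < R + 1))
    rw [hG]
    linarith
  refine (prod_le_prod (fun _ _ => abs_nonneg _) h1).trans ?_
  rw [prod_const, Nat.card_Icc, Nat.add_sub_cancel]

/-- **The joint moments of the `z_k` and the `H_d`.** -/
theorem lim_step (r R : ℕ) (C : ℝ) (hC : 1 ≤ C) (l : List ℕ) : (∀ k ∈ l, k ∈ Icc 1 r) → ∃ C' : ℝ, 1 ≤ C' ∧
    ∀ (K : Type) [Fintype K] [Nonempty K] (t : ℝ) (H z : ℕ → K → ℝ) (lam : ℕ → ℕ → ℝ) (b : ℕ → ℝ), 1 ≤ t →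
      (∀ k ∈ Icc 1 r, ∀ c, z k c = ∑ d ∈ k.divisors, lam k d * H d c + b k) →
      (∀ k ∈ Icc 1 r, lam k k = k) → (∀ k ∈ Icc 1 r, ∀ d ∈ k.properDivisors, |lam k d| ≤ C / t) → (∀ k ∈ Icc 1 r, |b k - eta k| ≤ C / t) →
      (∀ m : ℕ → ℕ, wt r m ≤ R → |av (fun c => ∏ d ∈ Icc 1 r, H d c ^ m d) - ∏ d ∈ Icc 1 r, (gm (m d) : ℝ) / Real.sqrt d ^ m d| ≤ C / t) →
      ∀ m : ℕ → ℕ, l.sum + wt r m ≤ R →
        |av (fun c => (l.map fun k => z k c).prod * ∏ d ∈ Icc 1 r, H d c ^ m d) - EE r l m| ≤ C' / t ∧ |EE r l m| ≤ C' := by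
  induction l with
  | nil =>
    intro _
    obtain ⟨B, hB, hBm⟩ := EE_nil_bound r R
    refine ⟨C + B, by linarith, ?_⟩
    intro K _ _ t H z lam b ht _ _ _ _ hH m hm
    have ht0 : 0 < t := by linarith
    rw [List.sum_nil, zero_add] at hm
    constructor
    · simp only [List.map_nil, List.prod_nil, one_mul]
      refine (hH m hm).trans (div_le_div_of_nonneg_right (by linarith) ht0.le)
    · exact (hBm m hm).trans (by linarith)
  | cons k l ih =>
    intro hl
    obtain ⟨C₀, hC₀, ih⟩ := ih fun j hj => hl j (List.mem_cons_of_mem _ hj)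
    have hk := hl k List.mem_cons_self
    have hk1 : (0 : ℝ) ≤ k := Nat.cast_nonneg k
    refine ⟨k * C₀ + 2 * C₀ + C * (2 * C₀) + k * (C * (2 * C₀)) + C * C₀, ?_, ?_⟩
    · have h1 : 0 ≤ k * C₀ := by positivity
      have h2 : 0 ≤ C * (2 * C₀) := by positivity
      have h3 : 0 ≤ k * (C * (2 * C₀)) := by positivity
      have h4 : 0 ≤ C * C₀ := by positivity
      linarith
    intro K _ _ t H z lam b ht hz hlam1 hlam2 hb hH m hm
    have ht0 : 0 < t := by linarith
    have ih' := ih K t H z lam b ht hz hlam1 hlam2 hb hH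
    rw [List.sum_cons] at hm
    have hkk : 1 ≤ k := (mem_Icc.1 hk).1
    obtain ⟨F, hF⟩ : ∃ F : K → ℝ, F = fun c => (l.map fun k => z k c).prod * ∏ d ∈ Icc 1 r, H d c ^ m d := ⟨_, rfl⟩
    -- the value of `H_d F`
    have hHd : ∀ d ∈ k.divisors, |av (fun c => H d c * F c) - EE r l (Function.update m d (m d + 1))| ≤ C₀ / t ∧
        |EE r l (Function.update m d (m d + 1))| ≤ C₀ := by
      intro d hd
      have hd1 := Nat.divisor_le hd
      have hdr : d ∈ Icc 1 r := mem_Icc.2 ⟨Nat.pos_of_mem_divisors hd, hd1.trans (mem_Icc.1 hk).2⟩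
      have h1 := ih' (Function.update m d (m d + 1)) (by rw [wt_update r m d hdr]; omega)
      have h2 : (fun c => (l.map fun k => z k c).prod * ∏ e ∈ Icc 1 r, H e c ^ Function.update m d (m d + 1) e) = fun c => H d c * F c := by
        funext c
        rw [prod_update r m d hdr, hF]
        ring
      rw [h2] at h1
      exact h1
    have hF0 := ih' m (by omega)
    rw [← hF] at hF0
    have hCt : C₀ / t ≤ C₀ := div_le_self (by linarith) ht
    have hab : ∀ x y : ℝ, |x - y| ≤ C₀ / t → |y| ≤ C₀ → |x| ≤ 2 * C₀ := by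
      intro x y h1 h2
      rw [abs_le] at h1 h2 ⊢
      constructor <;> linarith [h1.1, h1.2, h2.1, h2.2]
    have e1 : (fun c => ((k :: l).map fun k => z k c).prod * ∏ d ∈ Icc 1 r, H d c ^ m d) =
        fun c => ∑ d ∈ k.divisors, lam k d * (H d c * F c) + b k * F c := by
      funext c
      rw [List.map_cons, List.prod_cons, hz k hk c, hF]
      dsimp only
      rw [mul_assoc, add_mul, sum_mul]
      congr 1
      exact sum_congr rfl fun d _ => by ring
    have e2 : av (fun c => ((k :: l).map fun k => z k c).prod * ∏ d ∈ Icc 1 r, H d c ^ m d) =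
        ∑ d ∈ k.divisors, lam k d * av (fun c => H d c * F c) + b k * av F := by
      rw [e1, av_add, av_sum, av_mul]
      congr 1
      exact sum_congr rfl fun d _ => by rw [av_mul]
    have e3 : ∑ d ∈ k.divisors, lam k d * av (fun c => H d c * F c) =
        ∑ d ∈ k.properDivisors, lam k d * av (fun c => H d c * F c) + k * av (fun c => H k c * F c) := by
      rw [← Nat.cons_self_properDivisors (by omega : k ≠ 0), sum_cons, hlam1 k hk, add_comm]
    have hp : |∑ d ∈ k.properDivisors, lam k d * av (fun c => H d c * F c)| ≤ k * (C * (2 * C₀)) / t := by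
      refine (abs_sum_le_sum_abs _ _).trans ?_
      have h1 : ∀ d ∈ k.properDivisors, |lam k d * av (fun c => H d c * F c)| ≤ C * (2 * C₀) / t := by
        intro d hd
        have hd' : d ∈ k.divisors := Nat.mem_divisors.2 ⟨(Nat.mem_properDivisors.1 hd).1, by omega⟩
        rw [abs_mul]
        have h2 := hHd d hd'
        calc |lam k d| * |av (fun c => H d c * F c)| ≤ (C / t) * (2 * C₀) :=
              mul_le_mul (hlam2 k hk d hd) (hab _ _ h2.1 h2.2) (abs_nonneg _) (by positivity)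
          _ = _ := by ring
      refine (sum_le_sum h1).trans ?_
      rw [sum_const, nsmul_eq_mul]
      have h3 : (k.properDivisors.card : ℝ) ≤ k := by
        have h4 : k.properDivisors.card ≤ k := by
          refine (card_le_card (t := range k) fun d hd => mem_range.2 (Nat.mem_properDivisors.1 hd).2).trans ?_
          rw [card_range]
        exact_mod_cast h4
      calc (k.properDivisors.card : ℝ) * (C * (2 * C₀) / t) ≤ k * (C * (2 * C₀) / t) := mul_le_mul_of_nonneg_right h3 (by positivity)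
        _ = _ := by ring
    have hkd : k ∈ k.divisors := Nat.mem_divisors_self k (by omega)
    have h5 := hHd k hkd
    have h6 : |(k : ℝ) * av (fun c => H k c * F c) - k * EE r l (Function.update m k (m k + 1))| ≤ k * C₀ / t := by
      rw [← mul_sub, abs_mul, Nat.abs_cast]
      calc (k : ℝ) * |av (fun c => H k c * F c) - EE r l (Function.update m k (m k + 1))| ≤ k * (C₀ / t) := mul_le_mul_of_nonneg_left h5.1 hk1
        _ = _ := by ring
    have hbk : |b k| ≤ C + 1 := by
      have h7 := hb k hk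
      have h8 := eta_abs k
      have h9 : C / t ≤ C := div_le_self (by linarith) ht
      rw [abs_le] at h7 h8 ⊢
      constructor <;> linarith [h7.1, h7.2, h8.1, h8.2]
    have h7 : |b k * av F - eta k * EE r l m| ≤ (C + 1) * (C₀ / t) + C / t * C₀ := by
      have h8 : b k * av F - eta k * EE r l m = b k * (av F - EE r l m) + (b k - eta k) * EE r l m := by ring
      rw [h8]
      refine (abs_add_le _ _).trans ?_
      rw [abs_mul, abs_mul]
      refine add_le_add ?_ ?_
      · exact mul_le_mul hbk hF0.1 (abs_nonneg _) (by linarith)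
      · exact mul_le_mul (hb k hk) hF0.2 (abs_nonneg _) (by positivity)
    constructor
    · rw [e2, e3]
      show |_ - (k * EE r l (Function.update m k (m k + 1)) + eta k * EE r l m)| ≤ _
      have h9 : (k * C₀ + 2 * C₀ + C * (2 * C₀) + k * (C * (2 * C₀)) + C * C₀) / t =
          k * C₀ / t + 2 * C₀ / t + C * (2 * C₀) / t + k * (C * (2 * C₀)) / t + C * C₀ / t := by ring
      rw [h9]
      have h10 : (C + 1) * (C₀ / t) + C / t * C₀ = C * (2 * C₀) / t + C₀ / t := by ring
      rw [h10] at h7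
      have h11 : 0 ≤ C * C₀ / t := by positivity
      have h12 : 0 ≤ C₀ / t := by positivity
      have h13 : 2 * C₀ / t = 2 * (C₀ / t) := by ring
      rw [h13]
      rw [abs_le] at h6 h7 hp ⊢
      constructor <;> linarith [h6.1, h6.2, h7.1, h7.2, hp.1, hp.2]
    · show |(k : ℝ) * EE r l (Function.update m k (m k + 1)) + eta k * EE r l m| ≤ _
      refine (abs_add_le _ _).trans ?_
      rw [abs_mul, abs_mul, Nat.abs_cast]
      have h8 : (k : ℝ) * |EE r l (Function.update m k (m k + 1))| ≤ k * C₀ := mul_le_mul_of_nonneg_left h5.2 hk1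
      have h9 : |eta k| * |EE r l m| ≤ 1 * C₀ := mul_le_mul (eta_abs k) hF0.2 (abs_nonneg _) (by norm_num)
      have h10 : 0 ≤ C * (2 * C₀) := by positivity
      have h11 : 0 ≤ k * (C * (2 * C₀)) := by positivity
      have h12 : 0 ≤ C * C₀ := by positivity
      linarith

end H41N.JT
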