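import Pool.Agent.H41N.JT.Law2
import Pool.Agent.Q282.MM.Main

/-!
# Polynomials in the traces, linear statistics
-/

set_option autoImplicit false
set_option linter.unusedSectionVars false

namespace H41N.JT

open Finset MeasureTheory ProbabilityTheory
open Q282MM (gm Phi)

variable {w : ℕ}

/-- the law of `w` independent normal variables -/
noncomputable abbrev GG (w : ℕ) : Measure (Fin w → ℝ) := Measure.pi fun _ : Fin w => gaussianReal 0 1

/-- the limit variables -/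
noncomputable def lv (y : Fin w → ℝ) (k : ℕ) : ℝ := eta k + Real.sqrt k * (if h : k - 1 < w then y ⟨k - 1, h⟩ else 0)

lemma lv_succ (y : Fin w → ℝ) (i : Fin w) : lv y (i + 1) = eta (i + 1) + Real.sqrt ((i + 1 : ℕ) : ℝ) * y i := by
  unfold lv
  rw [dif_pos (by simp)]
  congr 3

lemma mono_lv (a : Fin w → ℕ) (y : Fin w → ℝ) : mono a (lv y) = ∏ i : Fin w, (eta (i + 1) + Real.sqrt ((i + 1 : ℕ) : ℝ) * y i) ^ a i := by
  unfold mono
  exact prod_congr rfl fun i _ => by rw [lv_succ]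

lemma int_one (d a : ℕ) : Integrable (fun y : ℝ => (eta d + Real.sqrt d * y) ^ a) (gaussianReal 0 1) := by
  have h := int_fI d a 0
  simpa using h

lemma int_mono (a : Fin w → ℕ) : Integrable (fun y => mono a (lv y)) (GG w) := by
  simp only [mono_lv]
  exact Integrable.fintype_prod (f := fun (i : Fin w) (t : ℝ) => (eta (i + 1) + Real.sqrt ((i + 1 : ℕ) : ℝ) * t) ^ a i) fun i => int_one (i + 1) (a i)

lemma integral_mono (a : Fin w → ℕ) : ∫ y, mono a (lv y) ∂(GG w) = EG a := by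
  simp only [mono_lv]
  rw [integral_fintype_prod_eq_prod (fun (i : Fin w) (t : ℝ) => (eta (i + 1) + Real.sqrt ((i + 1 : ℕ) : ℝ) * t) ^ a i)]
  unfold EG fI
  exact prod_congr rfl fun i _ => by simp

/-- polynomials of weight at most `u`, with coefficients of total absolute value at most `B` -/
def PB (w u : ℕ) (B : ℝ) (f : (ℕ → ℝ) → ℝ) : Prop :=
  ∃ (ι : Type) (_ : Fintype ι) (a : ι → Fin w → ℕ) (c : ι → ℝ), (∀ i, wF (a i) ≤ u) ∧ ∑ i, |c i| ≤ B ∧ ∀ z, f z = ∑ i, c i * mono (a i) z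

lemma PB.nonneg {u : ℕ} {B : ℝ} {f : (ℕ → ℝ) → ℝ} (h : PB w u B f) : 0 ≤ B := by
  obtain ⟨ι, _, a, c, _, h2, _⟩ := h
  exact (sum_nonneg fun _ _ => abs_nonneg _).trans h2

lemma PB.mono' {u u' : ℕ} {B B' : ℝ} {f : (ℕ → ℝ) → ℝ} (h : PB w u B f) (hu : u ≤ u') (hB : B ≤ B') : PB w u' B' f := by
  obtain ⟨ι, hι, a, c, h1, h2, h3⟩ := h
  exact ⟨ι, hι, a, c, fun i => (h1 i).trans hu, h2.trans hB, h3⟩

lemma PB.const (c : ℝ) : PB w 0 |c| fun _ => c := by
  refine ⟨Unit, inferInstance, fun _ => 0, fun _ => c, fun _ => ?_, by simp, fun z => ?_⟩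
  · unfold wF
    simp
  · unfold mono
    simp

lemma PB.var {k : ℕ} (hk : k ∈ Icc 1 w) : PB w k 1 fun z => z k := by
  obtain ⟨h1, h2⟩ := mem_Icc.1 hk
  refine ⟨Unit, inferInstance, fun _ => fun i => if (i : ℕ) + 1 = k then 1 else 0, fun _ => 1, fun _ => ?_, by simp, fun z => ?_⟩
  · unfold wF
    rw [sum_eq_single (⟨k - 1, by omega⟩ : Fin w)]
    · simp only
      rw [if_pos (by omega)]
      omega
    · intro i _ hi
      have h : ¬ (i : ℕ) + 1 = k := fun h => hi (Fin.ext (by simp only; omega))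
      simp only [h, if_false, mul_zero]
    · exact fun h => absurd (mem_univ _) h
  · unfold mono
    rw [univ_unique, sum_singleton, one_mul, prod_eq_single (⟨k - 1, by omega⟩ : Fin w)]
    · simp only
      rw [if_pos (by omega), pow_one]
      congr 1
      omega
    · intro i _ hi
      have h : ¬ (i : ℕ) + 1 = k := fun h => hi (Fin.ext (by simp only; omega))
      simp only [h, if_false, pow_zero]
    · exact fun h => absurd (mem_univ _) h

lemma PB.add {u : ℕ} {B B' : ℝ} {f g : (ℕ → ℝ) → ℝ} (hf : PB w u B f) (hg : PB w u B' g) : PB w u (B + B') fun z => f z + g z := by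
  obtain ⟨ι, _, a, c, h1, h2, h3⟩ := hf
  obtain ⟨ι', _, a', c', h1', h2', h3'⟩ := hg
  refine ⟨ι ⊕ ι', inferInstance, Sum.elim a a', Sum.elim c c', ?_, ?_, fun z => ?_⟩
  · rintro (i | i)
    · exact h1 i
    · exact h1' i
  · rw [Fintype.sum_sum_type]
    exact add_le_add h2 h2'
  · dsimp only
    rw [Fintype.sum_sum_type, h3, h3']
    rfl

lemma PB.mul {u u' : ℕ} {B B' : ℝ} {f g : (ℕ → ℝ) → ℝ} (hf : PB w u B f) (hg : PB w u' B' g) : PB w (u + u') (B * B') fun z => f z * g z := by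
  have hB' := hg.nonneg
  obtain ⟨ι, _, a, c, h1, h2, h3⟩ := hf
  obtain ⟨ι', _, a', c', h1', h2', h3'⟩ := hg
  refine ⟨ι × ι', inferInstance, fun i => fun j => a i.1 j + a' i.2 j, fun i => c i.1 * c' i.2, fun i => ?_, ?_, fun z => ?_⟩
  · have : wF (fun j => a i.1 j + a' i.2 j) = wF (a i.1) + wF (a' i.2) := by
      unfold wF
      rw [← sum_add_distrib]
      exact sum_congr rfl fun j _ => by ring
    rw [this]
    exact add_le_add (h1 _) (h1' _)
  · rw [Fintype.sum_prod_type]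
    simp only [abs_mul]
    rw [← sum_mul_sum]
    exact mul_le_mul h2 h2' (sum_nonneg fun _ _ => abs_nonneg _) ((sum_nonneg fun _ _ => abs_nonneg _).trans h2)
  · dsimp only
    rw [h3, h3', sum_mul_sum, Fintype.sum_prod_type]
    refine sum_congr rfl fun i _ => sum_congr rfl fun j _ => ?_
    have : mono (fun l => a i l + a' j l) z = mono (a i) z * mono (a' j) z := by
      unfold mono
      rw [← prod_mul_distrib]
      exact prod_congr rfl fun l _ => by rw [pow_add]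
    rw [this]
    ring

lemma PB.congr {u : ℕ} {B : ℝ} {f g : (ℕ → ℝ) → ℝ} (hf : PB w u B f) (h : ∀ z, g z = f z) : PB w u B g := by
  have : g = f := funext h
  rw [this]
  exact hf

lemma PB.smul {u : ℕ} {B : ℝ} {f : (ℕ → ℝ) → ℝ} (hf : PB w u B f) (c : ℝ) : PB w u (|c| * B) fun z => c * f z := by
  have h := (PB.const (w := w) c).mul hf
  rwa [zero_add] at h

lemma PB.sum {ι : Type} (s : Finset ι) {u : ℕ} (B : ι → ℝ) (f : ι → (ℕ → ℝ) → ℝ) (h : ∀ i ∈ s, PB w u (B i) (f i)) :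
    PB w u (∑ i ∈ s, B i) fun z => ∑ i ∈ s, f i z := by
  classical
  induction s using Finset.induction_on with
  | empty =>
    simp only [sum_empty]
    have h0 := PB.const (w := w) 0
    rw [abs_zero] at h0
    exact h0.mono' (Nat.zero_le _) le_rfl
  | insert a s ha ih =>
    simp only [sum_insert ha]
    exact (h a (mem_insert_self a s)).add (ih fun i hi => h i (mem_insert_of_mem hi))

lemma PB.pow {u : ℕ} {B : ℝ} {f : (ℕ → ℝ) → ℝ} (hf : PB w u B f) (k : ℕ) : PB w (u * k) (B ^ k) fun z => f z ^ k := by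
  induction k with
  | zero =>
    simp only [pow_zero, mul_zero]
    have h := PB.const (w := w) 1
    rwa [abs_one] at h
  | succ k ih =>
    simp only [pow_succ]
    exact ih.mul hf

lemma PB.int {u : ℕ} {B : ℝ} {f : (ℕ → ℝ) → ℝ} (hf : PB w u B f) : Integrable (fun y : Fin w → ℝ => f (lv y)) (GG w) := by
  obtain ⟨ι, _, a, c, _, _, h3⟩ := hf
  simp only [h3]
  exact integrable_finsetSum _ fun i _ => (int_mono (a i)).const_mul _

/-- **The sum over the primes of a polynomial.** -/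
theorem PB.law {u : ℕ} {B : ℝ} {f : (ℕ → ℝ) → ℝ} (hf : PB w u B f) (hu : u ≤ w) {α : Type} (V : Finset α) (z : α → ℕ → ℝ) (R : ℝ)
    (hV : ∀ a : Fin w → ℕ, wF a ≤ w → |∑ p ∈ V, (mono a (z p) - EG a)| ≤ R) :
    |∑ p ∈ V, (f (z p) - ∫ y, f (lv y) ∂(GG w))| ≤ B * R := by
  obtain ⟨ι, _, a, c, h1, h2, h3⟩ := hf
  have e1 : ∫ y, f (lv y) ∂(GG w) = ∑ i, c i * EG (a i) := by
    simp only [h3]
    rw [integral_finsetSum _ fun i _ => (int_mono (a i)).const_mul _]
    refine sum_congr rfl fun i _ => ?_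
    rw [integral_const_mul, integral_mono]
  have e2 : ∑ p ∈ V, (f (z p) - ∫ y, f (lv y) ∂(GG w)) = ∑ i, c i * ∑ p ∈ V, (mono (a i) (z p) - EG (a i)) := by
    rw [e1]
    simp only [h3, mul_sum]
    rw [sum_comm]
    refine sum_congr rfl fun p _ => ?_
    rw [← sum_sub_distrib]
    exact sum_congr rfl fun i _ => by ring
  rw [e2]
  refine (abs_sum_le_sum_abs _ _).trans ?_
  have hR : 0 ≤ R := (abs_nonneg _).trans (hV 0 (by unfold wF; simp))
  calc ∑ i, |c i * ∑ p ∈ V, (mono (a i) (z p) - EG (a i))| ≤ ∑ i, |c i| * R := by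
        refine sum_le_sum fun i _ => ?_
        rw [abs_mul]
        exact mul_le_mul_of_nonneg_left (hV _ ((h1 i).trans hu)) (abs_nonneg _)
    _ = (∑ i, |c i|) * R := by rw [sum_mul]
    _ ≤ B * R := mul_le_mul_of_nonneg_right h2 hR

/-- a polynomial -/
lemma PB.poly (P : MvPolynomial (Fin w) ℝ) (u : ℕ) (hu : MvPolynomial.weightedTotalDegree (fun i : Fin w => (i : ℕ) + 1) P ≤ u) :
    PB w u (∑ m ∈ P.support, |P.coeff m|) fun z => MvPolynomial.eval (fun i : Fin w => z (i + 1)) P := by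
  classical
  refine ⟨P.support, inferInstance, fun m => m.1, fun m => P.coeff m.1, fun m => ?_, ?_, fun z => ?_⟩
  · have h1 := MvPolynomial.le_weightedTotalDegree (fun i : Fin w => (i : ℕ) + 1) m.2
    have h2 : Finsupp.weight (fun i : Fin w => (i : ℕ) + 1) m.1 = wF (m.1 : Fin w → ℕ) := by
      rw [Finsupp.weight_apply, Finsupp.sum_fintype _ _ (fun i => by simp)]
      unfold wF
      exact sum_congr rfl fun i _ => by rw [smul_eq_mul, mul_comm]
    dsimp only
    omega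
  · rw [sum_coe_sort P.support fun m => |P.coeff m|]
  · dsimp only
    rw [MvPolynomial.eval_eq', ← sum_coe_sort P.support]
    rfl

/-- the moments of linear statistics -/
lemma int_lin (θ : Fin w → ℝ) (k : ℕ) :
    ∫ y, (∑ i, θ i * y i) ^ k ∂(GG w) = Real.sqrt (∑ i, θ i ^ 2) ^ k * (gm k : ℝ) := by
  rw [← Q282MM.comb_true w θ k]
  simp only [sum_pow_eq_sum_piAntidiag]
  have hint : ∀ κ : Fin w → ℕ, Integrable (fun y : Fin w → ℝ => ∏ i, y i ^ κ i) (GG w) := fun κ =>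
    Integrable.fintype_prod (f := fun (i : Fin w) (t : ℝ) => t ^ κ i) fun i => Pool.Agent.W788.MFP.Gm.int_pow _
  have h1 : ∀ (κ : Fin w → ℕ) (y : Fin w → ℝ), (Nat.multinomial univ κ : ℝ) * ∏ i, (θ i * y i) ^ κ i =
      (Nat.multinomial univ κ : ℝ) * (∏ i, θ i ^ κ i) * ∏ i, y i ^ κ i := by
    intro κ y
    simp only [mul_pow, prod_mul_distrib]
    ring
  simp only [h1]
  rw [integral_finsetSum _ fun κ _ => (hint κ).const_mul _]
  refine sum_congr rfl fun κ _ => ?_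
  rw [integral_const_mul, integral_fintype_prod_eq_prod (fun (i : Fin w) (t : ℝ) => t ^ κ i)]
  congr 1
  exact prod_congr rfl fun i _ => moment _

/-- **The distribution functions of linear statistics.** -/
theorem lin_dist (w : ℕ) : ∃ C : ℝ, 0 ≤ C ∧ ∀ (α : Type) (V : Finset α) (z : α → ℕ → ℝ) (ρ : ℝ), V.Nonempty →
    (∀ a : Fin w → ℕ, wF a ≤ w → |∑ p ∈ V, (mono a (z p) - EG a)| ≤ ρ * V.card) →
    ∀ M s : ℕ, 1 ≤ M → 2 * s * M ≤ w → ∀ θ : Fin w → ℝ, (∀ i : Fin w, s ≤ i → θ i = 0) → ∑ i : Fin w, ((i : ℕ) + 1 : ℝ) * θ i ^ 2 = 1 →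
    ∀ x : ℝ, |((V.filter fun p => ∑ i : Fin w, θ i * (z p (i + 1) - eta (i + 1)) ≤ x).card : ℝ) / (V.card : ℝ) - Phi x| ≤
      4 / Real.sqrt M + C * ρ := by
  classical
  have hemp : ∀ M : ℕ, ∃ C : ℝ, 0 ≤ C ∧ (1 ≤ M → ∀ (α : Type) (V : Finset α) (z : α → ℝ) (η : ℝ), V.Nonempty → 0 ≤ η →
      (∀ k ≤ 2 * M, |(∑ v ∈ V, z v ^ k) / (V.card : ℝ) - (gm k : ℝ)| ≤ η) →
      ∀ x : ℝ, |((V.filter fun v => z v ≤ x).card : ℝ) / (V.card : ℝ) - Phi x| ≤ 4 / √(M : ℝ) + C * η) := by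
    intro M
    by_cases hM : 1 ≤ M
    · obtain ⟨C, hC, h, _⟩ := Q282MM.emp Q282MM.fin_true M hM
      exact ⟨C, hC, fun _ => h⟩
    · exact ⟨0, le_rfl, fun h => absurd h hM⟩
  choose Cf hCf hemp using hemp
  obtain ⟨C, hC⟩ : ∃ C : ℝ, C = (∑ M ∈ range (w + 1), Cf M) * (2 * w + 1) ^ (2 * w) := ⟨_, rfl⟩
  have hS0 : 0 ≤ ∑ M ∈ range (w + 1), Cf M := sum_nonneg fun M _ => hCf M
  refine ⟨C, by rw [hC]; positivity, fun α V z ρ hV hmom M s hM hsM θ hθs hθ x => ?_⟩
  have hVc : (0 : ℝ) < V.card := by exact_mod_cast card_pos.2 hV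
  have hρ : 0 ≤ ρ := by
    have h1 := (abs_nonneg _).trans (hmom 0 (by unfold wF; simp))
    by_contra h
    rw [not_le] at h
    nlinarith
  -- `s` is positive
  have hs1 : 1 ≤ s := by
    by_contra h
    have h0 : s = 0 := by omega
    rw [sum_eq_zero fun i _ => by rw [hθs i (by omega)]; ring] at hθ
    exact zero_ne_one hθ
  have hMw : M ≤ w := by nlinarith
  have hMs : 2 * M ≤ 2 * w := by omega
  have hθ1 : ∀ i : Fin w, |θ i| ≤ 1 := by
    intro i
    have h1 : ((i : ℕ) + 1 : ℝ) * θ i ^ 2 ≤ 1 := by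
      refine le_trans ?_ hθ.le
      exact single_le_sum (f := fun i : Fin w => ((i : ℕ) + 1 : ℝ) * θ i ^ 2) (fun i _ => by positivity) (mem_univ i)
    have h2 : θ i ^ 2 ≤ 1 := by
      have h3 : (0 : ℝ) ≤ (i : ℕ) := Nat.cast_nonneg _
      nlinarith [sq_nonneg (θ i)]
    exact (sq_le_one_iff_abs_le_one _).1 h2
  obtain ⟨f, hf⟩ : ∃ f : (ℕ → ℝ) → ℝ, f = fun z => ∑ i : Fin w, θ i * (z (i + 1) - eta (i + 1)) := ⟨_, rfl⟩
  have hfPB : PB w s (2 * w + 1) f := by
    have h1 : ∀ i ∈ (univ : Finset (Fin w)), PB w s 2 fun z : ℕ → ℝ => θ i * (z (i + 1) - eta (i + 1)) := by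
      intro i _
      by_cases hi : s ≤ i
      · rw [hθs i hi]
        simp only [zero_mul]
        have h0 := PB.const (w := w) 0
        rw [abs_zero] at h0
        exact h0.mono' (Nat.zero_le _) (by norm_num)
      · have h2 := ((PB.var (w := w) (k := i + 1) (mem_Icc.2 ⟨by omega, by omega⟩)).add
          ((PB.const (w := w) (-eta (i + 1))).mono' (Nat.zero_le _) (le_refl |-eta (i + 1)|))).smul (θ i)
        refine (h2.congr fun z => by ring).mono' (by omega) ?_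
        have h3 := eta_abs (i + 1)
        rw [abs_neg]
        have h4 := hθ1 i
        have h5 := abs_nonneg (θ i)
        have h6 := abs_nonneg (eta (i + 1))
        nlinarith
    have h2 := PB.sum (univ : Finset (Fin w)) (fun _ => (2 : ℝ)) _ h1
    rw [hf]
    refine h2.mono' le_rfl ?_
    rw [sum_const, card_univ, Fintype.card_fin, nsmul_eq_mul]
    linarith
  have hw0 : (0 : ℝ) ≤ w := Nat.cast_nonneg w
  have hint : ∀ k, ∫ y, f (lv y) ^ k ∂(GG w) = (gm k : ℝ) := by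
    intro k
    have h1 : ∀ y : Fin w → ℝ, f (lv y) = ∑ i, (θ i * Real.sqrt ((i + 1 : ℕ) : ℝ)) * y i := by
      intro y
      rw [hf]
      refine sum_congr rfl fun i _ => ?_
      rw [lv_succ]
      ring
    simp only [h1]
    rw [int_lin]
    have h2 : ∑ i : Fin w, (θ i * Real.sqrt ((i + 1 : ℕ) : ℝ)) ^ 2 = 1 := by
      rw [← hθ]
      refine sum_congr rfl fun i _ => ?_
      rw [mul_pow, Real.sq_sqrt (Nat.cast_nonneg _)]
      push_cast
      ring
    rw [h2, Real.sqrt_one, one_pow, one_mul]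
  have hk : ∀ k ≤ 2 * M, |(∑ p ∈ V, f (z p) ^ k) / (V.card : ℝ) - (gm k : ℝ)| ≤ (2 * w + 1) ^ (2 * w) * ρ := by
    intro k hk
    have h1 := PB.law (hfPB.pow k) (by
      calc s * k ≤ s * (2 * M) := Nat.mul_le_mul_left _ hk
        _ = 2 * s * M := by ring
        _ ≤ w := hsM) V z (ρ * V.card) hmom
    rw [hint k, sum_sub_distrib, sum_const, nsmul_eq_mul] at h1
    have h2 : (∑ p ∈ V, f (z p) ^ k) / (V.card : ℝ) - (gm k : ℝ) = (∑ p ∈ V, f (z p) ^ k - V.card * (gm k : ℝ)) / V.card := by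
      rw [sub_div, mul_div_cancel_left₀ _ hVc.ne']
    rw [h2, abs_div, abs_of_pos hVc, div_le_iff₀ hVc]
    refine h1.trans ?_
    have h3 : (2 * (w : ℝ) + 1) ^ k ≤ (2 * w + 1) ^ (2 * w) := pow_le_pow_right₀ (by linarith) (by omega)
    calc (2 * (w : ℝ) + 1) ^ k * (ρ * V.card) ≤ (2 * w + 1) ^ (2 * w) * (ρ * V.card) := mul_le_mul_of_nonneg_right h3 (by positivity)
      _ = _ := by ring
  have h1 := hemp M hM α V (fun p => f (z p)) ((2 * w + 1) ^ (2 * w) * ρ) hV (by positivity) hk x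
  rw [hf] at h1
  refine h1.trans ?_
  have h2 : Cf M ≤ ∑ M ∈ range (w + 1), Cf M := single_le_sum (f := Cf) (fun i _ => hCf i) (mem_range.2 (by omega))
  have h3 : Cf M * ((2 * w + 1) ^ (2 * w) * ρ) ≤ C * ρ := by
    rw [hC]
    calc Cf M * ((2 * (w : ℝ) + 1) ^ (2 * w) * ρ) ≤ (∑ M ∈ range (w + 1), Cf M) * ((2 * w + 1) ^ (2 * w) * ρ) :=
          mul_le_mul_of_nonneg_right h2 (by positivity)
      _ = _ := by ring
  linarith

end H41N.JT
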