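import Pool.Agent.Y722.HS.Form
import Pool.Agent.H41N.JT.Fld

/-!
# Forms over the prime field with given values at few closed points
-/

set_option autoImplicit false
set_option linter.unusedSectionVars false

namespace H41N.JT

open Finset Function
open Pool.Agent.Y722.HS (Mon mev)

section general

variable {n : ℕ}

/-- the exponent vector of a monomial -/
noncomputable def toFs {D : ℕ} (ν : Mon n D) : Fin (n + 1) →₀ ℕ := Finsupp.equivFunOnFinite.symm (fun i => (ν.1 i : ℕ))

lemma toFs_inj {D : ℕ} : Injective (toFs (n := n) (D := D)) := by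
  intro μ ν h
  have h1 := Finsupp.equivFunOnFinite.symm.injective h
  apply Subtype.ext
  funext i
  exact Fin.ext (congrFun h1 i)

/-- the value of a form, by its coefficients -/
lemma eval_hom {D : ℕ} {R : Type*} [CommRing R] (P : MvPolynomial (Fin (n + 1)) R) (hP : P.IsHomogeneous D) (x : Fin (n + 1) → R) :
    MvPolynomial.eval x P = ∑ ν : Mon n D, P.coeff (toFs ν) * mev x ν := by
  classical
  rw [MvPolynomial.eval_eq']
  have h1 : ∀ ν : Mon n D, P.coeff (toFs ν) * mev x ν =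
      (fun m : Fin (n + 1) →₀ ℕ => P.coeff m * ∏ i, x i ^ m i) (toFs ν) := by
    intro ν
    simp [mev, toFs]
  rw [Finset.sum_congr rfl fun ν _ => h1 ν, ← Finset.sum_image (s := Finset.univ)
    (f := fun m : Fin (n + 1) →₀ ℕ => P.coeff m * ∏ i, x i ^ m i)
    (g := toFs (n := n) (D := D)) (fun a _ b _ h => toFs_inj h)]
  apply Finset.sum_subset
  · intro m hm
    rw [Finset.mem_image]
    have h2 : ∑ i, m i = D := by
      have h3 := hP (MvPolynomial.mem_support_iff.mp hm)
      rw [Finsupp.weight_apply, Finsupp.sum_fintype _ _ (fun i => by simp)] at h3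
      simpa using h3
    refine ⟨⟨fun i => ⟨m i, ?_⟩, h2⟩, Finset.mem_univ _, ?_⟩
    · have := Finset.single_le_sum (f := fun i => m i) (fun i _ => Nat.zero_le _) (mem_univ i)
      omega
    · ext i
      simp [toFs]
  · intro m _ hm
    rw [MvPolynomial.notMem_support_iff.mp hm]
    simp

variable {F : Type*} [Field F]

/-- forms of degree `D` separate a point from `D` others -/
lemma exists_form {D : ℕ} (a : Fin (n + 1) → F) (ha : Nrm a) (T : Finset (Fin (n + 1) → F)) (hT : T.card ≤ D) (hTn : ∀ t ∈ T, Nrm t) (haT : a ∉ T) :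
    ∃ c : Mon n D → F, ∑ ν, c ν * mev a ν ≠ 0 ∧ ∀ t ∈ T, ∑ ν, c ν * mev t ν = 0 := by
  classical
  have hne : ∀ t : T, ∃ i j, a i * t.1 j ≠ a j * t.1 i := by
    intro t
    by_contra hcon
    push Not at hcon
    obtain ⟨j, hj, _⟩ := hTn t t.2
    have h1 : a j • (t : Fin (n + 1) → F) = a := by
      funext i
      rw [Pi.smul_apply, smul_eq_mul, ← hcon i j, hj, mul_one]
    exact haT (ha.eq_of_smul (hTn t t.2) _ h1 ▸ t.2)
  choose i j hij using hne
  obtain ⟨k, hk⟩ : ∃ k, a k ≠ 0 := Function.ne_iff.mp ha.ne_zero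
  obtain ⟨P, hP⟩ : ∃ P : MvPolynomial (Fin (n + 1)) F, P = (∏ t : T, (MvPolynomial.C (t.1 (j t)) * MvPolynomial.X (i t) -
    MvPolynomial.C (t.1 (i t)) * MvPolynomial.X (j t))) * MvPolynomial.X k ^ (D - T.card) := ⟨_, rfl⟩
  have hhom : P.IsHomogeneous D := by
    have h1 : (∏ t : T, (MvPolynomial.C (t.1 (j t)) * MvPolynomial.X (i t) -
        MvPolynomial.C (t.1 (i t)) * MvPolynomial.X (j t)) : MvPolynomial (Fin (n + 1)) F).IsHomogeneous (∑ _t : T, 1) := by
      refine MvPolynomial.IsHomogeneous.prod _ _ _ fun t _ => ?_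
      refine MvPolynomial.IsHomogeneous.sub ?_ ?_
      · exact MvPolynomial.isHomogeneous_C_mul_X _ _
      · exact MvPolynomial.isHomogeneous_C_mul_X _ _
    have h2 := h1.mul (MvPolynomial.isHomogeneous_X_pow (R := F) k (D - T.card))
    rw [hP]
    have h3 : (∑ _t : T, 1) + (D - T.card) = D := by
      rw [sum_const, card_univ, Fintype.card_coe, smul_eq_mul, mul_one]
      omega
    rwa [h3] at h2
  refine ⟨fun ν => P.coeff (toFs ν), ?_, fun t ht => ?_⟩
  · rw [← eval_hom P hhom, hP, map_mul, map_prod, map_pow, MvPolynomial.eval_X]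
    refine mul_ne_zero (prod_ne_zero_iff.2 fun t _ => ?_) (pow_ne_zero _ hk)
    rw [map_sub, map_mul, map_mul, MvPolynomial.eval_C, MvPolynomial.eval_C, MvPolynomial.eval_X, MvPolynomial.eval_X, sub_ne_zero]
    intro h
    apply hij t
    rw [mul_comm, h, mul_comm]
  · rw [← eval_hom P hhom, hP, map_mul, map_prod]
    rw [prod_eq_zero (mem_univ (⟨t, ht⟩ : T)), zero_mul]
    rw [map_sub, map_mul, map_mul, MvPolynomial.eval_C, MvPolynomial.eval_C, MvPolynomial.eval_X, MvPolynomial.eval_X]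
    ring

/-- forms of degree `D` have any values at `D + 1` points -/
lemma exists_form_val {D : ℕ} (T : Finset (Fin (n + 1) → F)) (hT : T.card ≤ D + 1) (hTn : ∀ t ∈ T, Nrm t) (y : (Fin (n + 1) → F) → F) :
    ∃ c : Mon n D → F, ∀ t ∈ T, ∑ ν, c ν * mev t ν = y t := by
  classical
  have h : ∀ a, ∃ c : Mon n D → F, a ∈ T → ∑ ν, c ν * mev a ν ≠ 0 ∧ ∀ t ∈ T.erase a, ∑ ν, c ν * mev t ν = 0 := by
    intro a
    by_cases ha : a ∈ T
    · obtain ⟨c, hc1, hc2⟩ := exists_form (D := D) a (hTn a ha) (T.erase a) (by rw [card_erase_of_mem ha]; omega)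
        (fun t ht => hTn t (erase_subset _ _ ht)) (notMem_erase _ _)
      exact ⟨c, fun _ => ⟨hc1, hc2⟩⟩
    · exact ⟨0, fun h => absurd h ha⟩
  choose c hc using h
  refine ⟨fun ν => ∑ a ∈ T, (y a / ∑ ν, c a ν * mev a ν) * c a ν, fun t ht => ?_⟩
  simp only [sum_mul]
  rw [sum_comm]
  have h1 : ∀ a ∈ T, ∑ ν, y a / (∑ ν, c a ν * mev a ν) * c a ν * mev t ν = (y a / ∑ ν, c a ν * mev a ν) * ∑ ν, c a ν * mev t ν := by
    intro a _
    rw [mul_sum]
    exact sum_congr rfl fun ν _ => by ring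
  rw [sum_congr rfl h1, sum_eq_single t]
  · exact div_mul_cancel₀ _ (hc t ht).1
  · intro a ha hat
    rw [(hc a ha).2 t (mem_erase.2 ⟨fun h => hat h.symm, ht⟩), mul_zero]
  · exact fun h => absurd ht h

end general

section frob

variable (p : ℕ) [hp : Fact p.Prime] {n : ℕ}

/-- Frobenius on vectors -/
def Fr {K : Type*} [Field K] (v : Fin (n + 1) → K) : Fin (n + 1) → K := fun i => v i ^ p

lemma Fr_iter {K : Type*} [Field K] (k : ℕ) (v : Fin (n + 1) → K) : (Fr p)^[k] v = fun i => v i ^ p ^ k := by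
  induction k with
  | zero => simp
  | succ k ih =>
    rw [iterate_succ_apply', ih]
    funext i
    show (v i ^ p ^ k) ^ p = _
    rw [← pow_mul, pow_succ]

lemma mev_iter {K : Type*} [Field K] {D : ℕ} (k : ℕ) (v : Fin (n + 1) → K) (ν : Mon n D) : mev ((Fr p)^[k] v) ν = mev v ν ^ p ^ k := by
  rw [Fr_iter]
  unfold mev
  rw [← prod_pow]
  exact prod_congr rfl fun i _ => by rw [← pow_mul, ← pow_mul, mul_comm]

variable {M : ℕ}

lemma pow_M (hM : M ≠ 0) (x : GaloisField p M) : x ^ p ^ M = x := by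
  have : Fintype (GaloisField p M) := Fintype.ofFinite _
  have hc : Fintype.card (GaloisField p M) = p ^ M := by
    rw [← Nat.card_eq_fintype_card]
    exact GaloisField.card p M hM
  rw [← hc]
  exact FiniteField.pow_card x

lemma pow_mul_M (hM : M ≠ 0) (j : ℕ) (x : GaloisField p M) : x ^ p ^ (M * j) = x := by
  induction j with
  | zero => simp
  | succ j ih => rw [mul_add, mul_one, pow_add, pow_mul, ih, pow_M p hM]

lemma Fr_mul_M (hM : M ≠ 0) (j : ℕ) (v : Fin (n + 1) → GaloisField p M) : (Fr p)^[M * j] v = v := by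
  rw [Fr_iter]
  funext i
  exact pow_mul_M p hM j _

/-- elements of the prime field -/
lemma exists_zmod (x : GaloisField p M) (hx : x ^ p = x) : ∃ c : ZMod p, algebraMap (ZMod p) (GaloisField p M) c = x := by
  have h := fix_iff (algebraMap (ZMod p) (GaloisField p M)) x
  rw [ZMod.card] at h
  exact h.1 hx

/-- **Forms over the prime field with given values at a set of points stable by Frobenius.** -/
lemma exists_form_frob (hM : M ≠ 0) (hpM : ¬ p ∣ M) {D : ℕ} (T : Finset (Fin (n + 1) → GaloisField p M)) (hT : T.card ≤ D + 1) (hTn : ∀ t ∈ T, Nrm t)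
    (hTF : ∀ t ∈ T, Fr p t ∈ T) (y : (Fin (n + 1) → GaloisField p M) → GaloisField p M) (hy : ∀ t ∈ T, y (Fr p t) = y t ^ p) :
    ∃ c : Mon n D → ZMod p, ∀ t ∈ T, ∑ ν, algebraMap (ZMod p) (GaloisField p M) (c ν) * mev t ν = y t := by
  obtain ⟨b, hb⟩ := exists_form_val (D := D) T hT hTn y
  have hMne : (M : GaloisField p M) ≠ 0 := fun h => hpM ((CharP.cast_eq_zero_iff (GaloisField p M) p M).1 h)
  -- the average
  have h1 : ∀ ν, ∃ c : ZMod p, algebraMap (ZMod p) (GaloisField p M) c = (M : GaloisField p M)⁻¹ * ∑ i ∈ range M, b ν ^ p ^ i := by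
    intro ν
    refine exists_zmod p _ ?_
    have h2 : ((M : GaloisField p M)⁻¹ * ∑ i ∈ range M, b ν ^ p ^ i) ^ p =
        (M : GaloisField p M)⁻¹ * ∑ i ∈ range M, b ν ^ p ^ (i + 1) := by
      have h3 := map_mul (frobenius (GaloisField p M) p) (M : GaloisField p M)⁻¹ (∑ i ∈ range M, b ν ^ p ^ i)
      rw [map_inv₀, map_natCast, map_sum] at h3
      rw [frobenius_def] at h3
      rw [h3]
      congr 1
      refine sum_congr rfl fun i _ => ?_
      rw [frobenius_def, ← pow_mul, pow_succ]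
    rw [h2]
    congr 1
    have h4 := sum_range_succ (fun i => b ν ^ p ^ i) M
    rw [sum_range_succ'] at h4
    simp only [pow_zero, pow_one] at h4
    rw [pow_M p hM] at h4
    exact add_right_cancel h4
  choose c hc using h1
  refine ⟨c, fun t ht => ?_⟩
  have hit : ∀ i, ∀ s ∈ T, (Fr p)^[i] s ∈ T := by
    intro i
    induction i with
    | zero => exact fun s hs => hs
    | succ i ih => exact fun s hs => by rw [iterate_succ_apply]; exact ih _ (hTF s hs)
  have hyi : ∀ i, ∀ s ∈ T, y ((Fr p)^[i] s) = y s ^ p ^ i := by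
    intro i
    induction i with
    | zero => exact fun s _ => by simp
    | succ i ih => exact fun s hs => by rw [iterate_succ_apply', hy _ (hit i s hs), ih s hs, ← pow_mul, pow_succ]
  have h2 : ∀ i ∈ range M, ∑ ν, b ν ^ p ^ i * mev t ν = y t := by
    intro i _
    obtain ⟨s, hs⟩ : ∃ s, s = (Fr p)^[(M - 1) * i] t := ⟨_, rfl⟩
    have hsT : s ∈ T := hs ▸ hit _ t ht
    have hst : (Fr p)^[i] s = t := by
      rw [hs, ← iterate_add_apply]
      have : i + (M - 1) * i = M * i := by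
        obtain ⟨M', rfl⟩ : ∃ M', M = M' + 1 := ⟨M - 1, by omega⟩
        rw [Nat.add_sub_cancel]
        ring
      rw [this]
      exact Fr_mul_M p hM i t
    have h3 := hb s hsT
    have h4 := congrArg (iterateFrobenius (GaloisField p M) p i) h3
    rw [map_sum] at h4
    simp only [map_mul, iterateFrobenius_def] at h4
    rw [← hyi i s hsT, hst] at h4
    rw [← h4]
    refine sum_congr rfl fun ν _ => ?_
    rw [← hst, mev_iter]
  have h3 : ∑ ν, algebraMap (ZMod p) (GaloisField p M) (c ν) * mev t ν = (M : GaloisField p M)⁻¹ * ∑ i ∈ range M, ∑ ν, b ν ^ p ^ i * mev t ν := by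
    rw [sum_comm, mul_sum]
    refine sum_congr rfl fun ν _ => ?_
    rw [hc, mul_assoc, sum_mul]
  rw [h3, sum_congr rfl h2, sum_const, card_range, nsmul_eq_mul, ← mul_assoc, inv_mul_cancel₀ hMne, one_mul]

/-- **Forms over the prime field with given values at few closed points.** -/
lemma exists_form_closed (hM : M ≠ 0) (hpM : ¬ p ∣ M) {D : ℕ} (S : Finset (Fin (n + 1) → GaloisField p M)) (hSn : ∀ u ∈ S, Nrm u)
    (hdis : ∀ u ∈ S, ∀ u' ∈ S, ∀ i, (Fr p)^[i] u = u' → u = u')
    (hc : ∑ u ∈ S, minimalPeriod (Fr p) u ≤ D + 1) (z : (Fin (n + 1) → GaloisField p M) → GaloisField p M)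
    (hz : ∀ u ∈ S, z u ^ p ^ minimalPeriod (Fr p) u = z u) :
    ∃ c : Mon n D → ZMod p, ∀ u ∈ S, ∑ ν, algebraMap (ZMod p) (GaloisField p M) (c ν) * mev u ν = z u := by
  classical
  have hperi : ∀ v : Fin (n + 1) → GaloisField p M, v ∈ periodicPts (Fr p) := fun v =>
    ⟨M, Nat.pos_of_ne_zero hM, by
      have := Fr_mul_M p hM 1 v
      rwa [mul_one] at this⟩
  have hpos : ∀ v : Fin (n + 1) → GaloisField p M, 0 < minimalPeriod (Fr p) v := fun v => minimalPeriod_pos_of_mem_periodicPts (hperi v)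
  obtain ⟨T, hT⟩ : ∃ T : Finset (Fin (n + 1) → GaloisField p M), T = S.biUnion fun u => (range (minimalPeriod (Fr p) u)).image fun i => (Fr p)^[i] u := ⟨_, rfl⟩
  have hmemT : ∀ t, t ∈ T ↔ ∃ u ∈ S, ∃ i, (Fr p)^[i] u = t := by
    intro t
    rw [hT, mem_biUnion]
    refine exists_congr fun u => and_congr_right fun _ => ?_
    rw [mem_image]
    constructor
    · rintro ⟨i, _, hi⟩
      exact ⟨i, hi⟩
    · rintro ⟨i, hi⟩
      exact ⟨i % minimalPeriod (Fr p) u, mem_range.2 (Nat.mod_lt _ (hpos u)), by rw [iterate_mod_minimalPeriod_eq, hi]⟩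
  have hTcard : T.card ≤ D + 1 := by
    rw [hT]
    refine (card_biUnion_le.trans (sum_le_sum fun u _ => ?_)).trans hc
    exact card_image_le.trans (by rw [card_range])
  have hTn : ∀ t ∈ T, Nrm t := by
    intro t ht
    obtain ⟨u, hu, i, rfl⟩ := (hmemT t).1 ht
    obtain ⟨j, hj, hj'⟩ := hSn u hu
    rw [Fr_iter]
    refine ⟨j, ?_, fun l hl => ?_⟩
    · show u j ^ p ^ i = 1
      rw [hj, one_pow]
    · show u l ^ p ^ i = 0
      rw [hj' l hl, zero_pow (pow_ne_zero _ hp.out.ne_zero)]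
  have hTF : ∀ t ∈ T, Fr p t ∈ T := by
    intro t ht
    obtain ⟨u, hu, i, rfl⟩ := (hmemT t).1 ht
    exact (hmemT _).2 ⟨u, hu, i + 1, iterate_succ_apply' _ _ _⟩
  have huniq : ∀ u ∈ S, ∀ u' ∈ S, ∀ i j, (Fr p)^[i] u = (Fr p)^[j] u' → u = u' ∧ z u ^ p ^ i = z u' ^ p ^ j := by
    intro u hu u' hu' i j hij
    have h1 : (Fr p)^[(M - 1) * j + i] u = u' := by
      rw [iterate_add_apply, hij, ← iterate_add_apply]
      have : (M - 1) * j + j = M * j := by
        obtain ⟨M', rfl⟩ : ∃ M', M = M' + 1 := ⟨M - 1, by omega⟩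
        rw [Nat.add_sub_cancel]
        ring
      rw [this]
      exact Fr_mul_M p hM j u'
    have h2 := hdis u hu u' hu' _ h1
    refine ⟨h2, ?_⟩
    subst h2
    have hzi : ∀ l, z u ^ p ^ l = z u ^ p ^ (l % minimalPeriod (Fr p) u) := by
      have hzm : ∀ q, z u ^ p ^ (minimalPeriod (Fr p) u * q) = z u := by
        intro q
        induction q with
        | zero => simp
        | succ q ih => rw [mul_add, mul_one, pow_add, pow_mul, ih, hz u hu]
      intro l
      conv_lhs => rw [← Nat.div_add_mod l (minimalPeriod (Fr p) u), pow_add, pow_mul, hzm]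
    have h3 := (iterate_eq_iterate_iff_of_lt_minimalPeriod (f := Fr p) (x := u) (m := i % minimalPeriod (Fr p) u) (n := j % minimalPeriod (Fr p) u)
      (Nat.mod_lt _ (hpos u)) (Nat.mod_lt _ (hpos u))).1 (by rw [iterate_mod_minimalPeriod_eq, iterate_mod_minimalPeriod_eq, hij])
    rw [hzi i, hzi j, h3]
  -- the values on the orbits
  have hch : ∀ t : Fin (n + 1) → GaloisField p M, ∃ w : GaloisField p M, ∀ u ∈ S, ∀ i, (Fr p)^[i] u = t → z u ^ p ^ i = w := by
    intro t
    by_cases ht : t ∈ T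
    · obtain ⟨u, hu, i, hi⟩ := (hmemT t).1 ht
      exact ⟨z u ^ p ^ i, fun u' hu' j hj => ((huniq u' hu' u hu j i (hj.trans hi.symm)).2)⟩
    · exact ⟨0, fun u hu i hi => absurd ((hmemT t).2 ⟨u, hu, i, hi⟩) ht⟩
  choose y hy using hch
  obtain ⟨c, hc⟩ := exists_form_frob p hM hpM (D := D) T hTcard hTn hTF y (by
    intro t ht
    obtain ⟨u, hu, i, hi⟩ := (hmemT t).1 ht
    rw [← hy t u hu i hi, ← hy (Fr p t) u hu (i + 1) (by rw [iterate_succ_apply', hi]), ← pow_mul, pow_succ])
  refine ⟨c, fun u hu => ?_⟩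
  rw [hc u ((hmemT u).2 ⟨u, hu, 0, rfl⟩), ← hy u u hu 0 rfl]
  simp

end frob

end H41N.JT
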